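import Pool.Agent.Helper97.Sheet.Lower

open MeasureTheory ProbabilityTheory Set Filter
open scoped ENNReal NNReal Topology

namespace Pool.Agent.Helper97.Sheet

variable {Ω : Type*} [MeasurableSpace Ω] {P : Measure Ω} {d : ℕ}

/-! ### A nice version of the sheet -/

lemma exists_nice {B : ℝ≥0 → ℝ≥0 → Ω → Fin d → ℝ} (hB : IsBrownianSheet B P) :
    ∃ X : Fin d → ℝ → ℝ → Ω → ℝ, Nice X P ∧
      ∀ᵐ ω ∂P, ∀ i s t, X i s t ω = B s.toNNReal t.toNNReal ω i := by
  classical
  have hprob : IsProbabilityMeasure P := hB.isGaussianProcess.isProbabilityMeasure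
  obtain ⟨D, hDc, hD⟩ := TopologicalSpace.exists_countable_dense (ℝ≥0 × ℝ≥0)
  have hae : ∀ q : Fin d × ℝ≥0 × ℝ≥0, AEMeasurable (fun ω => B q.2.1 q.2.2 ω q.1) P :=
    fun q => hB.isGaussianProcess.aemeasurable q
  have h1 : ∀ᵐ ω ∂P, (Continuous fun q : ℝ≥0 × ℝ≥0 => B q.1 q.2 ω) ∧
      ∀ i, ∀ q ∈ D, B q.1 q.2 ω i = (hae (i, q)).mk _ ω := by
    refine hB.continuous_paths.and ?_
    rw [ae_all_iff]
    intro i
    rw [ae_ball_iff hDc]
    intro q _
    exact (hae (i, q)).ae_eq_mk
  obtain ⟨N, hNsub, hNm, hN0⟩ := exists_measurable_superset_of_null (ae_iff.1 h1)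
  have hgood : ∀ ω ∉ N, (Continuous fun q : ℝ≥0 × ℝ≥0 => B q.1 q.2 ω) ∧
      ∀ i, ∀ q ∈ D, B q.1 q.2 ω i = (hae (i, q)).mk _ ω := by
    intro ω hω
    by_contra h
    exact hω (hNsub h)
  set X : Fin d → ℝ → ℝ → Ω → ℝ := fun i s t ω =>
    if ω ∈ N then 0 else B s.toNNReal t.toNNReal ω i with hX
  have hXB : ∀ᵐ ω ∂P, ∀ i s t, X i s t ω = B s.toNNReal t.toNNReal ω i := by
    have : ∀ᵐ ω ∂P, ω ∉ N := by rw [ae_iff]; simpa using hN0
    filter_upwards [this] with ω hω i s t
    simp [hX, hω]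
  have hXB' : ∀ i s t, X i s t =ᵐ[P] fun ω => B s.toNNReal t.toNNReal ω i := fun i s t => by
    filter_upwards [hXB] with ω hω using hω i s t
  have hmeas : ∀ i s t, Measurable (X i s t) := by
    intro i s t
    obtain ⟨u, huD, hu⟩ := mem_closure_iff_seq_limit.1 (hD (s.toNNReal, t.toNNReal))
    have hlim : Tendsto (fun n ω => if ω ∈ N then (0 : ℝ) else (hae (i, u n)).mk _ ω) atTop
        (𝓝 (X i s t)) := by
      rw [tendsto_pi_nhds]
      intro ω
      by_cases hω : ω ∈ N
      · simp only [hX, hω, if_true]; exact tendsto_const_nhds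
      · simp only [hX, hω, if_false]
        have h2 := (hgood ω hω).1
        have h3 : Tendsto (fun n => B (u n).1 (u n).2 ω i) atTop
            (𝓝 (B s.toNNReal t.toNNReal ω i)) :=
          (((continuous_apply i).comp h2).tendsto (s.toNNReal, t.toNNReal)).comp hu
        refine h3.congr fun n => ?_
        exact (hgood ω hω).2 i (u n) (huD n)
    refine measurable_of_tendsto_metrizable (fun n => ?_) hlim
    exact Measurable.ite hNm measurable_const (hae (i, u n)).measurable_mk
  have hgauss : IsGaussianProcess (fun q : Fin d × ℝ × ℝ => X q.1 q.2.1 q.2.2) P := by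
    have h2 := hB.isGaussianProcess.comp_right
      (fun q : Fin d × ℝ × ℝ => (q.1, q.2.1.toNNReal, q.2.2.toNNReal))
    exact h2.congr fun q => (hXB' q.1 q.2.1 q.2.2).symm
  have hL2 : ∀ i s t, MemLp (X i s t) 2 P := fun i s t =>
    (hgauss.hasGaussianLaw_eval (i, s, t)).memLp_two
  have hmean : ∀ i s t, P[X i s t] = 0 := fun i s t => by
    rw [integral_congr_ae (hXB' i s t)]
    exact hB.integral_eq_zero _ _ _
  have hcov : ∀ i j s t s' t', cov[X i s t, X j s' t'; P] =
      if i = j then ((min s.toNNReal s'.toNNReal : ℝ≥0) : ℝ) *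
        ((min t.toNNReal t'.toNNReal : ℝ≥0) : ℝ) else 0 := by
    intro i j s t s' t'
    rw [covariance_eq_sub (hL2 _ _ _) (hL2 _ _ _), hmean, hmean, mul_zero, sub_zero,
      ← hB.integral_mul s.toNNReal t.toNNReal s'.toNNReal t'.toNNReal i j]
    refine integral_congr_ae ?_
    filter_upwards [hXB] with ω hω
    simp only [Pi.mul_apply, hω]
  refine ⟨X, ⟨hgauss, hmeas, hmean, ?_, ?_, ?_⟩, hXB⟩
  · intro i j hij s t s' t'
    rw [hcov, if_neg hij]
  · intro i s t s' t' hs ht hs' ht'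
    rw [hcov, if_pos rfl, NNReal.coe_min, NNReal.coe_min, Real.coe_toNNReal _ hs,
      Real.coe_toNNReal _ ht, Real.coe_toNNReal _ hs', Real.coe_toNNReal _ ht']
  · intro i ω
    by_cases hω : ω ∈ N
    · simp only [hX, hω, if_true]; exact continuous_const
    · simp only [hX, hω, if_false]
      have h2 := (hgood ω hω).1
      exact ((continuous_apply i).comp h2).comp
        ((continuous_real_toNNReal.comp continuous_fst).prodMk
          (continuous_real_toNNReal.comp continuous_snd))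

/-! ### Capacities -/

section Capacity

variable {E : Type*} [PseudoMetricSpace E] [MeasurableSpace E]

lemma cap_pos_iff (β : ℝ) (F : Set E) : 0 < Cap β F ↔
    ∃ μ : Measure E, IsProbabilityMeasure μ ∧ μ Fᶜ = 0 ∧ energy β μ ≠ ∞ := by
  unfold Cap
  rw [ENNReal.inv_pos, ne_eq, iInf_eq_top, not_forall]
  constructor
  · rintro ⟨μ, hμ⟩; exact ⟨μ.1, μ.2.1, μ.2.2, hμ⟩
  · rintro ⟨μ, h1, h2, h3⟩; exact ⟨⟨μ, h1, h2⟩, h3⟩

/-- Restricting a measure of finite energy. -/
lemma exists_restrict {β : ℝ} {μ : Measure E} [IsProbabilityMeasure μ] (hE : energy β μ ≠ ∞)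
    {K : Set E} (hK : MeasurableSet K) (hμK : μ K ≠ 0) :
    ∃ ν : Measure E, IsProbabilityMeasure ν ∧ ν Kᶜ = 0 ∧ energy β ν ≠ ∞ := by
  refine ⟨(μ K)⁻¹ • μ.restrict K, ⟨?_⟩, ?_, ?_⟩
  · rw [Measure.smul_apply, Measure.restrict_apply_univ, smul_eq_mul,
      ENNReal.inv_mul_cancel hμK (measure_ne_top _ _)]
  · rw [Measure.smul_apply, Measure.restrict_apply hK.compl]
    simp
  · unfold energy
    rw [lintegral_smul_measure]
    simp_rw [lintegral_smul_measure]
    have hc : (μ K)⁻¹ ≠ ∞ := ENNReal.inv_ne_top.2 hμK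
    simp only [smul_eq_mul]
    rw [lintegral_const_mul' _ _ hc]
    refine ENNReal.mul_ne_top hc (ENNReal.mul_ne_top hc (ne_top_of_le_ne_top hE ?_))
    unfold energy
    calc ∫⁻ x in K, ∫⁻ y in K, kernelU β (dist x y) ∂μ ∂μ
        ≤ ∫⁻ x in K, ∫⁻ y, kernelU β (dist x y) ∂μ ∂μ :=
          lintegral_mono fun x => setLIntegral_le_lintegral _ _
      _ ≤ ∫⁻ x, ∫⁻ y, kernelU β (dist x y) ∂μ ∂μ := setLIntegral_le_lintegral _ _

/-- A measure of finite energy on a countable union. -/
lemma exists_piece {β : ℝ} {μ : Measure E} [IsProbabilityMeasure μ] (hE : energy β μ ≠ ∞)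
    {F : Set E} (hF : μ Fᶜ = 0) {ι : Type*} [Countable ι] {K : ι → Set E}
    (hK : ∀ i, MeasurableSet (K i)) (hcov : F ⊆ ⋃ i, K i) :
    ∃ i, ∃ ν : Measure E, IsProbabilityMeasure ν ∧ ν (K i)ᶜ = 0 ∧ energy β ν ≠ ∞ := by
  have h1 : ∃ i, μ (K i) ≠ 0 := by
    by_contra hno
    push Not at hno
    have h2 : μ (⋃ i, K i) = 0 := measure_iUnion_null hno
    have h3 : μ univ ≤ 0 := by
      calc μ univ ≤ μ (F ∪ Fᶜ) := measure_mono (by simp)
        _ ≤ μ F + μ Fᶜ := measure_union_le _ _
        _ = 0 := by rw [hF, measure_mono_null hcov h2, add_zero]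
    rw [measure_univ] at h3
    exact absurd h3 (by simp)
  obtain ⟨i, hi⟩ := h1
  exact ⟨i, exists_restrict hE (hK i) hi⟩

/-- Isometries do not change the energy. -/
lemma energy_map {E' : Type*} [PseudoMetricSpace E'] [MeasurableSpace E'] {β : ℝ}
    {μ : Measure E} {φ : E → E'} (hφ : MeasurableEmbedding φ) (hiso : Isometry φ) :
    energy β (μ.map φ) = energy β μ := by
  unfold energy
  rw [hφ.lintegral_map]
  refine lintegral_congr fun x => ?_
  rw [hφ.lintegral_map]
  refine lintegral_congr fun y => ?_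
  rw [hiso.dist_eq]

end Capacity

/-! ### The swap -/

/-- Exchange of the last two coordinates. -/
noncomputable def swapE : E3 ≃ₗᵢ[ℝ] E3 :=
  LinearIsometryEquiv.piLpCongrLeft 2 ℝ ℝ (Equiv.swap (1 : Fin 3) 2)

lemma swapE_apply (x : E3) (k : Fin 3) : swapE x k = x (Equiv.swap 1 2 k) := by
  simp [swapE, LinearIsometryEquiv.piLpCongrLeft_apply]

@[simp] lemma swapE_zero (x : E3) : swapE x 0 = x 0 := by
  rw [swapE_apply]; rfl

@[simp] lemma swapE_one (x : E3) : swapE x 1 = x 2 := by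
  rw [swapE_apply]; rfl

@[simp] lemma swapE_two (x : E3) : swapE x 2 = x 1 := by
  rw [swapE_apply]; rfl

lemma swapE_swapE (x : E3) : swapE (swapE x) = x := by
  ext k
  rw [swapE_apply, swapE_apply, Equiv.swap_apply_self]

lemma isClosed_Dom (R b : ℝ) : IsClosed (Dom R b) := by
  have c0 : Continuous fun x : E3 => x 0 := by fun_prop
  have c1 : Continuous fun x : E3 => x 1 := by fun_prop
  have c2 : Continuous fun x : E3 => x 2 := by fun_prop
  unfold Dom
  refine (isClosed_le continuous_const c0).inter ((isClosed_le c0 continuous_const).inter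
    ((isClosed_le continuous_const c1).inter ((isClosed_le continuous_const
      (continuous_const.sub c1)).inter ((isClosed_le (continuous_const.sub c1)
        continuous_const).inter ((isClosed_le continuous_const (c2.sub continuous_const)).inter
          (isClosed_le (c2.sub continuous_const) continuous_const))))))

/-- Every point with `0 < x 0`, `0 ≤ x 1 < x 2` is in one of the domains. -/
lemma exists_Dom {x : E3} (h0 : 0 < x 0) (h1 : 0 ≤ x 1) (h12 : x 1 < x 2) :
    ∃ q : ℚ × ℕ, x ∈ Dom ((q.2 : ℝ) + 1) q.1 := by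
  obtain ⟨b, hb1, hb2⟩ := exists_rat_btwn h12
  obtain ⟨n, hn⟩ : ∃ n : ℕ, 1 / ((n : ℝ) + 1) < x 0 ∧ 1 / ((n : ℝ) + 1) < b - x 1 ∧
      1 / ((n : ℝ) + 1) < x 2 - b ∧ x 0 ≤ n ∧ b - x 1 ≤ n ∧ x 2 - b ≤ n := by
    have h2 := tendsto_one_div_add_atTop_nhds_zero_nat (𝕜 := ℝ)
    have h3 : ∀ C : ℝ, ∀ᶠ n : ℕ in atTop, C ≤ n := fun C =>
      tendsto_natCast_atTop_atTop.eventually (eventually_ge_atTop C)
    exact ((h2.eventually (gt_mem_nhds h0)).and ((h2.eventually
      (gt_mem_nhds (sub_pos.2 hb1))).and ((h2.eventually (gt_mem_nhds (sub_pos.2 hb2))).and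
        ((h3 _).and ((h3 _).and (h3 _)))))).exists
  obtain ⟨n1, n2, n3, n4, n5, n6⟩ := hn
  exact ⟨(b, n), n1.le, by simp only; linarith, h1, n2.le, by simp only; linarith, n3.le,
    by simp only; linarith⟩

section Q1

variable {X : Fin d → ℝ → ℝ → Ω → ℝ}

/-- Off the diagonal. -/
def offDiag : Set E3 := {x | x 1 ≠ x 2}

/-- The pieces. -/
def piece (G : Set E3) (q : Bool × ℚ × ℕ) : Set E3 :=
  if q.1 then G ∩ Dom ((q.2.2 : ℝ) + 1) q.2.1 else G ∩ swapE ⁻¹' Dom ((q.2.2 : ℝ) + 1) q.2.1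

lemma piece_sub {G : Set E3} (q : Bool × ℚ × ℕ) : piece G q ⊆ G ∩ offDiag := by
  obtain ⟨σ, b, n⟩ := q
  have hn : (1 : ℝ) ≤ (n : ℝ) + 1 := by linarith [(Nat.cast_nonneg n : (0 : ℝ) ≤ n)]
  cases σ
  · simp only [piece, Bool.false_eq_true, if_false]
    rintro x ⟨hx, hx'⟩
    refine ⟨hx, ?_⟩
    obtain ⟨_, _, h3, h4, _⟩ := Dom.bounds hn hx'
    simp only [swapE_one, swapE_two] at h3 h4
    show x 1 ≠ x 2
    exact (h3.trans h4).ne'
  · simp only [piece, if_true]
    rintro x ⟨hx, hx'⟩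
    refine ⟨hx, ?_⟩
    obtain ⟨_, _, h3, h4, _⟩ := Dom.bounds hn hx'
    show x 1 ≠ x 2
    exact (h3.trans h4).ne

lemma cover_piece {G : Set E3} (hpos : ∀ x ∈ G, ∀ k, 0 < x k) :
    G ∩ offDiag ⊆ ⋃ q, piece G q := by
  rintro x ⟨hx, hx'⟩
  rw [mem_iUnion]
  rcases lt_or_gt_of_ne (show x 1 ≠ x 2 from hx') with h | h
  · obtain ⟨q, hq⟩ := exists_Dom (hpos x hx 0) (hpos x hx 1).le h
    exact ⟨(true, q.1, q.2), by simpa [piece] using ⟨hx, hq⟩⟩
  · obtain ⟨q, hq⟩ := exists_Dom (x := swapE x) (by simpa using hpos x hx 0)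
      (by simpa using (hpos x hx 2).le) (by simpa using h)
    exact ⟨(false, q.1, q.2), by simpa [piece] using ⟨hx, hq⟩⟩

lemma measurableSet_piece {G : Set E3} (hG : IsCompact G) (q : Bool × ℚ × ℕ) :
    MeasurableSet (piece G q) := by
  unfold piece
  split_ifs
  · exact hG.measurableSet.inter (isClosed_Dom _ _).measurableSet
  · exact hG.measurableSet.inter ((isClosed_Dom _ _).preimage swapE.continuous).measurableSet

/-- The compact set in the domain corresponding to a piece. -/
def piece' (G : Set E3) (q : Bool × ℚ × ℕ) : Set E3 :=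
  (if q.1 then G else swapE ⁻¹' G) ∩ Dom ((q.2.2 : ℝ) + 1) q.2.1

lemma isCompact_piece' {G : Set E3} (hG : IsCompact G) (q : Bool × ℚ × ℕ) :
    IsCompact (piece' G q) := by
  unfold piece'
  split_ifs
  · exact hG.inter_right (isClosed_Dom _ _)
  · refine IsCompact.inter_right ?_ (isClosed_Dom _ _)
    have : swapE ⁻¹' G = swapE '' G := by
      ext x
      constructor
      · intro h; exact ⟨swapE x, h, swapE_swapE x⟩
      · rintro ⟨y, hy, rfl⟩; rw [mem_preimage, swapE_swapE]; exact hy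
    rw [this]
    exact hG.image swapE.continuous

omit [MeasurableSpace Ω] in
/-- Zeros in `G` off the diagonal. -/
lemma hit_offDiag (G : Set E3) (hpos : ∀ x ∈ G, ∀ k, 0 < x k) (ω : Ω) :
    (∃ x ∈ G ∩ offDiag, ∀ i, W X i x ω = 0) ↔ ∃ q, ω ∈ hit X (piece' G q) := by
  have hsw : ∀ x : E3, ∀ i, W X i (swapE x) ω = -W X i x ω := by
    intro x i
    unfold W
    simp only [swapE_zero, swapE_one, swapE_two]
    ring
  constructor
  · rintro ⟨x, hx, h0⟩
    obtain ⟨q, hq⟩ := mem_iUnion.1 (cover_piece hpos hx)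
    refine ⟨q, ?_⟩
    obtain ⟨σ, b, n⟩ := q
    cases σ
    · simp only [piece, Bool.false_eq_true, if_false] at hq
      refine ⟨swapE x, ?_, fun i => by rw [hsw, h0, neg_zero]⟩
      simp only [piece', Bool.false_eq_true, if_false]
      refine ⟨?_, hq.2⟩
      rw [mem_preimage, swapE_swapE]; exact hq.1
    · simp only [piece, if_true] at hq
      refine ⟨x, ?_, h0⟩
      simpa only [piece', if_true] using hq
  · rintro ⟨⟨σ, b, n⟩, x, hx, h0⟩
    cases σ
    · simp only [piece', Bool.false_eq_true, if_false] at hx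
      refine ⟨swapE x, piece_sub (false, b, n) ?_, fun i => by rw [hsw, h0, neg_zero]⟩
      simp only [piece, Bool.false_eq_true, if_false]
      refine ⟨hx.1, ?_⟩
      rw [mem_preimage, swapE_swapE]; exact hx.2
    · simp only [piece', if_true] at hx
      refine ⟨x, piece_sub (true, b, n) ?_, h0⟩
      simpa only [piece, if_true] using hx

lemma measurableEmbedding_swapE : MeasurableEmbedding swapE :=
  swapE.toHomeomorph.measurableEmbedding

/-- The characterisation in terms of the nice version. -/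
lemma Nice.q1 (hX : Nice X P) (hd : 1 ≤ d) {G : Set E3} (hG : IsCompact G)
    (hpos : ∀ x ∈ G, ∀ k, 0 < x k) :
    0 < P {ω | ∃ x ∈ G ∩ offDiag, ∀ i, W X i x ω = 0} ↔
      0 < Cap ((d : ℝ) / 2) (G ∩ offDiag) := by
  have := hX.isProb
  have hset : {ω | ∃ x ∈ G ∩ offDiag, ∀ i, W X i x ω = 0} = ⋃ q, hit X (piece' G q) := by
    ext ω
    rw [mem_iUnion]
    exact hit_offDiag G hpos ω
  rw [hset, cap_pos_iff]
  have hn : ∀ n : ℕ, (1 : ℝ) ≤ (n : ℝ) + 1 := fun n => by
    linarith [(Nat.cast_nonneg n : (0 : ℝ) ≤ n)]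
  constructor
  · intro h
    obtain ⟨q, hq⟩ : ∃ q, 0 < P (hit X (piece' G q)) := by
      by_contra hno
      push Not at hno
      have : P (⋃ q, hit X (piece' G q)) = 0 := measure_iUnion_null fun q => by
        simpa using hno q
      exact absurd this h.ne'
    obtain ⟨σ, b, n⟩ := q
    have hb : (0 : ℝ) ≤ b := by
      by_contra hb
      push Not at hb
      have hempty : hit X (piece' G (σ, b, n)) = ∅ := by
        ext ω
        simp only [hit, mem_ofPred_eq, mem_empty_iff_false, iff_false, not_exists, not_and]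
        intro x hx
        obtain ⟨_, h2, h3, _⟩ := Dom.bounds (hn n) hx.2
        linarith
      rw [hempty, measure_empty] at hq
      exact lt_irrefl _ hq
    obtain ⟨μ, hμ1, hμ2, hμ3⟩ := hX.upper hd (hn n) hb (isCompact_piece' hG (σ, b, n))
      (inter_subset_right) hq
    cases σ
    · refine ⟨μ.map swapE, Measure.isProbabilityMeasure_map
        measurableEmbedding_swapE.measurable.aemeasurable, ?_, ?_⟩
      · rw [measurableEmbedding_swapE.map_apply]
        refine measure_mono_null ?_ hμ2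
        intro x hx
        simp only [mem_compl_iff]
        intro hx'
        apply hx
        simp only [piece', Bool.false_eq_true, if_false] at hx'
        have h2 : swapE x ∈ piece G (false, b, n) := by
          simp only [piece, Bool.false_eq_true, if_false]
          refine ⟨hx'.1, ?_⟩
          rw [mem_preimage, swapE_swapE]; exact hx'.2
        exact piece_sub _ h2
      · rw [energy_map measurableEmbedding_swapE swapE.isometry]; exact hμ3
    · refine ⟨μ, hμ1, ?_, hμ3⟩
      refine measure_mono_null (compl_subset_compl.2 ?_) hμ2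
      intro x hx
      refine piece_sub (true, b, n) ?_
      simpa only [piece, piece', if_true] using hx
  · rintro ⟨μ, hμ1, hμ2, hμ3⟩
    obtain ⟨⟨σ, b, n⟩, ν, hν1, hν2, hν3⟩ := exists_piece hμ3 hμ2
      (fun q => measurableSet_piece hG q) (cover_piece hpos)
    refine lt_of_lt_of_le ?_ (measure_mono (subset_iUnion _ (σ, b, n)))
    cases σ
    · have hp : IsProbabilityMeasure (ν.map swapE) := Measure.isProbabilityMeasure_map
        measurableEmbedding_swapE.measurable.aemeasurable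
      refine hX.lower hd (hn n) (isCompact_piece' hG (false, b, n)) inter_subset_right
        (μ := ν.map swapE) ?_ ?_
      · rw [measurableEmbedding_swapE.map_apply]
        refine measure_mono_null ?_ hν2
        intro x hx
        simp only [mem_compl_iff]
        intro hx'
        apply hx
        simp only [piece, Bool.false_eq_true, if_false] at hx'
        simp only [piece', Bool.false_eq_true, if_false]
        refine ⟨?_, hx'.2⟩
        rw [mem_preimage, swapE_swapE]; exact hx'.1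
      · rw [energy_map measurableEmbedding_swapE swapE.isometry]; exact hν3
    · refine hX.lower hd (hn n) (isCompact_piece' hG (true, b, n)) inter_subset_right
        (μ := ν) ?_ hν3
      refine measure_mono_null (compl_subset_compl.2 ?_) hν2
      intro x hx
      simpa only [piece, piece', if_true] using hx

end Q1

/-- The characterisation for the sheet. -/
theorem sheet_q1 {B : ℝ≥0 → ℝ≥0 → Ω → Fin d → ℝ} (hB : IsBrownianSheet B P) (hd : 1 ≤ d)
    {G : Set E3} (hG : IsCompact G) (hpos : ∀ x ∈ G, ∀ k, 0 < x k) :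
    0 < P {ω | (hatD B ω ∩ G).Nonempty} ↔ 0 < Cap ((d : ℝ) / 2) (G ∩ {x | x 1 ≠ x 2}) := by
  obtain ⟨X, hX, hXB⟩ := exists_nice hB
  rw [← show offDiag = {x : E3 | x 1 ≠ x 2} from rfl, ← hX.q1 hd hG hpos]
  have hae : ({ω | (hatD B ω ∩ G).Nonempty} : Set Ω) =ᵐ[P]
      {ω | ∃ x ∈ G ∩ offDiag, ∀ i, W X i x ω = 0} := by
    filter_upwards [hXB] with ω hω
    apply propext
    show (hatD B ω ∩ G).Nonempty ↔ ∃ x ∈ G ∩ offDiag, ∀ i, W X i x ω = 0
    constructor
    · rintro ⟨x, ⟨h1, h2, h3⟩, hx⟩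
      refine ⟨x, ⟨hx, h2⟩, fun i => ?_⟩
      unfold W
      rw [hω, hω, h3, sub_self]
    · rintro ⟨x, ⟨hx, h2⟩, h3⟩
      refine ⟨x, ⟨fun k => (hpos x hx k).le, h2, ?_⟩, hx⟩
      funext i
      have h4 := h3 i
      unfold W at h4
      rw [hω, hω, sub_eq_zero] at h4
      exact h4.symm
  rw [measure_congr hae]

end Pool.Agent.Helper97.Sheet
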