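import Pool.Agent.Helper97.Sheet.Slice

open MeasureTheory ProbabilityTheory Set Filter
open scoped ENNReal NNReal Topology

namespace Pool.Agent.Helper97.Sheet

/-- The plane. -/
abbrev E2 : Type := EuclideanSpace ℝ (Fin 2)

/-- The projection to the first two coordinates. -/
noncomputable def pr (x : E3) : E2 := !₂[x 0, x 1]

@[simp] lemma pr_zero (x : E3) : pr x 0 = x 0 := rfl
@[simp] lemma pr_one (x : E3) : pr x 1 = x 1 := rfl

lemma continuous_pr : Continuous pr := by
  unfold pr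
  refine (PiLp.continuous_toLp 2 _).comp ?_
  refine continuous_pi fun k => ?_
  fin_cases k
  · show Continuous fun x : E3 => x 0
    fun_prop
  · show Continuous fun x : E3 => x 1
    fun_prop

/-- The third unit vector. -/
noncomputable def e2 : E3 := EuclideanSpace.single 2 1

lemma norm_shift (x y : E3) (v : ℝ) :
    ‖x - y + v • e2‖ = √(dist (pr x) (pr y) ^ 2 + (x 2 - y 2 + v) ^ 2) := by
  rw [EuclideanSpace.norm_eq, EuclideanSpace.dist_eq, Fin.sum_univ_three, Fin.sum_univ_two,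
    Real.sq_sqrt (by positivity)]
  congr 1
  simp [e2, Real.dist_eq, sq_abs]

lemma dist_eq_pr (x y : E3) :
    dist x y = √(dist (pr x) (pr y) ^ 2 + (x 2 - y 2) ^ 2) := by
  have := norm_shift x y 0
  rw [zero_smul, add_zero, add_zero, ← dist_eq_norm] at this
  exact this

/-- Exchange of integrals. -/
lemma swap_shift {F : Type*} [MeasurableSpace F] {f : F → F → ℝ → ℝ≥0∞}
    (hf : Measurable fun p : (F × F) × ℝ => f p.1.1 p.1.2 p.2) (μ : Measure F)
    [IsProbabilityMeasure μ] (lam : Measure ℝ) [SFinite lam] {C : ℝ≥0∞} (hC : C ≠ ∞) :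
    ∫⁻ x, ∫⁻ y, C * ((∫⁻ v, f x y v ∂lam) + 1) ∂μ ∂μ =
      C * ((∫⁻ v, ∫⁻ x, ∫⁻ y, f x y v ∂μ ∂μ ∂lam) + 1) := by
  have hf1 : ∀ x, Measurable fun p : F × ℝ => f x p.1 p.2 := fun x =>
    hf.comp ((measurable_const.prodMk measurable_fst).prodMk measurable_snd)
  have hf2 : Measurable fun p : (F × ℝ) × F => f p.1.1 p.2 p.1.2 :=
    hf.comp ((measurable_fst.fst.prodMk measurable_snd).prodMk measurable_fst.snd)
  have hx : ∀ x, ∫⁻ y, C * ((∫⁻ v, f x y v ∂lam) + 1) ∂μ =
      C * ((∫⁻ v, ∫⁻ y, f x y v ∂μ ∂lam) + 1) := by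
    intro x
    have hmx : Measurable fun y => ∫⁻ v, f x y v ∂lam := (hf1 x).lintegral_prod_right'
    rw [lintegral_const_mul' _ _ hC, lintegral_add_left hmx, lintegral_one, measure_univ,
      lintegral_lintegral_swap (hf1 x).aemeasurable]
  simp_rw [hx]
  have hm2 : Measurable fun p : F × ℝ => ∫⁻ y, f p.1 y p.2 ∂μ := hf2.lintegral_prod_right'
  have hm3 : Measurable fun x => ∫⁻ v, ∫⁻ y, f x y v ∂μ ∂lam := hm2.lintegral_prod_right'
  rw [lintegral_const_mul' _ _ hC, lintegral_add_left hm3, lintegral_one, measure_univ,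
    lintegral_lintegral_swap hm2.aemeasurable]

/-- The energy of an image. -/
lemma energy_map' {F F' : Type*} [MeasurableSpace F] [PseudoMetricSpace F']
    [SecondCountableTopology F'] [MeasurableSpace F'] [BorelSpace F'] (β : ℝ)
    (μ : Measure F) [SFinite μ] {φ : F → F'} (hφ : Measurable φ) :
    energy β (μ.map φ) = ∫⁻ x, ∫⁻ y, kernelU β (dist (φ x) (φ y)) ∂μ ∂μ := by
  have hk := measurable_kernelU β
  unfold energy
  rw [lintegral_map _ hφ]
  · refine lintegral_congr fun x => ?_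
    rw [lintegral_map _ hφ]
    exact hk.comp (measurable_const.dist measurable_id)
  · have : Measurable fun p : F' × F' => kernelU β (dist p.1 p.2) :=
      hk.comp (measurable_fst.dist measurable_snd)
    exact this.lintegral_prod_right'

/-- Projections of measures of finite energy. -/
lemma energy_pr {β : ℝ} (hβ : 0 < β) {μ : Measure E3} [IsProbabilityMeasure μ]
    (hE : energy β μ ≠ ∞) {L : ℝ} (hL : ∀ᵐ x ∂μ, 0 ≤ x 2 ∧ x 2 ≤ L) :
    energy (β - 1) (μ.map pr) ≠ ∞ := by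
  obtain ⟨C, hC, hCJ⟩ := exists_JJ_lower hβ
  have hmp : Measurable pr := continuous_pr.measurable
  rw [energy_map' (β - 1) μ hmp]
  have hmV : Measurable fun p : (E3 × E3) × ℝ => kernelU β ‖p.1.1 - p.1.2 + p.2 • e2‖ :=
    (measurable_kernelU β).comp (by fun_prop)
  have h1 : ∫⁻ x, ∫⁻ y, kernelU (β - 1) (dist (pr x) (pr y)) ∂μ ∂μ ≤
      ∫⁻ x, ∫⁻ y, C * ((∫⁻ v in Icc (-L) (1 + L), kernelU β ‖x - y + v • e2‖) + 1) ∂μ ∂μ := by
    refine lintegral_mono_ae ?_
    filter_upwards [hL] with x hx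
    refine lintegral_mono_ae ?_
    filter_upwards [hL] with y hy
    refine (hCJ _ dist_nonneg).trans ?_
    gcongr
    simp_rw [norm_shift]
    apply slice_lower
    rw [abs_le]
    constructor <;> linarith [hx.1, hx.2, hy.1, hy.2]
  have h2 := swap_shift (f := fun x y v => kernelU β ‖x - y + v • e2‖) hmV μ
    (volume.restrict (Icc (-L) (1 + L))) hC
  have h3 : ∫⁻ v in Icc (-L) (1 + L), ∫⁻ x, ∫⁻ y, kernelU β ‖x - y + v • e2‖ ∂μ ∂μ ≤
      ∫⁻ _ in Icc (-L) (1 + L), 2 * energy β μ :=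
    lintegral_mono fun v => energy_shift hβ μ (v • e2)
  have h4 : ∫⁻ _ in Icc (-L) (1 + L), 2 * energy β μ ≠ ∞ := by
    rw [setLIntegral_const, Real.volume_Icc]
    exact ENNReal.mul_ne_top (ENNReal.mul_ne_top (by simp) hE) ENNReal.ofReal_ne_top
  refine ne_top_of_le_ne_top ?_ (h1.trans h2.le)
  exact ENNReal.mul_ne_top hC (ENNReal.add_ne_top.2
    ⟨ne_top_of_le_ne_top h4 h3, ENNReal.one_ne_top⟩)

/-- The insertion of a third coordinate. -/
noncomputable def ins (p : E2 × ℝ) : E3 := !₂[p.1 0, p.1 1, p.2]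

@[simp] lemma ins_zero (p : E2 × ℝ) : ins p 0 = p.1 0 := rfl
@[simp] lemma ins_one (p : E2 × ℝ) : ins p 1 = p.1 1 := rfl
@[simp] lemma ins_two (p : E2 × ℝ) : ins p 2 = p.2 := rfl

@[simp] lemma pr_ins (p : E2 × ℝ) : pr (ins p) = p.1 := by
  ext k
  fin_cases k <;> rfl

lemma continuous_ins : Continuous ins := by
  unfold ins
  refine (PiLp.continuous_toLp 2 _).comp ?_
  refine continuous_pi fun k => ?_
  fin_cases k
  · show Continuous fun p : E2 × ℝ => p.1 0
    fun_prop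
  · show Continuous fun p : E2 × ℝ => p.1 1
    fun_prop
  · show Continuous fun p : E2 × ℝ => p.2
    fun_prop

/-- Products with a segment. -/
lemma energy_ins {β : ℝ} (hβ : 0 < β) {ν : Measure E2} [IsProbabilityMeasure ν]
    (hE : energy (β - 1) ν ≠ ∞) (a : ℝ) :
    energy β ((ν.prod (volume.restrict (Icc a (a + 1)))).map ins) ≠ ∞ := by
  obtain ⟨C, hC, hCJ⟩ := exists_JJ_upper hβ
  have hmi : Measurable ins := continuous_ins.measurable
  have hk := measurable_kernelU β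
  set lam : Measure ℝ := volume.restrict (Icc a (a + 1)) with hlam
  have hlam1 : lam univ = 1 := by
    rw [hlam, Measure.restrict_apply_univ, Real.volume_Icc]
    simp
  rw [energy_map' β (ν.prod lam) hmi]
  have hd : ∀ p q : E2 × ℝ, dist (ins p) (ins q) = √(dist p.1 q.1 ^ 2 + (p.2 - q.2) ^ 2) := by
    intro p q
    rw [dist_eq_pr, pr_ins, pr_ins, ins_two, ins_two]
  have h1 : ∀ p : E2 × ℝ, p.2 ∈ Icc a (a + 1) →
      ∫⁻ q, kernelU β (dist (ins p) (ins q)) ∂(ν.prod lam) ≤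
        ∫⁻ y, 2 * (C * (kernelU (β - 1) (dist p.1 y) + 1)) ∂ν := by
    intro p hp
    have hmq : Measurable fun q : E2 × ℝ => kernelU β (dist (ins p) (ins q)) :=
      hk.comp (measurable_const.dist hmi)
    rw [lintegral_prod _ hmq.aemeasurable]
    refine lintegral_mono fun y => ?_
    simp only [hd]
    refine (slice_upper β (dist p.1 y) a p.2 hp).trans ?_
    gcongr
    exact hCJ _ dist_nonneg
  have h2 : ∫⁻ p, ∫⁻ q, kernelU β (dist (ins p) (ins q)) ∂(ν.prod lam) ∂(ν.prod lam) ≤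
      ∫⁻ p, (fun x => ∫⁻ y, 2 * (C * (kernelU (β - 1) (dist x y) + 1)) ∂ν) p.1 ∂(ν.prod lam) := by
    refine lintegral_mono_ae ?_
    have h3 : ∀ᵐ p ∂(ν.prod lam), p.2 ∈ Icc a (a + 1) := by
      have h4 : ∀ᵐ t ∂lam, t ∈ Icc a (a + 1) := ae_restrict_mem measurableSet_Icc
      exact Measure.quasiMeasurePreserving_snd.ae h4
    filter_upwards [h3] with p hp using h1 p hp
  have hkk : Measurable fun p : E2 × E2 => kernelU (β - 1) (dist p.1 p.2) :=
    (measurable_kernelU (β - 1)).comp (measurable_fst.dist measurable_snd)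
  have h5 : ∫⁻ p, (fun x => ∫⁻ y, 2 * (C * (kernelU (β - 1) (dist x y) + 1)) ∂ν) p.1
      ∂(ν.prod lam) = 2 * (C * (energy (β - 1) ν + 1)) := by
    have hx : ∀ x : E2, ∫⁻ y, 2 * (C * (kernelU (β - 1) (dist x y) + 1)) ∂ν =
        2 * (C * ((∫⁻ y, kernelU (β - 1) (dist x y) ∂ν) + 1)) := by
      intro x
      rw [lintegral_const_mul' _ _ (by simp), lintegral_const_mul' _ _ hC, lintegral_add_right _
        measurable_const, lintegral_one, measure_univ]
    have hm1 : Measurable fun x : E2 => ∫⁻ y, kernelU (β - 1) (dist x y) ∂ν :=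
      hkk.lintegral_prod_right'
    have hm2 : Measurable fun x : E2 =>
        2 * (C * ((∫⁻ y, kernelU (β - 1) (dist x y) ∂ν) + 1)) :=
      ((hm1.add_const _).const_mul _).const_mul _
    have hm3 : Measurable fun p : E2 × ℝ =>
        2 * (C * ((∫⁻ y, kernelU (β - 1) (dist p.1 y) ∂ν) + 1)) := hm2.comp measurable_fst
    simp only [hx]
    rw [lintegral_prod _ hm3.aemeasurable]
    simp only [lintegral_const, hlam1, mul_one]
    rw [lintegral_const_mul' _ _ (by simp), lintegral_const_mul' _ _ hC, lintegral_add_right _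
        measurable_const, lintegral_one, measure_univ]
    rfl
  refine ne_top_of_le_ne_top ?_ (h2.trans h5.le)
  exact ENNReal.mul_ne_top (by simp) (ENNReal.mul_ne_top hC (ENNReal.add_ne_top.2
    ⟨hE, ENNReal.one_ne_top⟩))

/-! ### The characterisation -/

lemma isCompact_Dom {R b : ℝ} (hR : 1 ≤ R) : IsCompact (Dom R b) := by
  refine Metric.isCompact_of_isClosed_isBounded (isClosed_Dom R b) ?_
  rw [Metric.isBounded_iff]
  refine ⟨3 * R, fun x hx y hy => ?_⟩
  obtain ⟨a1, a2, a3, a4, a5, a6, a7⟩ := hx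
  obtain ⟨c1, c2, c3, c4, c5, c6, c7⟩ := hy
  have h : 0 ≤ 1 / R := by positivity
  refine (dist_le_sum x y).trans ?_
  have e0 : |x 0 - y 0| ≤ R := by
    rw [abs_le]; constructor <;> linarith
  have e1 : |x 1 - y 1| ≤ R := by
    rw [abs_le]; constructor <;> linarith
  have e2 : |x 2 - y 2| ≤ R := by
    rw [abs_le]; constructor <;> linarith
  linarith

/-- The pieces. -/
def kE (E : Set E2) (q : Bool × ℚ × ℕ) : Set E3 :=
  (if q.1 then pr ⁻¹' E else swapE ⁻¹' (pr ⁻¹' E)) ∩ Dom ((q.2.2 : ℝ) + 1) q.2.1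

lemma isCompact_kE {E : Set E2} (hE : IsCompact E) (q : Bool × ℚ × ℕ) : IsCompact (kE E q) := by
  have hn : (1 : ℝ) ≤ (q.2.2 : ℝ) + 1 := by linarith [(Nat.cast_nonneg q.2.2 : (0 : ℝ) ≤ q.2.2)]
  unfold kE
  refine IsCompact.inter_left (isCompact_Dom hn) ?_
  split_ifs
  · exact hE.isClosed.preimage continuous_pr
  · exact (hE.isClosed.preimage continuous_pr).preimage swapE.continuous

section Q2

variable {Ω : Type*} [MeasurableSpace Ω] {P : Measure Ω} {d : ℕ} {X : Fin d → ℝ → ℝ → Ω → ℝ}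

omit [MeasurableSpace Ω] in
lemma sub_hit {E : Set E2} (hpos : ∀ x ∈ E, ∀ k, 0 < x k) :
    {ω | ∃ x ∈ E, ∃ t : ℝ, 0 < t ∧ t ≠ x 1 ∧ ∀ i, X i (x 0) (x 1) ω = X i (x 0) t ω} ⊆
      ⋃ q, hit X (kE E q) := by
  rintro ω ⟨x, hx, t, ht0, ht, h⟩
  rw [mem_iUnion]
  rcases lt_or_gt_of_ne ht with h1 | h1
  · -- `t < x 1`
    obtain ⟨q, hq⟩ := exists_Dom (x := swapE (ins (x, t))) (by simpa using hpos x hx 0)
      (by simpa using ht0.le) (by simpa using h1)
    refine ⟨(false, q), swapE (ins (x, t)), ⟨?_, hq⟩, fun i => ?_⟩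
    · simp only [Bool.false_eq_true, if_false, mem_preimage]
      rw [swapE_swapE, pr_ins]; exact hx
    · unfold W
      simp only [swapE_zero, swapE_one, swapE_two, ins_zero, ins_one, ins_two]
      rw [h i, sub_self]
  · obtain ⟨q, hq⟩ := exists_Dom (x := ins (x, t)) (by simpa using hpos x hx 0)
      (by simpa using (hpos x hx 1).le) (by simpa using h1)
    refine ⟨(true, q), ins (x, t), ⟨?_, hq⟩, fun i => ?_⟩
    · simp only [if_true, mem_preimage]
      rw [pr_ins]; exact hx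
    · unfold W
      simp only [ins_zero, ins_one, ins_two]
      rw [h i, sub_self]

/-- The second characterisation, necessity. -/
lemma Nice.q2_upper (hX : Nice X P) (hd : 1 ≤ d) {E : Set E2} (hE : IsCompact E)
    (hpos : ∀ x ∈ E, ∀ k, 0 < x k)
    (h : 0 < P {ω | ∃ x ∈ E, ∃ t : ℝ, 0 < t ∧ t ≠ x 1 ∧
      ∀ i, X i (x 0) (x 1) ω = X i (x 0) t ω}) :
    0 < Cap (((d : ℝ) - 2) / 2) E := by
  have hd' : (1 : ℝ) ≤ d := by exact_mod_cast hd
  have hβ : (0 : ℝ) < (d : ℝ) / 2 := by linarith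
  have hβ' : ((d : ℝ) - 2) / 2 = (d : ℝ) / 2 - 1 := by ring
  have hn : ∀ n : ℕ, (1 : ℝ) ≤ (n : ℝ) + 1 := fun n => by
    linarith [(Nat.cast_nonneg n : (0 : ℝ) ≤ n)]
  rw [cap_pos_iff, hβ']
  obtain ⟨q, hq⟩ : ∃ q, 0 < P (hit X (kE E q)) := by
    by_contra hno
    push Not at hno
    have h1 : P (⋃ q, hit X (kE E q)) = 0 := measure_iUnion_null fun q => by
      simpa using hno q
    have h2 := measure_mono_null (sub_hit (X := X) hpos) h1
    exact absurd h2 h.ne'
  obtain ⟨σ, b, n⟩ := q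
  have hb : (0 : ℝ) ≤ b := by
    by_contra hb
    push Not at hb
    have hempty : hit X (kE E (σ, b, n)) = ∅ := by
      ext ω
      simp only [hit, mem_ofPred_eq, mem_empty_iff_false, iff_false, not_exists, not_and]
      intro x hx
      obtain ⟨_, h2, h3, _⟩ := Dom.bounds (hn n) hx.2
      linarith
    rw [hempty, measure_empty] at hq
    exact lt_irrefl _ hq
  obtain ⟨μ, hμ1, hμ2, hμ3⟩ := hX.upper hd (hn n) hb (isCompact_kE hE (σ, b, n))
    inter_subset_right hq
  have hμae : ∀ᵐ x ∂μ, x ∈ kE E (σ, b, n) := by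
    rw [ae_iff]; exact hμ2
  have hmp : Measurable pr := continuous_pr.measurable
  cases σ
  · have hms := measurableEmbedding_swapE
    have hp : IsProbabilityMeasure (μ.map swapE) := Measure.isProbabilityMeasure_map
      hms.measurable.aemeasurable
    have hae : ∀ᵐ x ∂(μ.map swapE), swapE x ∈ kE E (false, b, n) := by
      rw [hms.ae_map_iff]
      filter_upwards [hμae] with x hx
      rw [swapE_swapE]; exact hx
    have hE3 : energy ((d : ℝ) / 2) (μ.map swapE) ≠ ∞ := by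
      rw [energy_map hms swapE.isometry]; exact hμ3
    refine ⟨(μ.map swapE).map pr, Measure.isProbabilityMeasure_map hmp.aemeasurable, ?_,
      energy_pr hβ hE3 (L := b) ?_⟩
    · rw [Measure.map_apply hmp hE.measurableSet.compl]
      refine measure_mono_null ?_ (ae_iff.1 hae)
      intro x hx hx'
      apply hx
      simp only [kE, Bool.false_eq_true, if_false] at hx'
      have h1 := hx'.1
      rw [mem_preimage, swapE_swapE] at h1
      exact h1
    · filter_upwards [hae] with x hx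
      obtain ⟨_, h2, h3, _⟩ := Dom.bounds (hn n) hx.2
      rw [swapE_one] at h2 h3
      exact ⟨h2, h3.le⟩
  · refine ⟨μ.map pr, Measure.isProbabilityMeasure_map hmp.aemeasurable, ?_,
      energy_pr hβ hμ3 (L := b + ((n : ℝ) + 1)) ?_⟩
    · rw [Measure.map_apply hmp hE.measurableSet.compl]
      refine measure_mono_null ?_ hμ2
      intro x hx hx'
      apply hx
      simp only [kE, if_true] at hx'
      exact hx'.1
    · filter_upwards [hμae] with x hx
      obtain ⟨_, _, _, h4, _⟩ := Dom.bounds (hn n) hx.2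
      have h5 := hx.2.2.2.2.2.2.2
      simp only at h5 h4
      constructor
      · linarith
      · linarith

/-- The second characterisation, sufficiency. -/
lemma Nice.q2_lower (hX : Nice X P) (hd : 1 ≤ d) {E : Set E2} (hE : IsCompact E)
    (hpos : ∀ x ∈ E, ∀ k, 0 < x k) (h : 0 < Cap (((d : ℝ) - 2) / 2) E) :
    0 < P {ω | ∃ x ∈ E, ∃ t : ℝ, 0 < t ∧ t ≠ x 1 ∧
      ∀ i, X i (x 0) (x 1) ω = X i (x 0) t ω} := by
  have hd' : (1 : ℝ) ≤ d := by exact_mod_cast hd
  have hβ : (0 : ℝ) < (d : ℝ) / 2 := by linarith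
  have hβ' : ((d : ℝ) - 2) / 2 = (d : ℝ) / 2 - 1 := by ring
  rw [cap_pos_iff, hβ'] at h
  obtain ⟨ν, hν1, hν2, hν3⟩ := h
  have hne : E.Nonempty := by
    by_contra hno
    rw [not_nonempty_iff_eq_empty] at hno
    rw [hno, compl_empty, measure_univ] at hν2
    exact one_ne_zero hν2
  -- bounds on `E`
  have c0 : Continuous fun x : E2 => x 0 := by fun_prop
  have c1 : Continuous fun x : E2 => x 1 := by fun_prop
  obtain ⟨u, huE, hu⟩ := hE.exists_isMinOn hne c0.continuousOn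
  obtain ⟨u', huE', hu'⟩ := hE.exists_isMaxOn hne c0.continuousOn
  obtain ⟨w, hwE, hw⟩ := hE.exists_isMaxOn hne c1.continuousOn
  set m : ℝ := u 0 with hm
  have hm0 : 0 < m := hpos u huE 0
  have hmax0 : 0 < u' 0 := hpos u' huE' 0
  have hw0 : 0 < w 1 := hpos w hwE 1
  set b : ℝ := w 1 + 1 with hb
  set R : ℝ := 1 / m + u' 0 + b + 2 with hR
  have hm1 : 0 < 1 / m := by positivity
  have hR1 : 1 ≤ R := by rw [hR, hb]; linarith
  have hRinv : 1 / R ≤ 1 := by
    rw [div_le_one (by linarith)]; exact hR1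
  have hRm : 1 / R ≤ m := by
    rw [div_le_iff₀ (by linarith)]
    have h2 : m * (1 / m) = 1 := by field_simp
    have h3 : 0 ≤ m * (u' 0 + b + 2) := by positivity
    calc (1 : ℝ) ≤ m * (1 / m) + m * (u' 0 + b + 2) := by rw [h2]; linarith
      _ = m * R := by rw [hR]; ring
  set K : Set E3 := {z | pr z ∈ E ∧ b + 1 ≤ z 2 ∧ z 2 ≤ b + 1 + 1} with hK
  have hKD : K ⊆ Dom R b := by
    rintro z ⟨hz, hz1, hz2⟩
    have k1 : m ≤ z 0 := hu hz
    have k2 : z 0 ≤ u' 0 := hu' hz
    have k3 : z 1 ≤ w 1 := hw hz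
    have k4 : 0 < z 1 := hpos _ hz 1
    refine ⟨by linarith, by linarith, k4.le, by linarith, by linarith, by linarith, by linarith⟩
  have hKcl : IsClosed K := by
    have c2 : Continuous fun x : E3 => x 2 := by fun_prop
    exact (hE.isClosed.preimage continuous_pr).inter ((isClosed_le continuous_const c2).inter
      (isClosed_le c2 continuous_const))
  have hKc : IsCompact K := (isCompact_Dom hR1).of_isClosed_subset hKcl hKD
  have hmi : Measurable ins := continuous_ins.measurable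
  set lam : Measure ℝ := volume.restrict (Icc (b + 1) (b + 1 + 1)) with hlam
  have hlamp : IsProbabilityMeasure lam := ⟨by
    rw [hlam, Measure.restrict_apply_univ, Real.volume_Icc]; simp⟩
  have hp : IsProbabilityMeasure ((ν.prod lam).map ins) :=
    Measure.isProbabilityMeasure_map hmi.aemeasurable
  have hμK : (ν.prod lam).map ins Kᶜ = 0 := by
    rw [Measure.map_apply hmi hKc.measurableSet.compl]
    have h3 : ∀ᵐ p ∂(ν.prod lam), p.2 ∈ Icc (b + 1) (b + 1 + 1) := by
      have h4 : ∀ᵐ t ∂lam, t ∈ Icc (b + 1) (b + 1 + 1) := ae_restrict_mem measurableSet_Icc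
      exact Measure.quasiMeasurePreserving_snd.ae h4
    have h5 : ∀ᵐ p ∂(ν.prod lam), p.1 ∈ E := by
      have h4 : ∀ᵐ x ∂ν, x ∈ E := by rw [ae_iff]; exact hν2
      exact Measure.quasiMeasurePreserving_fst.ae h4
    have h6 : ∀ᵐ p ∂(ν.prod lam), ins p ∈ K := by
      filter_upwards [h3, h5] with p hp1 hp2
      refine ⟨by rw [pr_ins]; exact hp2, hp1.1, hp1.2⟩
    exact ae_iff.1 h6
  have hlow := hX.lower hd hR1 hKc hKD (μ := (ν.prod lam).map ins) hμK
    (energy_ins hβ hν3 (b + 1))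
  refine hlow.trans_le (measure_mono ?_)
  rintro ω ⟨z, hz, hz0⟩
  have k3 : z 1 ≤ w 1 := hw hz.1
  have k5 := hz.2.1
  refine ⟨pr z, hz.1, z 2, by linarith, ?_, fun i => ?_⟩
  · rw [pr_one]
    apply ne_of_gt
    linarith
  · have := hz0 i
    unfold W at this
    rw [pr_zero, pr_one]
    linarith

end Q2

/-- The second characterisation for the sheet. -/
theorem sheet_q2 {Ω : Type*} [MeasurableSpace Ω] {P : Measure Ω} {d : ℕ}
    {B : ℝ≥0 → ℝ≥0 → Ω → Fin d → ℝ} (hB : IsBrownianSheet B P) (hd : 1 ≤ d)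
    {E : Set E2} (hE : IsCompact E) (hpos : ∀ x ∈ E, ∀ k, 0 < x k) :
    0 < P {ω | (barD B ω ∩ E).Nonempty} ↔ 0 < Cap (((d : ℝ) - 2) / 2) E := by
  obtain ⟨X, hX, hXB⟩ := exists_nice hB
  have hae : ({ω | (barD B ω ∩ E).Nonempty} : Set Ω) =ᵐ[P]
      {ω | ∃ x ∈ E, ∃ t : ℝ, 0 < t ∧ t ≠ x 1 ∧ ∀ i, X i (x 0) (x 1) ω = X i (x 0) t ω} := by
    filter_upwards [hXB] with ω hω
    apply propext
    show (barD B ω ∩ E).Nonempty ↔
      ∃ x ∈ E, ∃ t : ℝ, 0 < t ∧ t ≠ x 1 ∧ ∀ i, X i (x 0) (x 1) ω = X i (x 0) t ω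
    constructor
    · rintro ⟨x, ⟨h1, t, ht0, ht, h3⟩, hx⟩
      refine ⟨x, hx, t, ht0, ht, fun i => ?_⟩
      rw [hω, hω, h3]
    · rintro ⟨x, hx, t, ht0, ht, h3⟩
      refine ⟨x, ⟨fun k => (hpos x hx k).le, t, ht0, ht, ?_⟩, hx⟩
      funext i
      have h4 := h3 i
      rw [hω, hω] at h4
      exact h4
  rw [measure_congr hae]
  exact ⟨hX.q2_upper hd hE hpos, hX.q2_lower hd hE hpos⟩

end Pool.Agent.Helper97.Sheet
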