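import Mathlib

open MeasureTheory ProbabilityTheory Set
open scoped ENNReal NNReal

namespace Pool.Agent.Helper97.Sheet

variable {T : Type*}

/-- Keep the information of `z` at the indices in the range of `c`, and use the increments of
`z'` for the rest. -/
def merge (c : T → T) (z z' : T → ℝ) : T → ℝ := fun q => z (c q) + z' q - z' (c q)

lemma measurable_merge (c : T → T) :
    Measurable fun p : (T → ℝ) × (T → ℝ) => merge c p.1 p.2 := by
  refine measurable_pi_iff.2 fun q => ?_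
  have h1 : Measurable fun p : (T → ℝ) × (T → ℝ) => p.1 (c q) :=
    (measurable_pi_apply _).comp measurable_fst
  have h2 : Measurable fun p : (T → ℝ) × (T → ℝ) => p.2 q :=
    (measurable_pi_apply _).comp measurable_snd
  have h3 : Measurable fun p : (T → ℝ) × (T → ℝ) => p.2 (c q) :=
    (measurable_pi_apply _).comp measurable_snd
  exact (h1.add h2).sub h3

lemma measurable_merge_right (c : T → T) (z : T → ℝ) : Measurable fun z' => merge c z z' :=
  (measurable_merge c).comp (measurable_const.prodMk measurable_id)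

lemma merge_merge {c c' : T → T} (h : ∀ q, c (c' (c q)) = c' (c q)) (z z' z'' : T → ℝ) :
    merge c (merge c' z z') z'' = merge (c' ∘ c) z (merge c z' z'') := by
  funext q
  simp only [merge, Function.comp_apply, h]
  ring

lemma merge_merge_of_le {c c' : T → T} (h : ∀ q, c' (c q) = c q) (z z' z'' : T → ℝ) :
    merge c (merge c' z z') z'' = merge c z z'' := by
  funext q
  simp only [merge, h]
  ring

variable {γ : Measure (T → ℝ)}

/-- The law `γ` is preserved by merging two independent copies. -/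
def Pres (γ : Measure (T → ℝ)) (c : T → T) : Prop :=
  (γ.prod γ).map (fun p => merge c p.1 p.2) = γ

/-- The conditional expectation operator associated with `c`. -/
noncomputable def ce (γ : Measure (T → ℝ)) (c : T → T) (f : (T → ℝ) → ℝ≥0∞) (z : T → ℝ) : ℝ≥0∞ :=
  ∫⁻ z', f (merge c z z') ∂γ

lemma measurable_ce [SFinite γ] (c : T → T) {f : (T → ℝ) → ℝ≥0∞} (hf : Measurable f) :
    Measurable (ce γ c f) :=
  (hf.comp (measurable_merge c)).lintegral_prod_right'

lemma ce_mono (c : T → T) {f g : (T → ℝ) → ℝ≥0∞} (h : ∀ z, f z ≤ g z) (z : T → ℝ) :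
    ce γ c f z ≤ ce γ c g z := lintegral_mono fun _ => h _

lemma ce_le [IsProbabilityMeasure γ] (c : T → T) {f : (T → ℝ) → ℝ≥0∞} {K : ℝ≥0∞}
    (h : ∀ z, f z ≤ K) (z : T → ℝ) : ce γ c f z ≤ K := by
  calc ce γ c f z ≤ ∫⁻ _, K ∂γ := lintegral_mono fun _ => h _
    _ = K := by simp

lemma lintegral_merge [SFinite γ] {c : T → T} (hc : Pres γ c) {f : (T → ℝ) → ℝ≥0∞}
    (hf : Measurable f) : ∫⁻ z, ∫⁻ z', f (merge c z z') ∂γ ∂γ = ∫⁻ z, f z ∂γ := by
  conv_rhs => rw [← hc]
  rw [lintegral_map hf (measurable_merge c)]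
  exact (lintegral_prod (μ := γ) (ν := γ) (fun p => f (merge c p.1 p.2))
    (hf.comp (measurable_merge c)).aemeasurable).symm

lemma ce_ce [SFinite γ] {c c' : T → T} (hc : Pres γ c) (h : ∀ q, c (c' (c q)) = c' (c q))
    {f : (T → ℝ) → ℝ≥0∞} (hf : Measurable f) (z : T → ℝ) :
    ce γ c' (ce γ c f) z = ce γ (c' ∘ c) f z := by
  unfold ce
  simp_rw [merge_merge h]
  exact lintegral_merge hc (f := fun ζ => f (merge (c' ∘ c) z ζ))
    (hf.comp (measurable_merge_right _ _))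

lemma lintegral_mul_ce [SFinite γ] {c : T → T} (hc : Pres γ c) {f g : (T → ℝ) → ℝ≥0∞}
    (hf : Measurable f) (hg : Measurable g) (hgc : ∀ z z', g (merge c z z') = g z) :
    ∫⁻ z, g z * f z ∂γ = ∫⁻ z, g z * ce γ c f z ∂γ := by
  have hmul : Measurable fun z => g z * f z := hg.mul hf
  rw [← lintegral_merge hc hmul]
  refine lintegral_congr fun z => ?_
  simp only [hgc]
  unfold ce
  have h1 : Measurable fun z' => f (merge c z z') := hf.comp (measurable_merge_right _ _)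
  rw [lintegral_const_mul _ h1]

lemma ce_merge {c c' : T → T} (h : ∀ q, c' (c q) = c q) (f : (T → ℝ) → ℝ≥0∞) (z z' : T → ℝ) :
    ce γ c f (merge c' z z') = ce γ c f z := by
  unfold ce
  simp_rw [merge_merge_of_le h]

/-! ### Doob's inequality -/

section Doob

variable {I : Type*} [LinearOrder I]

/-- The maximal function. -/
noncomputable def mx (γ : Measure (T → ℝ)) (c : I → T → T) (S : Finset I)
    (f : (T → ℝ) → ℝ≥0∞) (z : T → ℝ) : ℝ≥0∞ := S.sup fun i => ce γ (c i) f z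

omit [LinearOrder I] in
lemma le_mx (c : I → T → T) {S : Finset I} {i : I} (hi : i ∈ S)
    (f : (T → ℝ) → ℝ≥0∞) (z : T → ℝ) : ce γ (c i) f z ≤ mx γ c S f z :=
  Finset.le_sup (f := fun i => ce γ (c i) f z) hi

lemma mx_insert (c : I → T → T) (S : Finset I) (b : I) (f : (T → ℝ) → ℝ≥0∞) (z : T → ℝ) :
    mx γ c (insert b S) f z = max (ce γ (c b) f z) (mx γ c S f z) := by
  unfold mx
  rw [Finset.sup_insert]

lemma measurable_mx [SFinite γ] (c : I → T → T) (S : Finset I) {f : (T → ℝ) → ℝ≥0∞}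
    (hf : Measurable f) : Measurable (mx γ c S f) := by
  classical
  induction S using Finset.induction_on with
  | empty =>
    have : mx γ c ∅ f = fun _ => 0 := by funext z; simp [mx]
    rw [this]; exact measurable_const
  | insert b S _ ih =>
    have : mx γ c (insert b S) f = fun z => max (ce γ (c b) f z) (mx γ c S f z) := by
      funext z; exact mx_insert c S b f z
    rw [this]
    exact (measurable_ce _ hf).max ih

omit [LinearOrder I] in
lemma mx_le [IsProbabilityMeasure γ] (c : I → T → T) (S : Finset I) {f : (T → ℝ) → ℝ≥0∞}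
    {K : ℝ≥0∞} (h : ∀ z, f z ≤ K) (z : T → ℝ) : mx γ c S f z ≤ K :=
  Finset.sup_le fun i _ => ce_le (c i) h z

lemma max_ineq (m t : ℝ≥0∞) : (max t m) ^ 2 + 2 * (m * t) ≤ m ^ 2 + 2 * (max t m * t) := by
  rcases le_total t m with h | h
  · rw [max_eq_right h]
  · rw [max_eq_left h]
    obtain rfl | ht := eq_or_ne t ∞
    · simp
    have hm : m ≠ ∞ := ne_top_of_le_ne_top ht h
    lift t to ℝ≥0 using ht
    lift m to ℝ≥0 using hm
    norm_cast
    have h1 : (t ^ 2 + 2 * (m * t) : ℝ) ≤ (m ^ 2 + 2 * (t * t) : ℝ) := by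
      nlinarith [sq_nonneg ((t : ℝ) - m)]
    exact_mod_cast h1

lemma doob_aux [IsProbabilityMeasure γ] {c : I → T → T} (hc : ∀ i, Pres γ (c i))
    (hcc : ∀ i j q, c i (c j q) = c (min i j) q) {f : (T → ℝ) → ℝ≥0∞} (hf : Measurable f)
    {K : ℝ≥0∞} (hK : K ≠ ∞) (hfK : ∀ z, f z ≤ K) (S : Finset I) :
    ∫⁻ z, (mx γ c S f z) ^ 2 ∂γ ≤ 2 * ∫⁻ z, mx γ c S f z * f z ∂γ := by
  classical
  induction S using Finset.induction_on_max with
  | empty => simp [mx]
  | insert b S hb ih =>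
    have hbound : ∀ z, mx γ c S f z * ce γ (c b) f z ≤ K * K := fun z =>
      mul_le_mul' (mx_le c S hfK z) (ce_le (c b) hfK z)
    have hfin : 2 * ∫⁻ z, mx γ c S f z * ce γ (c b) f z ∂γ ≠ ∞ := by
      refine ENNReal.mul_ne_top (by norm_num) (ne_top_of_le_ne_top (ENNReal.mul_ne_top hK hK) ?_)
      calc ∫⁻ z, mx γ c S f z * ce γ (c b) f z ∂γ ≤ ∫⁻ _, K * K ∂γ := lintegral_mono hbound
        _ = K * K := by simp
    have hm1 := measurable_mx (γ := γ) c S hf
    have hm2 := measurable_mx (γ := γ) c (insert b S) hf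
    have hm3 := measurable_ce (γ := γ) (c b) hf
    have hm13 : Measurable fun z => mx γ c S f z * ce γ (c b) f z := hm1.mul hm3
    have hm23 : Measurable fun z => mx γ c (insert b S) f z * ce γ (c b) f z := hm2.mul hm3
    -- invariance
    have hinv1 : ∀ z z', mx γ c S f (merge (c b) z z') = mx γ c S f z := by
      intro z z'
      unfold mx
      refine Finset.sup_congr rfl fun i hi => ce_merge (fun q => ?_) f z z'
      rw [hcc, min_eq_right (hb i hi).le]
    have hinv2 : ∀ z z', mx γ c (insert b S) f (merge (c b) z z') = mx γ c (insert b S) f z := by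
      intro z z'
      rw [mx_insert, mx_insert, hinv1, ce_merge]
      intro q
      rw [hcc, min_self]
    have h1 : ∫⁻ z, mx γ c S f z * f z ∂γ = ∫⁻ z, mx γ c S f z * ce γ (c b) f z ∂γ :=
      lintegral_mul_ce (hc b) hf hm1 hinv1
    have h2 : ∫⁻ z, mx γ c (insert b S) f z * f z ∂γ =
        ∫⁻ z, mx γ c (insert b S) f z * ce γ (c b) f z ∂γ :=
      lintegral_mul_ce (hc b) hf hm2 hinv2
    have h3 : ∫⁻ z, (mx γ c (insert b S) f z) ^ 2 ∂γ +
        2 * ∫⁻ z, mx γ c S f z * ce γ (c b) f z ∂γ ≤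
        ∫⁻ z, (mx γ c S f z) ^ 2 ∂γ + 2 * ∫⁻ z, mx γ c (insert b S) f z * ce γ (c b) f z ∂γ := by
      rw [← lintegral_const_mul _ hm13, ← lintegral_const_mul _ hm23,
        ← lintegral_add_left (hm2.pow_const 2), ← lintegral_add_left (hm1.pow_const 2)]
      refine lintegral_mono fun z => ?_
      rw [mx_insert]
      exact max_ineq _ _
    have h4 : ∫⁻ z, (mx γ c (insert b S) f z) ^ 2 ∂γ +
        2 * ∫⁻ z, mx γ c S f z * ce γ (c b) f z ∂γ ≤
        2 * ∫⁻ z, mx γ c (insert b S) f z * f z ∂γ +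
          2 * ∫⁻ z, mx γ c S f z * ce γ (c b) f z ∂γ := by
      refine h3.trans ?_
      rw [← h2, add_comm, ← h1]
      gcongr
    exact (ENNReal.add_le_add_iff_right hfin).1 h4

/-- **Doob's inequality** in `L²`. -/
lemma doob [IsProbabilityMeasure γ] {c : I → T → T} (hc : ∀ i, Pres γ (c i))
    (hcc : ∀ i j q, c i (c j q) = c (min i j) q) {f : (T → ℝ) → ℝ≥0∞} (hf : Measurable f)
    {K : ℝ≥0∞} (hK : K ≠ ∞) (hfK : ∀ z, f z ≤ K) (S : Finset I) :
    ∫⁻ z, (mx γ c S f z) ^ 2 ∂γ ≤ 4 * ∫⁻ z, (f z) ^ 2 ∂γ := by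
  have h1 := doob_aux hc hcc hf hK hfK S
  have hm1 := measurable_mx (γ := γ) c S hf
  have hfin : ∫⁻ z, (mx γ c S f z) ^ 2 ∂γ ≠ ∞ := by
    refine ne_top_of_le_ne_top (ENNReal.pow_ne_top hK (n := 2)) ?_
    calc ∫⁻ z, (mx γ c S f z) ^ 2 ∂γ ≤ ∫⁻ _, K ^ 2 ∂γ :=
          lintegral_mono fun z => by gcongr; exact mx_le c S hfK z
      _ = K ^ 2 := by simp
  have h2 : ∀ x y : ℝ≥0∞, 2 * (2 * (x * y)) ≤ x ^ 2 + 4 * y ^ 2 := by
    intro x y
    obtain rfl | hx := eq_or_ne x ∞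
    · simp
    obtain rfl | hy := eq_or_ne y ∞
    · simp
    lift x to ℝ≥0 using hx
    lift y to ℝ≥0 using hy
    norm_cast
    have : (2 * (2 * (x * y)) : ℝ) ≤ (x ^ 2 + 4 * y ^ 2 : ℝ) := by
      nlinarith [sq_nonneg ((x : ℝ) - 2 * y)]
    exact_mod_cast this
  have h3 : 2 * (2 * ∫⁻ z, mx γ c S f z * f z ∂γ) ≤
      ∫⁻ z, (mx γ c S f z) ^ 2 ∂γ + 4 * ∫⁻ z, (f z) ^ 2 ∂γ := by
    have hm : Measurable fun z => mx γ c S f z * f z := hm1.mul hf
    rw [← lintegral_const_mul _ hm, ← lintegral_const_mul _ (hm.const_mul 2),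
      ← lintegral_const_mul _ (hf.pow_const 2), ← lintegral_add_left (hm1.pow_const 2)]
    exact lintegral_mono fun z => h2 _ _
  have h4 : 2 * ∫⁻ z, (mx γ c S f z) ^ 2 ∂γ ≤
      ∫⁻ z, (mx γ c S f z) ^ 2 ∂γ + 4 * ∫⁻ z, (f z) ^ 2 ∂γ :=
    (mul_le_mul' le_rfl h1).trans h3
  rw [two_mul] at h4
  exact (ENNReal.add_le_add_iff_left hfin).1 h4

end Doob

/-! ### Cairoli's inequality -/

/-- **Cairoli's inequality** for three commuting families. -/
theorem cairoli [IsProbabilityMeasure γ] {I J K : Type*} [LinearOrder I] [LinearOrder J]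
    [LinearOrder K] {c₁ : I → T → T} {c₂ : J → T → T} {c₃ : K → T → T}
    (h₁ : ∀ i, Pres γ (c₁ i)) (h₂ : ∀ i, Pres γ (c₂ i)) (h₃ : ∀ i, Pres γ (c₃ i))
    (hh₁ : ∀ i j q, c₁ i (c₁ j q) = c₁ (min i j) q)
    (hh₂ : ∀ i j q, c₂ i (c₂ j q) = c₂ (min i j) q)
    (hh₃ : ∀ i j q, c₃ i (c₃ j q) = c₃ (min i j) q)
    (h₁₂ : ∀ i j q, c₁ i (c₂ j q) = c₂ j (c₁ i q))
    (h₁₃ : ∀ i j q, c₁ i (c₃ j q) = c₃ j (c₁ i q))
    (h₂₃ : ∀ i j q, c₂ i (c₃ j q) = c₃ j (c₂ i q))
    {f : (T → ℝ) → ℝ≥0∞} (hf : Measurable f) {Bd : ℝ≥0∞} (hB : Bd ≠ ∞) (hfB : ∀ z, f z ≤ Bd)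
    (S₁ : Finset I) (S₂ : Finset J) (S₃ : Finset K) :
    ∃ M : (T → ℝ) → ℝ≥0∞, Measurable M ∧ ∫⁻ z, (M z) ^ 2 ∂γ ≤ 64 * ∫⁻ z, (f z) ^ 2 ∂γ ∧
      ∀ i ∈ S₁, ∀ j ∈ S₂, ∀ k ∈ S₃, ∀ z, ce γ (c₁ i ∘ (c₂ j ∘ c₃ k)) f z ≤ M z := by
  set M₃ := mx γ c₃ S₃ f with hM₃
  have m₃ : Measurable M₃ := measurable_mx _ _ hf
  have b₃ : ∀ z, M₃ z ≤ Bd := fun z => mx_le _ _ hfB z
  set M₂ := mx γ c₂ S₂ M₃ with hM₂
  have m₂ : Measurable M₂ := measurable_mx _ _ m₃
  have b₂ : ∀ z, M₂ z ≤ Bd := fun z => mx_le _ _ b₃ z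
  set M₁ := mx γ c₁ S₁ M₂ with hM₁
  have m₁ : Measurable M₁ := measurable_mx _ _ m₂
  refine ⟨M₁, m₁, ?_, ?_⟩
  · calc ∫⁻ z, (M₁ z) ^ 2 ∂γ ≤ 4 * ∫⁻ z, (M₂ z) ^ 2 ∂γ := doob h₁ hh₁ m₂ hB b₂ S₁
      _ ≤ 4 * (4 * ∫⁻ z, (M₃ z) ^ 2 ∂γ) := by gcongr; exact doob h₂ hh₂ m₃ hB b₃ S₂
      _ ≤ 4 * (4 * (4 * ∫⁻ z, (f z) ^ 2 ∂γ)) := by gcongr; exact doob h₃ hh₃ hf hB hfB S₃
      _ = 64 * ∫⁻ z, (f z) ^ 2 ∂γ := by ring
  · intro i hi j hj k hk z
    have e1 : ∀ z, ce γ (c₂ j ∘ c₃ k) f z = ce γ (c₂ j) (ce γ (c₃ k) f) z := fun z =>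
      (ce_ce (h₃ k) (fun q => by rw [← h₂₃, hh₃, min_self]) hf z).symm
    have e2 : ce γ (c₁ i ∘ (c₂ j ∘ c₃ k)) f z = ce γ (c₁ i) (ce γ (c₂ j ∘ c₃ k) f) z := by
      have e3 : c₁ i ∘ (c₂ j ∘ c₃ k) = (c₁ i ∘ c₂ j) ∘ c₃ k := rfl
      rw [e3, ← ce_ce (c := c₃ k) (c' := c₁ i ∘ c₂ j) (h₃ k) (fun q => by
        simp only [Function.comp_apply]
        rw [← h₁₃, ← h₂₃, hh₃, min_self]) hf z,
        ← ce_ce (c := c₂ j) (c' := c₁ i) (h₂ j) (fun q => by
        rw [← h₁₂, hh₂, min_self]) (measurable_ce _ hf) z]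
      refine lintegral_congr fun z' => ?_
      exact (e1 _).symm
    rw [e2]
    refine (ce_mono (c₁ i) (g := M₂) (fun z => ?_) z).trans (le_mx c₁ hi M₂ z)
    rw [e1]
    refine (ce_mono (c₂ j) (g := M₃) (fun z => ?_) z).trans (le_mx c₂ hj M₃ z)
    exact le_mx c₃ hk f z

/-! ### Gaussian processes -/

section Gauss

variable {Ω : Type*} [MeasurableSpace Ω] {P : Measure Ω}

lemma IsGaussianProcess.linear {S : Type*} {X : T → Ω → ℝ} (hX : IsGaussianProcess X P)
    (l : S → T →₀ ℝ) : IsGaussianProcess (fun s ω => (l s).sum fun t a => a * X t ω) P := by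
  refine hX.of_isGaussianProcess fun s => ⟨(l s).support, ?_⟩
  refine ⟨LinearMap.toContinuousLinearMap
    { toFun := fun x => ∑ t : (l s).support, l s t.1 * x t
      map_add' := fun x y => by
        simp only [Pi.add_apply, mul_add, Finset.sum_add_distrib]
      map_smul' := fun a x => by
        simp only [Pi.smul_apply, smul_eq_mul, RingHom.id_apply, Finset.mul_sum]
        exact Finset.sum_congr rfl fun t _ => by ring }, fun ω => ?_⟩
  simp only [LinearMap.coe_toContinuousLinearMap', LinearMap.coe_mk, AddHom.coe_mk]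
  rw [Finsupp.sum, ← Finset.sum_coe_sort]
  rfl

/-- Gaussian processes with the martingale type covariance identity are preserved by merging. -/
lemma pres_of_gaussian [IsProbabilityMeasure P] {Z : T → Ω → ℝ} (hZ : IsGaussianProcess Z P)
    (hm : ∀ q, Measurable (Z q)) {c : T → T}
    (h : ∀ q q', cov[Z (c q), Z q'; P] = cov[Z (c q), Z (c q'); P]) :
    Pres (P.map fun ω q => Z q ω) c := by
  classical
  set γ := P.map fun ω q => Z q ω with hγ
  have hmZ : Measurable fun ω q => Z q ω := measurable_pi_iff.2 hm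
  have : IsProbabilityMeasure γ := Measure.isProbabilityMeasure_map hmZ.aemeasurable
  set U : T → Ω → ℝ := fun q => Z (c q) with hU
  set V : T → Ω → ℝ := fun q ω => Z q ω - Z (c q) ω with hV
  have hmU : Measurable fun ω q => U q ω := measurable_pi_iff.2 fun q => hm _
  have hmV : Measurable fun ω q => V q ω := measurable_pi_iff.2 fun q => (hm q).sub (hm (c q))
  have hL2 : ∀ q, MemLp (Z q) 2 P := fun q => (hZ.hasGaussianLaw_eval q).memLp_two
  have hG : IsGaussianProcess (Sum.elim U V) P := by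
    have h1 := IsGaussianProcess.linear (S := T ⊕ T) hZ (fun s => match s with
      | .inl q => Finsupp.single (c q) 1
      | .inr q => Finsupp.single q 1 + Finsupp.single (c q) (-1))
    convert h1 using 2 with s
    funext ω
    cases s with
    | inl q => simp [hU]
    | inr q =>
      simp only [Sum.elim_inr, hV]
      rw [Finsupp.sum_add_index' (by simp) (by intros; ring), Finsupp.sum_single_index (by simp),
        Finsupp.sum_single_index (by simp)]
      ring
  have hind : IndepFun (fun ω q => U q ω) (fun ω q => V q ω) P := by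
    refine hG.indepFun_of_covariance_eq_zero (fun q => (hm _).aemeasurable)
      (fun q => ((hm q).sub (hm (c q))).aemeasurable) fun q q' => ?_
    have h2 : V q' = Z q' - Z (c q') := rfl
    rw [h2, covariance_sub_right (hL2 _) (hL2 _) (hL2 _), h q q', sub_self]
  have hprod : P.map (fun ω => ((fun q => U q ω), (fun q => V q ω))) =
      (P.map fun ω q => U q ω).prod (P.map fun ω q => V q ω) :=
    (indepFun_iff_map_prod_eq_prod_map_map hmU.aemeasurable hmV.aemeasurable).1 hind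
  -- the law of the merged process
  have hcm : Measurable fun z : T → ℝ => fun q => z (c q) :=
    measurable_pi_iff.2 fun q => measurable_pi_apply _
  have hcm' : Measurable fun z : T → ℝ => fun q => z q - z (c q) :=
    measurable_pi_iff.2 fun q => (measurable_pi_apply _).sub (measurable_pi_apply _)
  have h3 : P.map (fun ω q => U q ω) = γ.map fun z q => z (c q) := by
    rw [hγ, Measure.map_map hcm hmZ]; rfl
  have h4 : P.map (fun ω q => V q ω) = γ.map fun z q => z q - z (c q) := by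
    rw [hγ, Measure.map_map hcm' hmZ]; rfl
  have hadd : Measurable fun p : (T → ℝ) × (T → ℝ) => fun q => p.1 q + p.2 q :=
    measurable_pi_iff.2 fun q => ((measurable_pi_apply _).comp measurable_fst).add
      ((measurable_pi_apply _).comp measurable_snd)
  have h5 : (γ.prod γ).map (fun p => merge c p.1 p.2) =
      ((γ.map fun z q => z (c q)).prod (γ.map fun z q => z q - z (c q))).map
        fun p => fun q => p.1 q + p.2 q := by
    rw [Measure.map_prod_map _ _ hcm hcm', Measure.map_map hadd (hcm.prodMap hcm')]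
    congr 1
    funext p q
    simp only [merge, Function.comp_apply, Prod.map_fst, Prod.map_snd]
    ring
  unfold Pres
  rw [h5, ← h3, ← h4, ← hprod, Measure.map_map hadd (hmU.prodMk hmV), hγ]
  congr 1
  funext ω q
  simp [hU, hV]

end Gauss

end Pool.Agent.Helper97.Sheet
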