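import Pool.Agent.Helper97.Sheet.Signs

open MeasureTheory ProbabilityTheory Set
open scoped ENNReal NNReal

namespace Pool.Agent.Helper97.Sheet

variable {Ω : Type*} [MeasurableSpace Ω] {P : Measure Ω} {d : ℕ}

/-- The domain without quantitative bounds. -/
def Dom' (b : ℝ) : Set E3 := {x | 0 < x 0 ∧ 0 ≤ x 1 ∧ x 1 < b ∧ b < x 2}

lemma Dom.toDom' {R b : ℝ} (hR : 1 ≤ R) {x : E3} (hx : x ∈ Dom R b) : x ∈ Dom' b := by
  obtain ⟨h1, h2, h3, h4, _⟩ := Dom.bounds hR hx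
  exact ⟨h1, h2, h3, h4⟩

variable {b : ℝ}

/-- The first index of a point. -/
noncomputable def aX (σ : Bool) (x : E3) (h : x ∈ Dom' b) : IT := ⟨gs σ (x 0), gs_pos σ h.1⟩

/-- The second index of a point. -/
noncomputable def wX (σ : Bool) (x : E3) (h : x ∈ Dom' b) : JT σ b :=
  ⟨gs σ (b - x 1), gs_pos σ (sub_pos.2 h.2.2.1), by rw [gs_gs]; linarith [h.2.1]⟩

/-- The third index of a point. -/
noncomputable def vX (σ : Bool) (x : E3) (h : x ∈ Dom' b) : IT :=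
  ⟨gs σ (x 2 - b), gs_pos σ (sub_pos.2 h.2.2.2)⟩

/-- The coefficient of the first part. -/
noncomputable def al (σ₁ σ₂ : Bool) (b : ℝ) (x : E3) : ℝ := ns σ₁ (x 0) * ns σ₂ (b - x 1)

/-- The coefficient of the second part. -/
noncomputable def be (σ₁ σ₃ : Bool) (b : ℝ) (x : E3) : ℝ := ns σ₁ (x 0) * ns σ₃ (x 2 - b)

/-- The linear functional which represents the difference field. -/
noncomputable def ell (σ₁ σ₂ σ₃ : Bool) (x : E3) (h : x ∈ Dom' b) (i : Fin d)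
    (z : TT d σ₂ b → ℝ) : ℝ :=
  al σ₁ σ₂ b x * z (i, .inl (aX σ₁ x h, wX σ₂ x h)) +
    be σ₁ σ₃ b x * z (i, .inr (aX σ₁ x h, vX σ₃ x h))

lemma measurable_ell (σ₁ σ₂ σ₃ : Bool) (x : E3) (h : x ∈ Dom' b) (i : Fin d) :
    Measurable (ell (d := d) σ₁ σ₂ σ₃ x h i) :=
  ((measurable_pi_apply _).const_mul _).add ((measurable_pi_apply _).const_mul _)

variable {X : Fin d → ℝ → ℝ → Ω → ℝ}

omit [MeasurableSpace Ω] in
lemma ZZ_inl (σ₁ σ₂ σ₃ : Bool) (x : E3) (h : x ∈ Dom' b) (i : Fin d) (ω : Ω) :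
    al σ₁ σ₂ b x * ZZ X σ₁ σ₂ σ₃ b (i, .inl (aX σ₁ x h, wX σ₂ x h)) ω =
      X i (x 0) b ω - X i (x 0) (x 1) ω := by
  simp only [ZZ, aX, wX, al, ns_gs, gs_gs, sub_sub_cancel]
  have h1 := ns_pos σ₁ h.1
  have h2 := ns_pos σ₂ (sub_pos.2 h.2.2.1)
  field_simp

omit [MeasurableSpace Ω] in
lemma ZZ_inr (σ₁ σ₂ σ₃ : Bool) (x : E3) (h : x ∈ Dom' b) (i : Fin d) (ω : Ω) :
    be σ₁ σ₃ b x * ZZ X σ₁ σ₂ σ₃ b (i, .inr (aX σ₁ x h, vX σ₃ x h)) ω =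
      X i (x 0) (x 2) ω - X i (x 0) b ω := by
  simp only [ZZ, aX, vX, be, ns_gs, gs_gs, add_sub_cancel]
  have h1 := ns_pos σ₁ h.1
  have h2 := ns_pos σ₃ (sub_pos.2 h.2.2.2)
  field_simp

omit [MeasurableSpace Ω] in
lemma ell_ZZ (σ₁ σ₂ σ₃ : Bool) (x : E3) (h : x ∈ Dom' b) (i : Fin d) (ω : Ω) :
    ell σ₁ σ₂ σ₃ x h i (fun q => ZZ X σ₁ σ₂ σ₃ b q ω) = W X i x ω := by
  unfold ell W
  rw [ZZ_inl, ZZ_inr]
  ring

/-- The map cutting off at the point `y`. -/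
noncomputable def cutA (σ₁ σ₂ σ₃ : Bool) (y : E3) (h : y ∈ Dom' b) : TT d σ₂ b → TT d σ₂ b :=
  cut1 (aX σ₁ y h) ∘ (cut2 (wX σ₂ y h) ∘ cut3 (vX σ₃ y h))

/-- The order. -/
def prec (σ₁ σ₂ σ₃ : Bool) (b : ℝ) (y x : E3) : Prop :=
  gs σ₁ (y 0) ≤ gs σ₁ (x 0) ∧ gs σ₂ (b - y 1) ≤ gs σ₂ (b - x 1) ∧
    gs σ₃ (y 2 - b) ≤ gs σ₃ (x 2 - b)

lemma cutA_inl {σ₁ σ₂ σ₃ : Bool} {x y : E3} (hx : x ∈ Dom' b) (hy : y ∈ Dom' b)
    (h : prec σ₁ σ₂ σ₃ b y x) (i : Fin d) :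
    cutA (d := d) σ₁ σ₂ σ₃ y hy (i, .inl (aX σ₁ x hx, wX σ₂ x hx)) =
      (i, .inl (aX σ₁ y hy, wX σ₂ y hy)) := by
  have h1 : min (aX σ₁ x hx) (aX σ₁ y hy) = aX σ₁ y hy := min_eq_right h.1
  have h2 : min (wX σ₂ x hx) (wX σ₂ y hy) = wX σ₂ y hy := min_eq_right h.2.1
  simp [cutA, cut1, cut2, cut3, h1, h2]

lemma cutA_inr {σ₁ σ₂ σ₃ : Bool} {x y : E3} (hx : x ∈ Dom' b) (hy : y ∈ Dom' b)
    (h : prec σ₁ σ₂ σ₃ b y x) (i : Fin d) :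
    cutA (d := d) σ₁ σ₂ σ₃ y hy (i, .inr (aX σ₁ x hx, vX σ₃ x hx)) =
      (i, .inr (aX σ₁ y hy, vX σ₃ y hy)) := by
  have h1 : min (aX σ₁ x hx) (aX σ₁ y hy) = aX σ₁ y hy := min_eq_right h.1
  have h2 : min (vX σ₃ x hx) (vX σ₃ y hy) = vX σ₃ y hy := min_eq_right h.2.2
  simp [cutA, cut1, cut2, cut3, h1, h2]

/-- The fresh part. -/
noncomputable def fresh (σ₁ σ₂ σ₃ : Bool) (x : E3) (hx : x ∈ Dom' b) (y : E3) (hy : y ∈ Dom' b)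
    (i : Fin d) (z : TT d σ₂ b → ℝ) : ℝ :=
  al σ₁ σ₂ b x * (z (i, .inl (aX σ₁ x hx, wX σ₂ x hx)) - z (i, .inl (aX σ₁ y hy, wX σ₂ y hy))) +
    be σ₁ σ₃ b x * (z (i, .inr (aX σ₁ x hx, vX σ₃ x hx)) - z (i, .inr (aX σ₁ y hy, vX σ₃ y hy)))

/-- The known part. -/
noncomputable def known (σ₁ σ₂ σ₃ : Bool) (x y : E3) (hy : y ∈ Dom' b)
    (i : Fin d) (z : TT d σ₂ b → ℝ) : ℝ :=
  al σ₁ σ₂ b x * z (i, .inl (aX σ₁ y hy, wX σ₂ y hy)) +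
    be σ₁ σ₃ b x * z (i, .inr (aX σ₁ y hy, vX σ₃ y hy))

lemma ell_merge {σ₁ σ₂ σ₃ : Bool} {x y : E3} (hx : x ∈ Dom' b) (hy : y ∈ Dom' b)
    (h : prec σ₁ σ₂ σ₃ b y x) (i : Fin d) (z z' : TT d σ₂ b → ℝ) :
    ell σ₁ σ₂ σ₃ x hx i (merge (cutA σ₁ σ₂ σ₃ y hy) z z') =
      known σ₁ σ₂ σ₃ x y hy i z + fresh σ₁ σ₂ σ₃ x hx y hy i z' := by
  unfold ell known fresh merge
  rw [cutA_inl hx hy h, cutA_inr hx hy h]
  ring

/-! ### Quantitative bounds -/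

/-- The variance of the fresh part. -/
noncomputable def vfresh (σ₁ σ₂ σ₃ : Bool) (b : ℝ) (x y : E3) : ℝ :=
  al σ₁ σ₂ b x ^ 2 * (gs σ₁ (x 0) * gs σ₂ (b - x 1) - gs σ₁ (y 0) * gs σ₂ (b - y 1)) +
    be σ₁ σ₃ b x ^ 2 * (gs σ₁ (x 0) * gs σ₃ (x 2 - b) - gs σ₁ (y 0) * gs σ₃ (y 2 - b))

lemma prod_diff_ge {R a a' w w' : ℝ} (ha : a' ≤ a) (hw : w' ≤ w) (h1 : 1 / R ≤ w)
    (h2 : 1 / R ≤ a') : 1 / R * ((a - a') + (w - w')) ≤ a * w - a' * w' := by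
  have e : a * w - a' * w' = w * (a - a') + a' * (w - w') := by ring
  rw [e, mul_add]
  exact add_le_add (mul_le_mul_of_nonneg_right h1 (by linarith))
    (mul_le_mul_of_nonneg_right h2 (by linarith))

lemma prod_diff_le {R a a' w w' : ℝ} (ha : a' ≤ a) (hw : w' ≤ w) (h1 : w ≤ R)
    (h2 : a' ≤ R) : a * w - a' * w' ≤ R * ((a - a') + (w - w')) := by
  have e : a * w - a' * w' = w * (a - a') + a' * (w - w') := by ring
  rw [e, mul_add]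
  exact add_le_add (mul_le_mul_of_nonneg_right h1 (by linarith))
    (mul_le_mul_of_nonneg_right h2 (by linarith))

lemma al_bounds (σ₁ σ₂ : Bool) {R : ℝ} (hR : 1 ≤ R) {x : E3} (hx : x ∈ Dom R b) :
    1 / R ^ 2 ≤ al σ₁ σ₂ b x ∧ al σ₁ σ₂ b x ≤ R ^ 2 := by
  obtain ⟨h1, h2, h3, h4, h5, h6, h7⟩ := hx
  have hR0 : 0 < 1 / R := by positivity
  obtain ⟨e1, e2⟩ := ns_mem σ₁ hR h1 h2
  obtain ⟨e3, e4⟩ := ns_mem σ₂ hR h4 h5
  unfold al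
  constructor
  · calc 1 / R ^ 2 = 1 / R * (1 / R) := by ring
      _ ≤ _ := mul_le_mul e1 e3 hR0.le (by linarith)
  · calc ns σ₁ (x 0) * ns σ₂ (b - x 1) ≤ R * R := mul_le_mul e2 e4 (by linarith) (by linarith)
      _ = R ^ 2 := by ring

lemma be_bounds (σ₁ σ₃ : Bool) {R : ℝ} (hR : 1 ≤ R) {x : E3} (hx : x ∈ Dom R b) :
    1 / R ^ 2 ≤ be σ₁ σ₃ b x ∧ be σ₁ σ₃ b x ≤ R ^ 2 := by
  obtain ⟨h1, h2, h3, h4, h5, h6, h7⟩ := hx
  have hR0 : 0 < 1 / R := by positivity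
  obtain ⟨e1, e2⟩ := ns_mem σ₁ hR h1 h2
  obtain ⟨e3, e4⟩ := ns_mem σ₃ hR h6 h7
  unfold be
  constructor
  · calc 1 / R ^ 2 = 1 / R * (1 / R) := by ring
      _ ≤ _ := mul_le_mul e1 e3 hR0.le (by linarith)
  · calc ns σ₁ (x 0) * ns σ₃ (x 2 - b) ≤ R * R := mul_le_mul e2 e4 (by linarith) (by linarith)
      _ = R ^ 2 := by ring

lemma al_sub (σ₁ σ₂ : Bool) {R : ℝ} (hR : 1 ≤ R) {x y : E3} (hx : x ∈ Dom R b)
    (hy : y ∈ Dom R b) : |al σ₁ σ₂ b x - al σ₁ σ₂ b y| ≤ 2 * R * dist x y := by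
  obtain ⟨h1, h2, h3, h4, h5, h6, h7⟩ := hx
  obtain ⟨h1', h2', h3', h4', h5', h6', h7'⟩ := hy
  have hR0 : 0 < 1 / R := by positivity
  obtain ⟨e3, e4⟩ := ns_mem σ₂ hR h4 h5
  obtain ⟨e1, e2⟩ := ns_mem σ₁ hR h1' h2'
  have d0 := abs_le_dist x y 0
  have d1 := abs_le_dist x y 1
  have s0 := ns_sub_le σ₁ (x 0) (y 0)
  have s1 := ns_sub_le σ₂ (b - x 1) (b - y 1)
  have s2 : |b - x 1 - (b - y 1)| = |x 1 - y 1| := by rw [abs_sub_comm]; congr 1; ring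
  rw [s2] at s1
  unfold al
  have e : ns σ₁ (x 0) * ns σ₂ (b - x 1) - ns σ₁ (y 0) * ns σ₂ (b - y 1) =
    (ns σ₁ (x 0) - ns σ₁ (y 0)) * ns σ₂ (b - x 1) +
      ns σ₁ (y 0) * (ns σ₂ (b - x 1) - ns σ₂ (b - y 1)) := by ring
  rw [e]
  refine (abs_add_le _ _).trans ?_
  rw [abs_mul, abs_mul, abs_of_nonneg (show 0 ≤ ns σ₂ (b - x 1) by linarith),
    abs_of_nonneg (show 0 ≤ ns σ₁ (y 0) by linarith)]
  have := dist_nonneg (x := x) (y := y)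
  have t1 : |ns σ₁ (x 0) - ns σ₁ (y 0)| * ns σ₂ (b - x 1) ≤ dist x y * R :=
    mul_le_mul (s0.trans d0) e4 (by linarith) this
  have t2 : ns σ₁ (y 0) * |ns σ₂ (b - x 1) - ns σ₂ (b - y 1)| ≤ R * dist x y :=
    mul_le_mul e2 (s1.trans d1) (abs_nonneg _) (by linarith)
  linarith

lemma be_sub (σ₁ σ₃ : Bool) {R : ℝ} (hR : 1 ≤ R) {x y : E3} (hx : x ∈ Dom R b)
    (hy : y ∈ Dom R b) : |be σ₁ σ₃ b x - be σ₁ σ₃ b y| ≤ 2 * R * dist x y := by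
  obtain ⟨h1, h2, h3, h4, h5, h6, h7⟩ := hx
  obtain ⟨h1', h2', h3', h4', h5', h6', h7'⟩ := hy
  have hR0 : 0 < 1 / R := by positivity
  obtain ⟨e3, e4⟩ := ns_mem σ₃ hR h6 h7
  obtain ⟨e1, e2⟩ := ns_mem σ₁ hR h1' h2'
  have d0 := abs_le_dist x y 0
  have d1 := abs_le_dist x y 2
  have s0 := ns_sub_le σ₁ (x 0) (y 0)
  have s1 := ns_sub_le σ₃ (x 2 - b) (y 2 - b)
  have s2 : |x 2 - b - (y 2 - b)| = |x 2 - y 2| := by congr 1; ring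
  rw [s2] at s1
  unfold be
  have e : ns σ₁ (x 0) * ns σ₃ (x 2 - b) - ns σ₁ (y 0) * ns σ₃ (y 2 - b) =
    (ns σ₁ (x 0) - ns σ₁ (y 0)) * ns σ₃ (x 2 - b) +
      ns σ₁ (y 0) * (ns σ₃ (x 2 - b) - ns σ₃ (y 2 - b)) := by ring
  rw [e]
  refine (abs_add_le _ _).trans ?_
  rw [abs_mul, abs_mul, abs_of_nonneg (show 0 ≤ ns σ₃ (x 2 - b) by linarith),
    abs_of_nonneg (show 0 ≤ ns σ₁ (y 0) by linarith)]
  have := dist_nonneg (x := x) (y := y)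
  have t1 : |ns σ₁ (x 0) - ns σ₁ (y 0)| * ns σ₃ (x 2 - b) ≤ dist x y * R :=
    mul_le_mul (s0.trans d0) e4 (by linarith) this
  have t2 : ns σ₁ (y 0) * |ns σ₃ (x 2 - b) - ns σ₃ (y 2 - b)| ≤ R * dist x y :=
    mul_le_mul e2 (s1.trans d1) (abs_nonneg _) (by linarith)
  linarith

lemma vfresh_bounds (σ₁ σ₂ σ₃ : Bool) {R : ℝ} (hR : 1 ≤ R) {x y : E3} (hx : x ∈ Dom R b)
    (hy : y ∈ Dom R b) (h : prec σ₁ σ₂ σ₃ b y x) :
    dist x y / R ^ 7 ≤ vfresh σ₁ σ₂ σ₃ b x y ∧ vfresh σ₁ σ₂ σ₃ b x y ≤ 4 * R ^ 7 * dist x y := by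
  have hR0 : 0 < R := by linarith
  obtain ⟨a1, a2⟩ := al_bounds σ₁ σ₂ hR hx
  obtain ⟨b1, b2⟩ := be_bounds σ₁ σ₃ hR hx
  obtain ⟨h1, h2, h3, h4, h5, h6, h7⟩ := hx
  obtain ⟨h1', h2', h3', h4', h5', h6', h7'⟩ := hy
  obtain ⟨p1, p2, p3⟩ := h
  obtain ⟨u1, u2⟩ := gs_mem σ₁ hR h1 h2
  obtain ⟨u1', u2'⟩ := gs_mem σ₁ hR h1' h2'
  obtain ⟨v1, v2⟩ := gs_mem σ₂ hR h4 h5
  obtain ⟨v1', v2'⟩ := gs_mem σ₂ hR h4' h5'
  obtain ⟨w1, w2⟩ := gs_mem σ₃ hR h6 h7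
  obtain ⟨w1', w2'⟩ := gs_mem σ₃ hR h6' h7'
  have g0 := gs_sub_ge σ₁ hR h1 h2 h1' h2'
  have g1 := gs_sub_ge σ₂ hR h4 h5 h4' h5'
  have g2 := gs_sub_ge σ₃ hR h6 h7 h6' h7'
  have l0 := gs_sub_le σ₁ hR h1 h1'
  have l1 := gs_sub_le σ₂ hR h4 h4'
  have l2 := gs_sub_le σ₃ hR h6 h6'
  have s2 : |b - x 1 - (b - y 1)| = |x 1 - y 1| := by rw [abs_sub_comm]; congr 1; ring
  have s3 : |x 2 - b - (y 2 - b)| = |x 2 - y 2| := by congr 1; ring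
  rw [s2] at g1 l1
  rw [s3] at g2 l2
  rw [abs_of_nonneg (show 0 ≤ gs σ₁ (x 0) - gs σ₁ (y 0) by linarith)] at g0 l0
  rw [abs_of_nonneg (show 0 ≤ gs σ₂ (b - x 1) - gs σ₂ (b - y 1) by linarith)] at g1 l1
  rw [abs_of_nonneg (show 0 ≤ gs σ₃ (x 2 - b) - gs σ₃ (y 2 - b) by linarith)] at g2 l2
  have d0 := abs_le_dist x y 0
  have d1 := abs_le_dist x y 1
  have d2 := abs_le_dist x y 2
  have hd := dist_le_sum x y
  have q1 := prod_diff_ge (R := R) p1 p2 v1 u1'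
  have q2 := prod_diff_ge (R := R) p1 p3 w1 u1'
  have r1 := prod_diff_le (R := R) p1 p2 v2 u2'
  have r2 := prod_diff_le (R := R) p1 p3 w2 u2'
  have hA1 : 1 / R ^ 4 ≤ al σ₁ σ₂ b x ^ 2 := by
    calc 1 / R ^ 4 = (1 / R ^ 2) ^ 2 := by ring
      _ ≤ _ := pow_le_pow_left₀ (by positivity) a1 2
  have hA2 : al σ₁ σ₂ b x ^ 2 ≤ R ^ 4 := by
    calc al σ₁ σ₂ b x ^ 2 ≤ (R ^ 2) ^ 2 :=
          pow_le_pow_left₀ (le_trans (by positivity) a1) a2 2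
      _ = R ^ 4 := by ring
  have hB1 : 1 / R ^ 4 ≤ be σ₁ σ₃ b x ^ 2 := by
    calc 1 / R ^ 4 = (1 / R ^ 2) ^ 2 := by ring
      _ ≤ _ := pow_le_pow_left₀ (by positivity) b1 2
  have hB2 : be σ₁ σ₃ b x ^ 2 ≤ R ^ 4 := by
    calc be σ₁ σ₃ b x ^ 2 ≤ (R ^ 2) ^ 2 :=
          pow_le_pow_left₀ (le_trans (by positivity) b1) b2 2
      _ = R ^ 4 := by ring
  set Da := gs σ₁ (x 0) - gs σ₁ (y 0) with hDa
  set Dw := gs σ₂ (b - x 1) - gs σ₂ (b - y 1) with hDw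
  set Dv := gs σ₃ (x 2 - b) - gs σ₃ (y 2 - b) with hDv
  have hDa0 : 0 ≤ Da := by simp only [hDa]; linarith
  have hDw0 : 0 ≤ Dw := by simp only [hDw]; linarith
  have hDv0 : 0 ≤ Dv := by simp only [hDv]; linarith
  have hR1 : 0 ≤ 1 / R := by positivity
  unfold vfresh
  constructor
  · calc dist x y / R ^ 7 ≤ (|x 0 - y 0| + |x 1 - y 1| + |x 2 - y 2|) / R ^ 7 := by gcongr
      _ = 1 / R ^ 4 * (1 / R * (|x 0 - y 0| / R ^ 2 + |x 1 - y 1| / R ^ 2)) +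
          1 / R ^ 4 * (1 / R * (0 + |x 2 - y 2| / R ^ 2)) := by field_simp; ring
      _ ≤ 1 / R ^ 4 * (1 / R * (Da + Dw)) + 1 / R ^ 4 * (1 / R * (Da + Dv)) := by gcongr
      _ ≤ _ := by
        refine add_le_add ?_ ?_
        · exact mul_le_mul hA1 q1 (by positivity) (by positivity)
        · exact mul_le_mul hB1 q2 (by positivity) (by positivity)
  · calc _ ≤ R ^ 4 * (R * (Da + Dw)) + R ^ 4 * (R * (Da + Dv)) := by
          refine add_le_add ?_ ?_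
          · exact mul_le_mul hA2 r1 (le_trans (by positivity) q1) (by positivity)
          · exact mul_le_mul hB2 r2 (le_trans (by positivity) q2) (by positivity)
      _ ≤ R ^ 4 * (R * (R ^ 2 * dist x y + R ^ 2 * dist x y)) +
          R ^ 4 * (R * (R ^ 2 * dist x y + R ^ 2 * dist x y)) := by
          have m0 : Da ≤ R ^ 2 * dist x y := l0.trans (by gcongr)
          have m1 : Dw ≤ R ^ 2 * dist x y := l1.trans (by gcongr)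
          have m2 : Dv ≤ R ^ 2 * dist x y := l2.trans (by gcongr)
          gcongr
      _ = 4 * R ^ 7 * dist x y := by ring

lemma dist_le_sqrt (σ₁ σ₂ σ₃ : Bool) {R : ℝ} (hR : 1 ≤ R) {x y : E3} (hx : x ∈ Dom R b)
    (hy : y ∈ Dom R b) (h : prec σ₁ σ₂ σ₃ b y x) :
    dist x y ≤ 2 * R ^ 4 * √(vfresh σ₁ σ₂ σ₃ b x y) := by
  have hR0 : 0 < R := by linarith
  have hv := (vfresh_bounds σ₁ σ₂ σ₃ hR hx hy h).1
  have hd : dist x y ≤ 3 * R := by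
    obtain ⟨h1, h2, h3, h4, h5, h6, h7⟩ := hx
    obtain ⟨h1', h2', h3', h4', h5', h6', h7'⟩ := hy
    have hR1 : 0 < 1 / R := by positivity
    have e0 : |x 0 - y 0| ≤ R := by rw [abs_le]; constructor <;> linarith
    have e1 : |x 1 - y 1| ≤ R := by rw [abs_le]; constructor <;> linarith
    have e2 : |x 2 - y 2| ≤ R := by rw [abs_le]; constructor <;> linarith
    have := dist_le_sum x y
    linarith
  have hd0 := dist_nonneg (x := x) (y := y)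
  have h1 : dist x y ^ 2 ≤ (2 * R ^ 4) ^ 2 * vfresh σ₁ σ₂ σ₃ b x y := by
    have h2 : dist x y ≤ R ^ 7 * vfresh σ₁ σ₂ σ₃ b x y := by
      rw [div_le_iff₀ (by positivity)] at hv
      linarith
    have hv0 : 0 ≤ vfresh σ₁ σ₂ σ₃ b x y := le_trans (by positivity) hv
    calc dist x y ^ 2 = dist x y * dist x y := by ring
      _ ≤ 3 * R * (R ^ 7 * vfresh σ₁ σ₂ σ₃ b x y) := mul_le_mul hd h2 hd0 (by positivity)
      _ = 3 * R ^ 8 * vfresh σ₁ σ₂ σ₃ b x y := by ring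
      _ ≤ 4 * R ^ 8 * vfresh σ₁ σ₂ σ₃ b x y := by gcongr; norm_num
      _ = (2 * R ^ 4) ^ 2 * vfresh σ₁ σ₂ σ₃ b x y := by ring
  have h3 := Real.sqrt_le_sqrt h1
  rw [Real.sqrt_sq hd0, Real.sqrt_mul (by positivity), Real.sqrt_sq (by positivity)] at h3
  exact h3

/-- The constant in the conditional estimate. -/
noncomputable def cL (R M : ℝ) : ℝ := cG (8 * R ^ 7 * M) / √(4 * R ^ 7)

lemma cL_pos {R : ℝ} (hR : 1 ≤ R) (M : ℝ) : 0 < cL R M := by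
  unfold cL
  have : 0 < R := by linarith
  have := cG_pos (8 * R ^ 7 * M)
  positivity

lemma cL_le (σ₁ σ₂ σ₃ : Bool) {R M : ℝ} (hR : 1 ≤ R) {x y : E3} (hx : x ∈ Dom R b)
    (hy : y ∈ Dom R b) (h : prec σ₁ σ₂ σ₃ b y x) {ε : ℝ} (hε : 0 < ε) :
    cL R M * ε * κ₁ ε (dist x y) ≤
      cG (8 * R ^ 7 * M) * (ε / max ε √(vfresh σ₁ σ₂ σ₃ b x y)) := by
  have hR0 : 0 < R := by linarith
  have hv := (vfresh_bounds σ₁ σ₂ σ₃ hR hx hy h).2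
  set Q := √(4 * R ^ 7) with hQ
  have hQ1 : 1 ≤ Q := by
    rw [hQ, Real.one_le_sqrt]
    have : 1 ≤ R ^ 7 := one_le_pow₀ hR
    linarith
  have h1 : √(vfresh σ₁ σ₂ σ₃ b x y) ≤ Q * √(dist x y) := by
    rw [hQ, ← Real.sqrt_mul (by positivity)]
    exact Real.sqrt_le_sqrt hv
  have hm : 0 < max ε √(dist x y) := lt_max_of_lt_left hε
  have hm' : 0 < max ε √(vfresh σ₁ σ₂ σ₃ b x y) := lt_max_of_lt_left hε
  have h2 : max ε √(vfresh σ₁ σ₂ σ₃ b x y) ≤ Q * max ε √(dist x y) := by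
    refine max_le ?_ ?_
    · calc ε = 1 * ε := by ring
        _ ≤ Q * max ε √(dist x y) := mul_le_mul hQ1 (le_max_left _ _) hε.le (by linarith)
    · exact h1.trans (mul_le_mul_of_nonneg_left (le_max_right _ _) (by linarith))
  have hc := cG_pos (8 * R ^ 7 * M)
  calc cL R M * ε * κ₁ ε (dist x y) = cG (8 * R ^ 7 * M) * (ε / (Q * max ε √(dist x y))) := by
        unfold cL κ₁
        rw [← hQ]
        field_simp
    _ ≤ _ := by gcongr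

namespace Nice

lemma var_fresh (hX : Nice X P) (σ₁ σ₂ σ₃ : Bool) (hb : 0 ≤ b) {x y : E3} (hx : x ∈ Dom' b)
    (hy : y ∈ Dom' b) (h : prec σ₁ σ₂ σ₃ b y x) (i : Fin d) :
    Var[fun ω => fresh σ₁ σ₂ σ₃ x hx y hy i fun q => ZZ X σ₁ σ₂ σ₃ b q ω; P] =
      vfresh σ₁ σ₂ σ₃ b x y := by
  have := hX.isProb
  set Z := ZZ X σ₁ σ₂ σ₃ b with hZ
  have hL : ∀ q, MemLp (Z q) 2 P := fun q => ((hX.gauss_ZZ σ₁ σ₂ σ₃ b).hasGaussianLaw_eval q).memLp_two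
  have hm : ∀ q, Measurable (Z q) := fun q => hX.measurable_ZZ σ₁ σ₂ σ₃ b q
  set q1 : TT d σ₂ b := (i, .inl (aX σ₁ x hx, wX σ₂ x hx)) with hq1
  set q2 : TT d σ₂ b := (i, .inl (aX σ₁ y hy, wX σ₂ y hy)) with hq2
  set q3 : TT d σ₂ b := (i, .inr (aX σ₁ x hx, vX σ₃ x hx)) with hq3
  set q4 : TT d σ₂ b := (i, .inr (aX σ₁ y hy, vX σ₃ y hy)) with hq4
  set U : Ω → ℝ := Z q1 - Z q2 with hU
  set V : Ω → ℝ := Z q3 - Z q4 with hV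
  have hUL : MemLp U 2 P := (hL q1).sub (hL q2)
  have hVL : MemLp V 2 P := (hL q3).sub (hL q4)
  have e : (fun ω => fresh σ₁ σ₂ σ₃ x hx y hy i fun q => Z q ω) =
      (fun ω => al σ₁ σ₂ b x * U ω) + fun ω => be σ₁ σ₃ b x * V ω := by
    funext ω; rfl
  have hUm : Measurable U := (hm _).sub (hm _)
  have hVm : Measurable V := (hm _).sub (hm _)
  have haU : MemLp (fun ω => al σ₁ σ₂ b x * U ω) 2 P := hUL.const_mul _
  have hbV : MemLp (fun ω => be σ₁ σ₃ b x * V ω) 2 P := hVL.const_mul _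
  have m1 : min (gs σ₁ (x 0)) (gs σ₁ (y 0)) = gs σ₁ (y 0) := min_eq_right h.1
  have m1' : min (gs σ₁ (y 0)) (gs σ₁ (x 0)) = gs σ₁ (y 0) := min_eq_left h.1
  have m2 : min (gs σ₂ (b - x 1)) (gs σ₂ (b - y 1)) = gs σ₂ (b - y 1) := min_eq_right h.2.1
  have m2' : min (gs σ₂ (b - y 1)) (gs σ₂ (b - x 1)) = gs σ₂ (b - y 1) := min_eq_left h.2.1
  have m3 : min (gs σ₃ (x 2 - b)) (gs σ₃ (y 2 - b)) = gs σ₃ (y 2 - b) := min_eq_right h.2.2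
  have m3' : min (gs σ₃ (y 2 - b)) (gs σ₃ (x 2 - b)) = gs σ₃ (y 2 - b) := min_eq_left h.2.2
  have cUU : cov[U, U; P] = gs σ₁ (x 0) * gs σ₂ (b - x 1) - gs σ₁ (y 0) * gs σ₂ (b - y 1) := by
    rw [hU, covariance_sub_sub (hL _) (hL _) (hL _) (hL _), hX.cov_ZZ _ _ _ hb,
      hX.cov_ZZ _ _ _ hb, hX.cov_ZZ _ _ _ hb, hX.cov_ZZ _ _ _ hb]
    simp only [hq1, hq2, kT, aX, wX, if_true, min_self, m1, m1', m2, m2']
    ring
  have cVV : cov[V, V; P] = gs σ₁ (x 0) * gs σ₃ (x 2 - b) - gs σ₁ (y 0) * gs σ₃ (y 2 - b) := by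
    rw [hV, covariance_sub_sub (hL _) (hL _) (hL _) (hL _), hX.cov_ZZ _ _ _ hb,
      hX.cov_ZZ _ _ _ hb, hX.cov_ZZ _ _ _ hb, hX.cov_ZZ _ _ _ hb]
    simp only [hq3, hq4, kT, aX, vX, if_true, min_self, m1, m1', m3, m3']
    ring
  have cUV : cov[U, V; P] = 0 := by
    rw [hU, hV, covariance_sub_sub (hL _) (hL _) (hL _) (hL _), hX.cov_ZZ _ _ _ hb,
      hX.cov_ZZ _ _ _ hb, hX.cov_ZZ _ _ _ hb, hX.cov_ZZ _ _ _ hb]
    simp only [hq1, hq2, hq3, hq4, kT]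
    ring
  rw [e, ← covariance_self ((hUm.const_mul _).add (hVm.const_mul _)).aemeasurable,
    covariance_add_left haU hbV (haU.add hbV), covariance_add_right haU haU hbV,
    covariance_add_right hbV haU hbV]
  simp only [covariance_const_mul_left, covariance_const_mul_right]
  rw [covariance_comm V U, cUU, cVV, cUV]
  unfold vfresh
  ring

lemma gauss_fresh (hX : Nice X P) (σ₁ σ₂ σ₃ : Bool) {x y : E3} (hx : x ∈ Dom' b)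
    (hy : y ∈ Dom' b) :
    IsGaussianProcess (fun (i : Fin d) ω =>
      fresh σ₁ σ₂ σ₃ x hx y hy i fun q => ZZ X σ₁ σ₂ σ₃ b q ω) P := by
  have h := IsGaussianProcess.linear (hX.gauss_ZZ σ₁ σ₂ σ₃ b) (S := Fin d) (fun i =>
    (Finsupp.single (i, .inl (aX σ₁ x hx, wX σ₂ x hx)) (al σ₁ σ₂ b x) +
      Finsupp.single (i, .inl (aX σ₁ y hy, wX σ₂ y hy)) (-al σ₁ σ₂ b x)) +
    (Finsupp.single (i, .inr (aX σ₁ x hx, vX σ₃ x hx)) (be σ₁ σ₃ b x) +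
      Finsupp.single (i, .inr (aX σ₁ y hy, vX σ₃ y hy)) (-be σ₁ σ₃ b x)))
  convert h using 2 with i
  funext ω
  rw [Finsupp.sum_add_index' (by simp) (by intros; ring),
    Finsupp.sum_add_index' (by simp) (by intros; ring),
    Finsupp.sum_add_index' (by simp) (by intros; ring), Finsupp.sum_single_index (by simp),
    Finsupp.sum_single_index (by simp), Finsupp.sum_single_index (by simp),
    Finsupp.sum_single_index (by simp)]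
  unfold fresh
  ring

lemma measurable_fresh (hX : Nice X P) (σ₁ σ₂ σ₃ : Bool) {x y : E3} (hx : x ∈ Dom' b)
    (hy : y ∈ Dom' b) (i : Fin d) :
    Measurable fun ω => fresh σ₁ σ₂ σ₃ x hx y hy i fun q => ZZ X σ₁ σ₂ σ₃ b q ω := by
  unfold fresh
  have hm : ∀ q, Measurable (ZZ X σ₁ σ₂ σ₃ b q) := fun q => hX.measurable_ZZ σ₁ σ₂ σ₃ b q
  exact (((hm _).sub (hm _)).const_mul _).add (((hm _).sub (hm _)).const_mul _)

lemma mean_fresh (hX : Nice X P) (σ₁ σ₂ σ₃ : Bool) {x y : E3} (hx : x ∈ Dom' b)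
    (hy : y ∈ Dom' b) (i : Fin d) :
    P[fun ω => fresh σ₁ σ₂ σ₃ x hx y hy i fun q => ZZ X σ₁ σ₂ σ₃ b q ω] = 0 := by
  have := hX.isProb
  have hint : ∀ q, Integrable (ZZ X σ₁ σ₂ σ₃ b q) P := fun q =>
    ((hX.gauss_ZZ σ₁ σ₂ σ₃ b).hasGaussianLaw_eval q).integrable
  have hc : ∀ (c : ℝ) (q q' : TT d σ₂ b), Integrable (fun ω => c * (ZZ X σ₁ σ₂ σ₃ b q ω -
      ZZ X σ₁ σ₂ σ₃ b q' ω)) P := fun c q q' => ((hint q).sub (hint q')).const_mul c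
  have hi : ∀ (c : ℝ) (q q' : TT d σ₂ b), ∫ ω, c * (ZZ X σ₁ σ₂ σ₃ b q ω -
      ZZ X σ₁ σ₂ σ₃ b q' ω) ∂P = 0 := by
    intro c q q'
    rw [integral_const_mul, integral_sub (hint _) (hint _), hX.mean_ZZ, hX.mean_ZZ]
    ring
  have h := integral_add (hc (al σ₁ σ₂ b x) (i, .inl (aX σ₁ x hx, wX σ₂ x hx))
    (i, .inl (aX σ₁ y hy, wX σ₂ y hy))) (hc (be σ₁ σ₃ b x) (i, .inr (aX σ₁ x hx, vX σ₃ x hx))
    (i, .inr (aX σ₁ y hy, vX σ₃ y hy)))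
  rw [hi, hi, add_zero] at h
  exact h

lemma indep_fresh (hX : Nice X P) (σ₁ σ₂ σ₃ : Bool) (hb : 0 ≤ b) {x y : E3} (hx : x ∈ Dom' b)
    (hy : y ∈ Dom' b) :
    iIndepFun (fun (i : Fin d) ω (_ : Unit) =>
      fresh σ₁ σ₂ σ₃ x hx y hy i fun q => ZZ X σ₁ σ₂ σ₃ b q ω) P := by
  have := hX.isProb
  refine IsGaussianProcess.iIndepFun_of_covariance_eq_zero (T := Fin d) (S := fun _ => Unit)
    (X := fun i _ ω => fresh σ₁ σ₂ σ₃ x hx y hy i fun q => ZZ X σ₁ σ₂ σ₃ b q ω) ?_ ?_ ?_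
  · exact (hX.gauss_fresh σ₁ σ₂ σ₃ hx hy).comp_right (fun q : (_ : Fin d) × Unit => q.1)
  · exact fun i _ => (hX.measurable_fresh σ₁ σ₂ σ₃ hx hy i).aemeasurable
  · intro i j hij _ _
    set Z := ZZ X σ₁ σ₂ σ₃ b with hZ
    have hL : ∀ q, MemLp (Z q) 2 P := fun q =>
      ((hX.gauss_ZZ σ₁ σ₂ σ₃ b).hasGaussianLaw_eval q).memLp_two
    have e : ∀ k : Fin d, (fun ω => fresh σ₁ σ₂ σ₃ x hx y hy k fun q => Z q ω) =
        (fun ω => al σ₁ σ₂ b x * (Z (k, .inl (aX σ₁ x hx, wX σ₂ x hx)) -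
          Z (k, .inl (aX σ₁ y hy, wX σ₂ y hy))) ω) +
        fun ω => be σ₁ σ₃ b x * (Z (k, .inr (aX σ₁ x hx, vX σ₃ x hx)) -
          Z (k, .inr (aX σ₁ y hy, vX σ₃ y hy))) ω := by
      intro k; funext ω; rfl
    rw [e i, e j]
    have hUL : ∀ q q' (c : ℝ), MemLp (fun ω => c * (Z q - Z q') ω) 2 P := fun q q' c =>
      ((hL q).sub (hL q')).const_mul _
    rw [covariance_add_left (hUL _ _ _) (hUL _ _ _) ((hUL _ _ _).add (hUL _ _ _)),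
      covariance_add_right (hUL _ _ _) (hUL _ _ _) (hUL _ _ _),
      covariance_add_right (hUL _ _ _) (hUL _ _ _) (hUL _ _ _)]
    simp only [covariance_const_mul_left, covariance_const_mul_right]
    rw [covariance_sub_sub (hL _) (hL _) (hL _) (hL _),
      covariance_sub_sub (hL _) (hL _) (hL _) (hL _),
      covariance_sub_sub (hL _) (hL _) (hL _) (hL _),
      covariance_sub_sub (hL _) (hL _) (hL _) (hL _)]
    simp only [hZ, hX.cov_ZZ _ _ _ hb, kT, if_neg hij]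
    ring

/-- The conditional lower bound. -/
lemma fresh_ge (hX : Nice X P) (σ₁ σ₂ σ₃ : Bool) (hb : 0 ≤ b) {R M : ℝ} (hR : 1 ≤ R) (hM : 0 ≤ M)
    {x y : E3} (hx : x ∈ Dom R b) (hy : y ∈ Dom R b) (h : prec σ₁ σ₂ σ₃ b y x) {ε : ℝ}
    (hε : 0 < ε) {m : Fin d → ℝ}
    (hm : ∀ i, |m i| ≤ ε + 8 * R ^ 7 * M * √(vfresh σ₁ σ₂ σ₃ b x y)) :
    ENNReal.ofReal ((cL R M * ε * κ₁ ε (dist x y)) ^ d) ≤
      P {ω | ∀ i, |m i + fresh σ₁ σ₂ σ₃ x (Dom.toDom' hR hx) y (Dom.toDom' hR hy) i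
        fun q => ZZ X σ₁ σ₂ σ₃ b q ω| ≤ ε} := by
  have := hX.isProb
  have hR0 : 0 < R := by linarith
  have hx' := Dom.toDom' hR hx
  have hy' := Dom.toDom' hR hy
  have hind := hX.indep_fresh σ₁ σ₂ σ₃ hb hx' hy'
  have hset : ∀ i, MeasurableSet {f : Unit → ℝ | |m i + f ()| ≤ ε} := by
    intro i
    have e1 : Measurable fun f : Unit → ℝ => |m i + f ()| := by fun_prop
    exact measurableSet_le e1 measurable_const
  have h1 := measure_forall_eq_prod hind (S := fun i => {f : Unit → ℝ | |m i + f ()| ≤ ε}) hset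
  have hv0 : 0 ≤ vfresh σ₁ σ₂ σ₃ b x y :=
    le_trans (by positivity) (vfresh_bounds σ₁ σ₂ σ₃ hR hx hy h).1
  have h2 : {ω | ∀ i, |m i + fresh σ₁ σ₂ σ₃ x hx' y hy' i fun q => ZZ X σ₁ σ₂ σ₃ b q ω| ≤ ε} =
      {ω | ∀ i, (fun _ : Unit => fresh σ₁ σ₂ σ₃ x hx' y hy' i fun q => ZZ X σ₁ σ₂ σ₃ b q ω) ∈
        {f : Unit → ℝ | |m i + f ()| ≤ ε}} := rfl
  have hκ := κ₁_pos hε (dist x y)
  have hcL := cL_pos hR M
  rw [h2, h1, ENNReal.ofReal_pow (by positivity)]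
  calc ENNReal.ofReal (cL R M * ε * κ₁ ε (dist x y)) ^ d
      = ∏ _i : Fin d, ENNReal.ofReal (cL R M * ε * κ₁ ε (dist x y)) := by
        rw [Finset.prod_const, Finset.card_univ, Fintype.card_fin]
    _ ≤ _ := by
        refine Finset.prod_le_prod' fun i _ => ?_
        set Y : Ω → ℝ := fun ω => fresh σ₁ σ₂ σ₃ x hx' y hy' i fun q => ZZ X σ₁ σ₂ σ₃ b q ω with hY
        have hYm : Measurable Y := hX.measurable_fresh σ₁ σ₂ σ₃ hx' hy' i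
        have hlaw := map_gaussian ((hX.gauss_fresh σ₁ σ₂ σ₃ hx' hy').hasGaussianLaw_eval i)
          (hX.mean_fresh σ₁ σ₂ σ₃ hx' hy' i)
        rw [hX.var_fresh σ₁ σ₂ σ₃ hb hx' hy' h i] at hlaw
        have h3 : {ω | (fun _ : Unit => fresh σ₁ σ₂ σ₃ x hx' y hy' i
            fun q => ZZ X σ₁ σ₂ σ₃ b q ω) ∈ {f : Unit → ℝ | |m i + f ()| ≤ ε}} =
            Y ⁻¹' {t | |m i + t| ≤ ε} := rfl
        have hs : MeasurableSet {t : ℝ | |m i + t| ≤ ε} := measurableSet_le (by fun_prop)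
          measurable_const
        rw [h3, ← Measure.map_apply hYm hs, hlaw]
        have hsq : √((vfresh σ₁ σ₂ σ₃ b x y).toNNReal : ℝ) = √(vfresh σ₁ σ₂ σ₃ b x y) := by
          rw [Real.coe_toNNReal _ hv0]
        refine le_trans (ENNReal.ofReal_le_ofReal (cL_le σ₁ σ₂ σ₃ (M := M) hR hx hy h hε)) ?_
        have h4 := gaussian_ge (v := (vfresh σ₁ σ₂ σ₃ b x y).toNNReal) (m := m i) (ε := ε)
          (K := 8 * R ^ 7 * M) hε (by positivity) (by rw [hsq]; exact hm i)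
        rw [hsq] at h4
        exact h4

end Nice

omit [MeasurableSpace Ω] in
/-- The bound for the known part. -/
lemma known_le (σ₁ σ₂ σ₃ : Bool) {R M : ℝ} (hR : 1 ≤ R) (hM : 0 ≤ M)
    {x y : E3} (hx : x ∈ Dom R b) (hy : y ∈ Dom R b) (h : prec σ₁ σ₂ σ₃ b y x) {ε : ℝ}
    (i : Fin d) (ω : Ω) (h1 : |W X i y ω| ≤ ε) (h2 : |X i (y 0) b ω - X i (y 0) (y 1) ω| ≤ M)
    (h3 : |X i (y 0) (y 2) ω - X i (y 0) b ω| ≤ M) :
    |known σ₁ σ₂ σ₃ x y (Dom.toDom' hR hy) i fun q => ZZ X σ₁ σ₂ σ₃ b q ω| ≤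
      ε + 8 * R ^ 7 * M * √(vfresh σ₁ σ₂ σ₃ b x y) := by
  have hR0 : 0 < R := by linarith
  have hy' := Dom.toDom' hR hy
  set zA := ZZ X σ₁ σ₂ σ₃ b (i, .inl (aX σ₁ y hy', wX σ₂ y hy')) ω with hzA
  set zC := ZZ X σ₁ σ₂ σ₃ b (i, .inr (aX σ₁ y hy', vX σ₃ y hy')) ω with hzC
  have e1 : al σ₁ σ₂ b y * zA = X i (y 0) b ω - X i (y 0) (y 1) ω := ZZ_inl σ₁ σ₂ σ₃ y hy' i ω
  have e2 : be σ₁ σ₃ b y * zC = X i (y 0) (y 2) ω - X i (y 0) b ω := ZZ_inr σ₁ σ₂ σ₃ y hy' i ω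
  obtain ⟨a1, a2⟩ := al_bounds σ₁ σ₂ hR hy
  obtain ⟨b1, b2⟩ := be_bounds σ₁ σ₃ hR hy
  have hzA' : |zA| ≤ R ^ 2 * M := by
    have h4 : 1 / R ^ 2 * |zA| ≤ M := by
      calc 1 / R ^ 2 * |zA| ≤ al σ₁ σ₂ b y * |zA| := mul_le_mul_of_nonneg_right a1 (abs_nonneg _)
        _ = |al σ₁ σ₂ b y * zA| := by
          rw [abs_mul, abs_of_nonneg (le_trans (by positivity) a1)]
        _ ≤ M := by rw [e1]; exact h2
    rw [one_div, inv_mul_le_iff₀ (by positivity)] at h4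
    exact h4
  have hzC' : |zC| ≤ R ^ 2 * M := by
    have h4 : 1 / R ^ 2 * |zC| ≤ M := by
      calc 1 / R ^ 2 * |zC| ≤ be σ₁ σ₃ b y * |zC| := mul_le_mul_of_nonneg_right b1 (abs_nonneg _)
        _ = |be σ₁ σ₃ b y * zC| := by
          rw [abs_mul, abs_of_nonneg (le_trans (by positivity) b1)]
        _ ≤ M := by rw [e2]; exact h3
    rw [one_div, inv_mul_le_iff₀ (by positivity)] at h4
    exact h4
  have hd := dist_le_sqrt σ₁ σ₂ σ₃ hR hx hy h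
  have hk : known σ₁ σ₂ σ₃ x y hy' i (fun q => ZZ X σ₁ σ₂ σ₃ b q ω) = W X i y ω +
      (al σ₁ σ₂ b x - al σ₁ σ₂ b y) * zA + (be σ₁ σ₃ b x - be σ₁ σ₃ b y) * zC := by
    have : W X i y ω = al σ₁ σ₂ b y * zA + be σ₁ σ₃ b y * zC := by
      rw [e1, e2]; unfold W; ring
    rw [this]
    unfold known
    ring
  rw [hk]
  have t1 : |(al σ₁ σ₂ b x - al σ₁ σ₂ b y) * zA| ≤ 2 * R * dist x y * (R ^ 2 * M) := by
    rw [abs_mul]
    exact mul_le_mul (al_sub σ₁ σ₂ hR hx hy) hzA' (abs_nonneg _) (by positivity)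
  have t2 : |(be σ₁ σ₃ b x - be σ₁ σ₃ b y) * zC| ≤ 2 * R * dist x y * (R ^ 2 * M) := by
    rw [abs_mul]
    exact mul_le_mul (be_sub σ₁ σ₃ hR hx hy) hzC' (abs_nonneg _) (by positivity)
  have t3 : 2 * R * dist x y * (R ^ 2 * M) ≤ 4 * R ^ 7 * M * √(vfresh σ₁ σ₂ σ₃ b x y) := by
    calc 2 * R * dist x y * (R ^ 2 * M) = 2 * R ^ 3 * M * dist x y := by ring
      _ ≤ 2 * R ^ 3 * M * (2 * R ^ 4 * √(vfresh σ₁ σ₂ σ₃ b x y)) := by gcongr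
      _ = _ := by ring
  calc |W X i y ω + (al σ₁ σ₂ b x - al σ₁ σ₂ b y) * zA + (be σ₁ σ₃ b x - be σ₁ σ₃ b y) * zC|
      ≤ |W X i y ω| + |(al σ₁ σ₂ b x - al σ₁ σ₂ b y) * zA| +
          |(be σ₁ σ₃ b x - be σ₁ σ₃ b y) * zC| := abs_add_three _ _ _
    _ ≤ ε + 8 * R ^ 7 * M * √(vfresh σ₁ σ₂ σ₃ b x y) := by linarith

end Pool.Agent.Helper97.Sheet
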