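import Pool.Agent.Helper97.Sheet.Core

open MeasureTheory ProbabilityTheory Set
open scoped ENNReal NNReal

namespace Pool.Agent.Helper97.Sheet

variable {Ω : Type*} [MeasurableSpace Ω] {P : Measure Ω} {d : ℕ} {b : ℝ}
  {X : Fin d → ℝ → ℝ → Ω → ℝ}

namespace Nice

lemma pres_cut1 (hX : Nice X P) (hb : 0 ≤ b) (σ₁ σ₂ σ₃ : Bool) (a : IT) :
    Pres (P.map fun ω q => ZZ X σ₁ σ₂ σ₃ b q ω) (cut1 a) := by
  have := hX.isProb
  refine pres_of_gaussian (hX.gauss_ZZ σ₁ σ₂ σ₃ b) (hX.measurable_ZZ σ₁ σ₂ σ₃ b) fun q q' => ?_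
  rw [hX.cov_ZZ _ _ _ hb, hX.cov_ZZ _ _ _ hb, kT_cut1]

lemma pres_cut2 (hX : Nice X P) (hb : 0 ≤ b) (σ₁ σ₂ σ₃ : Bool) (a : JT σ₂ b) :
    Pres (P.map fun ω q => ZZ X σ₁ σ₂ σ₃ b q ω) (cut2 a) := by
  have := hX.isProb
  refine pres_of_gaussian (hX.gauss_ZZ σ₁ σ₂ σ₃ b) (hX.measurable_ZZ σ₁ σ₂ σ₃ b) fun q q' => ?_
  rw [hX.cov_ZZ _ _ _ hb, hX.cov_ZZ _ _ _ hb, kT_cut2]

lemma pres_cut3 (hX : Nice X P) (hb : 0 ≤ b) (σ₁ σ₂ σ₃ : Bool) (a : IT) :
    Pres (P.map fun ω q => ZZ X σ₁ σ₂ σ₃ b q ω) (cut3 a) := by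
  have := hX.isProb
  refine pres_of_gaussian (hX.gauss_ZZ σ₁ σ₂ σ₃ b) (hX.measurable_ZZ σ₁ σ₂ σ₃ b) fun q q' => ?_
  rw [hX.cov_ZZ _ _ _ hb, hX.cov_ZZ _ _ _ hb, kT_cut3]

/-- The main inequality for one of the eight orders. -/
theorem core_order (hX : Nice X P) (hb : 0 ≤ b) {R M : ℝ} (hR : 1 ≤ R) (hM : 0 ≤ M)
    (σ₁ σ₂ σ₃ : Bool) {ι : Type*} [Fintype ι] {pt : ι → E3} (hpt : ∀ k, pt k ∈ Dom R b)
    {F : ι → Set Ω} (hFm : ∀ k, MeasurableSet (F k)) (hdisj : Pairwise (Function.onFun Disjoint F))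
    {ε : ℝ} (hε : 0 < ε) (hFW : ∀ k, ∀ ω ∈ F k, ∀ i, |W X i (pt k) ω| ≤ ε)
    (hFA : ∀ k, ∀ ω ∈ F k, ∀ i, |X i (pt k 0) b ω - X i (pt k 0) (pt k 1) ω| ≤ M)
    (hFC : ∀ k, ∀ ω ∈ F k, ∀ i, |X i (pt k 0) (pt k 2) ω - X i (pt k 0) b ω| ≤ M)
    [∀ k l, Decidable (prec σ₁ σ₂ σ₃ b (pt k) (pt l))] :
    ∑ k, P.real (F k) * (∑ l, if prec σ₁ σ₂ σ₃ b (pt k) (pt l) then
        P.real (F l) * (cL R M * ε * κ₁ ε (dist (pt l) (pt k))) ^ d else 0) ^ 2 ≤
      64 * ∑ k, ∑ l, P.real (F k) * P.real (F l) *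
        (C2 R * ε ^ 2 * κ₁ ε (dist (pt k) (pt l))) ^ d := by
  classical
  have := hX.isProb
  set Z : Ω → TT d σ₂ b → ℝ := fun ω q => ZZ X σ₁ σ₂ σ₃ b q ω with hZ
  have hZm : Measurable Z := measurable_pi_iff.2 (hX.measurable_ZZ σ₁ σ₂ σ₃ b)
  set γ := P.map Z with hγ
  have hγp : IsProbabilityMeasure γ := Measure.isProbabilityMeasure_map hZm.aemeasurable
  have hpt' : ∀ k, pt k ∈ Dom' b := fun k => Dom.toDom' hR (hpt k)
  set p : ι → ℝ := fun k => P.real (F k) with hp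
  have hp0 : ∀ k, 0 ≤ p k := fun k => measureReal_nonneg
  have hpP : ∀ k, P (F k) = ENNReal.ofReal (p k) := fun k =>
    (ofReal_measureReal (measure_ne_top _ _)).symm
  set Sk : ι → Set (TT d σ₂ b → ℝ) := fun k => {z | ∀ i, |ell σ₁ σ₂ σ₃ (pt k) (hpt' k) i z| ≤ ε}
    with hSk
  have hSkm : ∀ k, MeasurableSet (Sk k) := by
    intro k
    have e : Sk k = ⋂ i, {z | |ell σ₁ σ₂ σ₃ (pt k) (hpt' k) i z| ≤ ε} := by
      ext z; simp [hSk]
    rw [e]
    refine MeasurableSet.iInter fun i => ?_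
    have h1 : Measurable fun z => |ell (d := d) σ₁ σ₂ σ₃ (pt k) (hpt' k) i z| :=
      continuous_abs.measurable.comp (measurable_ell σ₁ σ₂ σ₃ (pt k) (hpt' k) i)
    exact measurableSet_le h1 measurable_const
  set f : (TT d σ₂ b → ℝ) → ℝ≥0∞ := fun z =>
    ∑ k, ENNReal.ofReal (p k) * (Sk k).indicator 1 z with hf
  have hfm : Measurable f :=
    Finset.measurable_sum _ fun k _ => (measurable_one.indicator (hSkm k)).const_mul _
  have hfB : ∀ z, f z ≤ ∑ k, ENNReal.ofReal (p k) := by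
    intro z
    refine Finset.sum_le_sum fun k _ => ?_
    calc ENNReal.ofReal (p k) * (Sk k).indicator 1 z ≤ ENNReal.ofReal (p k) * 1 := by
          gcongr
          exact indicator_le_self' (fun _ _ => zero_le) z
      _ = ENNReal.ofReal (p k) := mul_one _
  have hBt : ∑ k, ENNReal.ofReal (p k) ≠ ∞ := by simp
  obtain ⟨Mx, hMm, hM2, hMx⟩ := cairoli (γ := γ) (c₁ := cut1) (c₂ := cut2) (c₃ := cut3)
    (hX.pres_cut1 hb σ₁ σ₂ σ₃) (hX.pres_cut2 hb σ₁ σ₂ σ₃) (hX.pres_cut3 hb σ₁ σ₂ σ₃)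
    cut1_cut1 cut2_cut2 cut3_cut3 cut1_cut2 cut1_cut3 cut2_cut3 hfm hBt hfB
    (Finset.univ.image fun k => aX σ₁ (pt k) (hpt' k))
    (Finset.univ.image fun k => wX σ₂ (pt k) (hpt' k))
    (Finset.univ.image fun k => vX σ₃ (pt k) (hpt' k))
  have hMk : ∀ k z, ce γ (cutA σ₁ σ₂ σ₃ (pt k) (hpt' k)) f z ≤ Mx z := fun k z =>
    hMx _ (Finset.mem_image_of_mem _ (Finset.mem_univ k)) _
      (Finset.mem_image_of_mem _ (Finset.mem_univ k)) _
      (Finset.mem_image_of_mem _ (Finset.mem_univ k)) z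
  -- the upper bound
  have hfZ : ∀ ω, f (Z ω) = ∑ k, ENNReal.ofReal (p k) *
      {ω | ∀ i, |W X i (pt k) ω| ≤ ε}.indicator 1 ω := by
    intro ω
    simp only [hf]
    refine Finset.sum_congr rfl fun k _ => ?_
    congr 1
    have h1 : Z ω ∈ Sk k ↔ ω ∈ {ω | ∀ i, |W X i (pt k) ω| ≤ ε} := by
      simp only [hSk, mem_ofPred_eq, hZ, ell_ZZ]
    by_cases h2 : Z ω ∈ Sk k
    · rw [indicator_of_mem h2, indicator_of_mem (h1.1 h2)]; rfl
    · rw [indicator_of_notMem h2, indicator_of_notMem fun h3 => h2 (h1.2 h3)]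
  have hWm : ∀ k, MeasurableSet {ω | ∀ i, |W X i (pt k) ω| ≤ ε} := by
    intro k
    have e : {ω | ∀ i, |W X i (pt k) ω| ≤ ε} = ⋂ i, {ω | |W X i (pt k) ω| ≤ ε} := by
      ext z; simp
    rw [e]
    refine MeasurableSet.iInter fun i => ?_
    exact measurableSet_le (continuous_abs.measurable.comp (hX.measurable_W i (pt k)))
      measurable_const
  have hup : ∫⁻ z, (f z) ^ 2 ∂γ ≤ ENNReal.ofReal (∑ k, ∑ l, p k * p l *
      (C2 R * ε ^ 2 * κ₁ ε (dist (pt k) (pt l))) ^ d) := by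
    rw [hγ, lintegral_map (hfm.pow_const 2) hZm]
    have hC2 := C2_pos hR
    have hnn : ∀ k l, 0 ≤ p k * p l * (C2 R * ε ^ 2 * κ₁ ε (dist (pt k) (pt l))) ^ d := by
      intro k l
      have h1 := κ₁_pos hε (dist (pt k) (pt l))
      have h2 := hp0 k
      have h3 := hp0 l
      positivity
    have hsq : ∀ ω, (f (Z ω)) ^ 2 = ∑ k, ∑ l, ENNReal.ofReal (p k * p l) *
        {ω | (∀ i, |W X i (pt k) ω| ≤ ε) ∧ ∀ i, |W X i (pt l) ω| ≤ ε}.indicator 1 ω := by
      intro ω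
      rw [hfZ, sq, Finset.sum_mul_sum]
      refine Finset.sum_congr rfl fun k _ => Finset.sum_congr rfl fun l _ => ?_
      rw [mul_mul_mul_comm, ← ENNReal.ofReal_mul (hp0 k)]
      congr 1
      by_cases h1 : ω ∈ {ω | ∀ i, |W X i (pt k) ω| ≤ ε}
      · by_cases h2 : ω ∈ {ω | ∀ i, |W X i (pt l) ω| ≤ ε}
        · rw [indicator_of_mem h1, indicator_of_mem h2, indicator_of_mem (by exact ⟨h1, h2⟩)]
          simp
        · have h3 : ω ∉ {ω | (∀ i, |W X i (pt k) ω| ≤ ε) ∧ ∀ i, |W X i (pt l) ω| ≤ ε} :=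
            fun h => h2 h.2
          rw [indicator_of_notMem h2, indicator_of_notMem h3, mul_zero]
      · have h3 : ω ∉ {ω | (∀ i, |W X i (pt k) ω| ≤ ε) ∧ ∀ i, |W X i (pt l) ω| ≤ ε} :=
          fun h => h1 h.1
        rw [indicator_of_notMem h1, indicator_of_notMem h3, zero_mul]
    simp_rw [hsq]
    have hWWm : ∀ k l, MeasurableSet {ω | (∀ i, |W X i (pt k) ω| ≤ ε) ∧
        ∀ i, |W X i (pt l) ω| ≤ ε} := fun k l => (hWm k).inter (hWm l)
    rw [lintegral_finsetSum _ fun k _ => Finset.measurable_sum _ fun l _ =>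
      (measurable_one.indicator (hWWm k l)).const_mul _,
      ENNReal.ofReal_sum_of_nonneg fun k _ => Finset.sum_nonneg fun l _ => hnn k l]
    refine Finset.sum_le_sum fun k _ => ?_
    rw [lintegral_finsetSum _ fun l _ =>
      (measurable_one.indicator (hWWm k l)).const_mul _,
      ENNReal.ofReal_sum_of_nonneg fun l _ => hnn k l]
    refine Finset.sum_le_sum fun l _ => ?_
    rw [lintegral_const_mul _ (measurable_one.indicator (hWWm k l)),
      lintegral_indicator_one (hWWm k l),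
      ENNReal.ofReal_mul (mul_nonneg (hp0 k) (hp0 l))]
    gcongr
    exact hX.second_moment hR (hpt k) (hpt l) hε
  -- the lower bound
  set Lk : ι → ℝ := fun k => ∑ l, if prec σ₁ σ₂ σ₃ b (pt k) (pt l) then
        p l * (cL R M * ε * κ₁ ε (dist (pt l) (pt k))) ^ d else 0 with hLk
  have hLk0 : ∀ k, 0 ≤ Lk k := by
    intro k
    refine Finset.sum_nonneg fun l _ => ?_
    split_ifs
    · have h1 := κ₁_pos hε (dist (pt l) (pt k))
      have h2 := cL_pos hR M
      have h3 := hp0 l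
      positivity
    · exact le_rfl
  have hlow : ∀ k, ∀ ω ∈ F k, ENNReal.ofReal (Lk k) ≤ Mx (Z ω) := by
    intro k ω hω
    refine le_trans ?_ (hMk k (Z ω))
    unfold ce
    have hmm : Measurable fun z' => f (merge (cutA σ₁ σ₂ σ₃ (pt k) (hpt' k)) (Z ω) z') :=
      hfm.comp (measurable_merge_right _ _)
    rw [hγ, lintegral_map hmm hZm]
    simp only [hf]
    have hmm' : ∀ l, Measurable fun ω' => (Sk l).indicator (1 : (TT d σ₂ b → ℝ) → ℝ≥0∞)
        (merge (cutA σ₁ σ₂ σ₃ (pt k) (hpt' k)) (Z ω) (Z ω')) := fun l =>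
      (measurable_one.indicator (hSkm l)).comp ((measurable_merge_right _ _).comp hZm)
    rw [lintegral_finsetSum _ fun l _ => (hmm' l).const_mul _,
      ENNReal.ofReal_sum_of_nonneg fun l _ => by
        split_ifs
        · have h1 := κ₁_pos hε (dist (pt l) (pt k))
          have h2 := cL_pos hR M
          have h3 := hp0 l
          positivity
        · exact le_rfl]
    refine Finset.sum_le_sum fun l _ => ?_
    split_ifs with hprec
    · rw [lintegral_const_mul _ (hmm' l), ENNReal.ofReal_mul (hp0 l)]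
      gcongr
      have h1 := hX.fresh_ge σ₁ σ₂ σ₃ hb hR hM (hpt l) (hpt k) hprec hε
        (m := fun i => known σ₁ σ₂ σ₃ (pt l) (pt k) (hpt' k) i (Z ω))
        (fun i => known_le σ₁ σ₂ σ₃ hR hM (hpt l) (hpt k) hprec i ω (hFW k ω hω i)
          (hFA k ω hω i) (hFC k ω hω i))
      refine h1.trans ?_
      have hms : MeasurableSet ((fun ω' => merge (cutA σ₁ σ₂ σ₃ (pt k) (hpt' k)) (Z ω) (Z ω')) ⁻¹'
          (Sk l)) := ((measurable_merge_right _ _).comp hZm) (hSkm l)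
      have h2 : ∫⁻ ω', (Sk l).indicator (1 : (TT d σ₂ b → ℝ) → ℝ≥0∞)
          (merge (cutA σ₁ σ₂ σ₃ (pt k) (hpt' k)) (Z ω) (Z ω')) ∂P =
          P ((fun ω' => merge (cutA σ₁ σ₂ σ₃ (pt k) (hpt' k)) (Z ω) (Z ω')) ⁻¹' (Sk l)) := by
        rw [← lintegral_indicator_one hms]
        rfl
      rw [h2]
      refine measure_mono fun ω' hω' => ?_
      simp only [hSk, mem_preimage, mem_ofPred_eq]
      intro i
      rw [ell_merge (hpt' l) (hpt' k) hprec]
      exact hω' i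
    · simp
  have hlow2 : ENNReal.ofReal (∑ k, p k * Lk k ^ 2) ≤ ∫⁻ z, (Mx z) ^ 2 ∂γ := by
    rw [hγ, lintegral_map (hMm.pow_const 2) hZm]
    have hpt2 : ∀ ω, ∑ k, ENNReal.ofReal (Lk k) ^ 2 * (F k).indicator 1 ω ≤ (Mx (Z ω)) ^ 2 := by
      intro ω
      by_cases hω : ∃ k, ω ∈ F k
      · obtain ⟨k, hk⟩ := hω
        rw [Finset.sum_eq_single k]
        · rw [indicator_of_mem hk]
          simp only [Pi.one_apply, mul_one]
          gcongr
          exact hlow k ω hk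
        · intro l _ hl
          have : ω ∉ F l := fun h => (Set.disjoint_left.1 (hdisj hl) h) hk
          rw [indicator_of_notMem this, mul_zero]
        · intro h; exact absurd (Finset.mem_univ k) h
      · push Not at hω
        rw [Finset.sum_eq_zero]
        · exact zero_le
        · intro l _
          rw [indicator_of_notMem (hω l), mul_zero]
    refine le_trans (le_of_eq ?_) (lintegral_mono hpt2)
    rw [lintegral_finsetSum _ fun k _ => (measurable_one.indicator (hFm k)).const_mul _,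
      ENNReal.ofReal_sum_of_nonneg fun k _ => mul_nonneg (hp0 k) (sq_nonneg _)]
    refine Finset.sum_congr rfl fun k _ => ?_
    rw [lintegral_const_mul _ (measurable_one.indicator (hFm k)),
      lintegral_indicator_one (hFm k), hpP, ENNReal.ofReal_mul (hp0 k),
      ENNReal.ofReal_pow (hLk0 k), mul_comm]
  have hfinal : ENNReal.ofReal (∑ k, p k * Lk k ^ 2) ≤ ENNReal.ofReal (64 * ∑ k, ∑ l, p k * p l *
      (C2 R * ε ^ 2 * κ₁ ε (dist (pt k) (pt l))) ^ d) := by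
    refine hlow2.trans (hM2.trans ?_)
    rw [ENNReal.ofReal_mul (by norm_num)]
    gcongr
    simp
  rwa [ENNReal.ofReal_le_ofReal_iff] at hfinal
  refine mul_nonneg (by norm_num) (Finset.sum_nonneg fun k _ => Finset.sum_nonneg fun l _ => ?_)
  have hC2 := C2_pos hR
  have h1 := κ₁_pos hε (dist (pt k) (pt l))
  have h2 := hp0 k
  have h3 := hp0 l
  positivity

/-- The main inequality: the discrete energy of the hitting distribution is bounded. -/
theorem core_all (hX : Nice X P) (hb : 0 ≤ b) {R M : ℝ} (hR : 1 ≤ R) (hM : 0 ≤ M)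
    {ι : Type*} [Fintype ι] {pt : ι → E3} (hpt : ∀ k, pt k ∈ Dom R b)
    {F : ι → Set Ω} (hFm : ∀ k, MeasurableSet (F k)) (hdisj : Pairwise (Function.onFun Disjoint F))
    {ε : ℝ} (hε : 0 < ε) (hFW : ∀ k, ∀ ω ∈ F k, ∀ i, |W X i (pt k) ω| ≤ ε)
    (hFA : ∀ k, ∀ ω ∈ F k, ∀ i, |X i (pt k 0) b ω - X i (pt k 0) (pt k 1) ω| ≤ M)
    (hFC : ∀ k, ∀ ω ∈ F k, ∀ i, |X i (pt k 0) (pt k 2) ω - X i (pt k 0) b ω| ≤ M) :
    ∑ k, ∑ l, P.real (F k) * P.real (F l) * κ₁ ε (dist (pt k) (pt l)) ^ d ≤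
      4096 * (C2 R / cL R M ^ 2) ^ d * ∑ k, P.real (F k) := by
  classical
  have := hX.isProb
  set p : ι → ℝ := fun k => P.real (F k) with hp
  have hp0 : ∀ k, 0 ≤ p k := fun k => measureReal_nonneg
  set kk : ι → ι → ℝ := fun k l => κ₁ ε (dist (pt k) (pt l)) ^ d with hkk
  have hkk0 : ∀ k l, 0 < kk k l := fun k l => pow_pos (κ₁_pos hε _) d
  set I := ∑ k, ∑ l, p k * p l * kk k l with hI
  have hI0 : 0 ≤ I := Finset.sum_nonneg fun k _ => Finset.sum_nonneg fun l _ =>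
    mul_nonneg (mul_nonneg (hp0 k) (hp0 l)) (hkk0 k l).le
  set w := ∑ k, p k with hw
  have hw0 : 0 ≤ w := Finset.sum_nonneg fun k _ => hp0 k
  have hC2 := C2_pos hR
  have hcL := cL_pos hR M
  set A := 64 * (C2 R / cL R M ^ 2) ^ d with hA
  have hA0 : 0 ≤ A := by positivity
  set sk : Bool × Bool × Bool → ι → ℝ := fun σ k => ∑ l,
    if prec σ.1 σ.2.1 σ.2.2 b (pt k) (pt l) then p l * kk l k else 0 with hsk
  have hone : ∀ σ : Bool × Bool × Bool, (∑ k, p k * sk σ k) ^ 2 ≤ w * (A * I) := by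
    intro σ
    have h1 := hX.core_order hb hR hM σ.1 σ.2.1 σ.2.2 hpt hFm hdisj hε hFW hFA hFC
    have e1 : ∀ k, (∑ l, if prec σ.1 σ.2.1 σ.2.2 b (pt k) (pt l) then
        P.real (F l) * (cL R M * ε * κ₁ ε (dist (pt l) (pt k))) ^ d else 0) =
        (cL R M * ε) ^ d * sk σ k := by
      intro k
      simp only [hsk]
      rw [Finset.mul_sum]
      refine Finset.sum_congr rfl fun l _ => ?_
      split_ifs
      · rw [mul_pow _ (κ₁ _ _) d]; simp only [hp, hkk]; ring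
      · ring
    have e2 : ∑ k, ∑ l, P.real (F k) * P.real (F l) *
        (C2 R * ε ^ 2 * κ₁ ε (dist (pt k) (pt l))) ^ d = (C2 R * ε ^ 2) ^ d * I := by
      rw [hI, Finset.mul_sum]
      refine Finset.sum_congr rfl fun k _ => ?_
      rw [Finset.mul_sum]
      refine Finset.sum_congr rfl fun l _ => ?_
      rw [mul_pow _ (κ₁ _ _) d]; simp only [hp, hkk]; ring
    simp_rw [e1] at h1
    rw [e2] at h1
    have h2 : ∑ k, p k * sk σ k ^ 2 ≤ A * I := by
      have e3 : ∑ k, P.real (F k) * ((cL R M * ε) ^ d * sk σ k) ^ 2 =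
          ((cL R M * ε) ^ d) ^ 2 * ∑ k, p k * sk σ k ^ 2 := by
        rw [Finset.mul_sum]
        refine Finset.sum_congr rfl fun k _ => ?_
        simp only [hp]; ring
      rw [e3] at h1
      have hpos : 0 < ((cL R M * ε) ^ d) ^ 2 := by positivity
      have e4 : 64 * ((C2 R * ε ^ 2) ^ d * I) = ((cL R M * ε) ^ d) ^ 2 * (A * I) := by
        have e : ((cL R M * ε) ^ d) ^ 2 * (C2 R / cL R M ^ 2) ^ d = (C2 R * ε ^ 2) ^ d := by
          rw [← pow_mul, mul_comm d 2, pow_mul, ← mul_pow]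
          congr 1
          field_simp
        rw [hA, ← e]
        ring
      rw [e4] at h1
      exact le_of_mul_le_mul_left h1 hpos
    have h3 : (∑ k, p k * sk σ k) ^ 2 ≤ (∑ k, p k) * ∑ k, p k * sk σ k ^ 2 := by
      have h4 := Finset.sum_mul_sq_le_sq_mul_sq Finset.univ (fun k => √(p k))
        (fun k => √(p k) * sk σ k)
      have e5 : ∀ k, √(p k) * (√(p k) * sk σ k) = p k * sk σ k := fun k => by
        rw [← mul_assoc, Real.mul_self_sqrt (hp0 k)]
      have e6 : ∀ k, √(p k) ^ 2 = p k := fun k => Real.sq_sqrt (hp0 k)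
      have e7 : ∀ k, (√(p k) * sk σ k) ^ 2 = p k * sk σ k ^ 2 := fun k => by
        rw [mul_pow, Real.sq_sqrt (hp0 k)]
      simp_rw [e5, e6, e7] at h4
      exact h4
    exact h3.trans (mul_le_mul_of_nonneg_left h2 hw0)
  have hsum : I ≤ ∑ σ : Bool × Bool × Bool, ∑ k, p k * sk σ k := by
    rw [Finset.sum_comm, hI]
    refine Finset.sum_le_sum fun k _ => ?_
    rw [← Finset.mul_sum]
    have e1 : ∑ l, p k * p l * kk k l = p k * ∑ l, p l * kk l k := by
      rw [Finset.mul_sum]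
      refine Finset.sum_congr rfl fun l _ => ?_
      simp only [hkk, dist_comm]
      ring
    rw [e1]
    refine mul_le_mul_of_nonneg_left ?_ (hp0 k)
    simp only [hsk]
    rw [Finset.sum_comm]
    refine Finset.sum_le_sum fun l _ => ?_
    have hk' := Dom.toDom' hR (hpt k)
    have hl' := Dom.toDom' hR (hpt l)
    obtain ⟨σ₁, h1⟩ := exists_sign (pt l 0) (pt k 0) hl'.1
    obtain ⟨σ₂, h2⟩ := exists_sign (b - pt l 1) (b - pt k 1) (sub_pos.2 hl'.2.2.1)
    obtain ⟨σ₃, h3⟩ := exists_sign (pt l 2 - b) (pt k 2 - b) (sub_pos.2 hl'.2.2.2)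
    have h4 := Finset.single_le_sum (f := fun σ : Bool × Bool × Bool =>
      if prec σ.1 σ.2.1 σ.2.2 b (pt k) (pt l) then p l * kk l k else 0)
      (fun σ _ => by
        split_ifs
        · exact mul_nonneg (hp0 l) (hkk0 l k).le
        · exact le_rfl) (Finset.mem_univ (σ₁, σ₂, σ₃))
    refine le_trans (le_of_eq ?_) h4
    rw [if_pos (by exact ⟨h1, h2, h3⟩)]
  have hsq : I ^ 2 ≤ 64 * A * w * I := by
    calc I ^ 2 ≤ (∑ σ : Bool × Bool × Bool, ∑ k, p k * sk σ k) ^ 2 :=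
          pow_le_pow_left₀ hI0 hsum 2
      _ ≤ (Finset.univ : Finset (Bool × Bool × Bool)).card *
          ∑ σ : Bool × Bool × Bool, (∑ k, p k * sk σ k) ^ 2 := sq_sum_le_card_mul_sum_sq
      _ ≤ (Finset.univ : Finset (Bool × Bool × Bool)).card *
          ∑ _σ : Bool × Bool × Bool, w * (A * I) := by
          gcongr with σ _
          exact hone σ
      _ = 64 * A * w * I := by
          have : (Finset.univ : Finset (Bool × Bool × Bool)).card = 8 := rfl
          rw [Finset.sum_const, this]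
          simp only [nsmul_eq_mul]
          push_cast
          ring
  show I ≤ 4096 * (C2 R / cL R M ^ 2) ^ d * w
  have e : 4096 * (C2 R / cL R M ^ 2) ^ d * w = 64 * A * w := by rw [hA]; ring
  rw [e]
  rcases hI0.eq_or_lt with h | h
  · rw [← h]; positivity
  · rw [sq] at hsq
    exact le_of_mul_le_mul_right hsq h

end Nice

end Pool.Agent.Helper97.Sheet
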