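import Mathlib

/-!
# Double points of the Brownian sheet: definitions
-/

open MeasureTheory ProbabilityTheory Set
open scoped ENNReal NNReal

namespace Pool.Agent.Helper97.Sheet

/-- `B` is a `d`-dimensional Brownian sheet under `P`: a centred (jointly) Gaussian process indexed
by `[0, ∞)²` with continuous sample paths (almost surely), independent coordinates (for jointly
Gaussian coordinates this is the vanishing of the cross-covariances) and
`E[B^i(s,t) B^i(s',t')] = min(s,s') min(t,t')`. -/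
structure IsBrownianSheet {Ω : Type*} [MeasurableSpace Ω] {d : ℕ}
    (B : ℝ≥0 → ℝ≥0 → Ω → Fin d → ℝ) (P : Measure Ω) : Prop where
  isGaussianProcess :
    IsGaussianProcess (fun (q : Fin d × ℝ≥0 × ℝ≥0) ω => B q.2.1 q.2.2 ω q.1) P
  integral_eq_zero : ∀ s t i, ∫ ω, B s t ω i ∂P = 0
  integral_mul : ∀ s t s' t' i j, ∫ ω, B s t ω i * B s' t' ω j ∂P =
    if i = j then ((min s s' : ℝ≥0) : ℝ) * ((min t t' : ℝ≥0) : ℝ) else 0
  continuous_paths : ∀ᵐ ω ∂P, Continuous fun q : ℝ≥0 × ℝ≥0 => B q.1 q.2 ω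

/-- The kernel `U_β` as a function of the distance `r = |x|`: `r ^ (-β)` if `β > 0`,
`log (e / r)` if `β = 0` (with value `∞` at `r = 0`; the negative values, which occur for `r > e`
only, are replaced by `0`), and `1` if `β < 0`. -/
noncomputable def kernelU (β r : ℝ) : ℝ≥0∞ :=
  if 0 < β then ENNReal.ofReal r ^ (-β)
  else if β = 0 then (if r = 0 then ∞ else ENNReal.ofReal (Real.log (Real.exp 1 / r)))
  else 1

/-- The energy of a measure with respect to the kernel `U_β`. -/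
noncomputable def energy {E : Type*} [PseudoMetricSpace E] [MeasurableSpace E] (β : ℝ)
    (μ : Measure E) : ℝ≥0∞ :=
  ∫⁻ x, ∫⁻ y, kernelU β (dist x y) ∂μ ∂μ

/-- The capacity of the set `F`: the inverse of the infimum of the energies of the probability
measures carried by `F`. -/
noncomputable def Cap {E : Type*} [PseudoMetricSpace E] [MeasurableSpace E] (β : ℝ)
    (F : Set E) : ℝ≥0∞ :=
  (⨅ μ : {μ : Measure E // IsProbabilityMeasure μ ∧ μ Fᶜ = 0}, energy β μ.1)⁻¹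

/-- The random set of the points `(s, t₁, t₂)` with `s, t₁, t₂ ≥ 0`, `t₁ ≠ t₂` and
`B(s, t₁) = B(s, t₂)`. -/
def hatD {Ω : Type*} {d : ℕ} (B : ℝ≥0 → ℝ≥0 → Ω → Fin d → ℝ) (ω : Ω) :
    Set (EuclideanSpace ℝ (Fin 3)) :=
  {x | (∀ k, 0 ≤ x k) ∧ x 1 ≠ x 2 ∧
    B (x 0).toNNReal (x 1).toNNReal ω = B (x 0).toNNReal (x 2).toNNReal ω}

/-- The random set of the points `(s, t₁)` with `s, t₁ ≥ 0` and `B(s, t₁) = B(s, t₂)` for some
`t₂ > 0`, `t₂ ≠ t₁`. -/
def barD {Ω : Type*} {d : ℕ} (B : ℝ≥0 → ℝ≥0 → Ω → Fin d → ℝ) (ω : Ω) :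
    Set (EuclideanSpace ℝ (Fin 2)) :=
  {x | (∀ k, 0 ≤ x k) ∧ ∃ t₂ : ℝ, 0 < t₂ ∧ t₂ ≠ x 1 ∧
    B (x 0).toNNReal (x 1).toNNReal ω = B (x 0).toNNReal t₂.toNNReal ω}

end Pool.Agent.Helper97.Sheet
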