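import Pool.Agent.Helper97.Sheet.Cairoli

open MeasureTheory ProbabilityTheory Set
open scoped ENNReal NNReal

namespace Pool.Agent.Helper97.Sheet

/-! ### One-dimensional Gaussian estimates -/

lemma gaussianPDF_le {v : ℝ≥0} (hv : v ≠ 0) (m x : ℝ) :
    gaussianPDF m v x ≤ ENNReal.ofReal (1 / (2 * √v)) := by
  unfold gaussianPDF
  apply ENNReal.ofReal_le_ofReal
  have hv' : (0 : ℝ) < v := by positivity
  have hsv : 0 < √(v : ℝ) := Real.sqrt_pos.2 hv'
  rw [gaussianPDFReal_def]
  have h1 : 2 * √(v : ℝ) ≤ √(2 * Real.pi * v) := by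
    apply Real.le_sqrt_of_sq_le
    rw [mul_pow, Real.sq_sqrt hv'.le]
    nlinarith [Real.pi_gt_three]
  have h2 : Real.exp (-(x - m) ^ 2 / (2 * v)) ≤ 1 := by
    rw [Real.exp_le_one_iff]
    apply div_nonpos_of_nonpos_of_nonneg
    · nlinarith [sq_nonneg (x - m)]
    · positivity
  calc (√(2 * Real.pi * v))⁻¹ * Real.exp (-(x - m) ^ 2 / (2 * v))
      ≤ (√(2 * Real.pi * v))⁻¹ * 1 := by gcongr
    _ ≤ 1 / (2 * √v) := by
        rw [mul_one, one_div]
        exact inv_anti₀ (by positivity) h1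

lemma gaussian_le {v : ℝ≥0} (hv : v ≠ 0) (z : ℝ) {ε : ℝ} :
    gaussianReal 0 v {x | |x + z| ≤ ε} ≤ ENNReal.ofReal (ε / √v) := by
  have hset : {x : ℝ | |x + z| ≤ ε} = Icc (-ε - z) (ε - z) := by
    ext x
    simp only [mem_ofPred_eq, mem_Icc, abs_le]
    constructor
    · rintro ⟨h1, h2⟩; constructor <;> linarith
    · rintro ⟨h1, h2⟩; constructor <;> linarith
  rw [hset, gaussianReal_apply _ hv]
  have hsv : 0 < √(v : ℝ) := Real.sqrt_pos.2 (by positivity)
  calc ∫⁻ x in Icc (-ε - z) (ε - z), gaussianPDF 0 v x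
      ≤ ∫⁻ _ in Icc (-ε - z) (ε - z), ENNReal.ofReal (1 / (2 * √v)) :=
        lintegral_mono fun x => gaussianPDF_le hv 0 x
    _ = ENNReal.ofReal (1 / (2 * √v)) * ENNReal.ofReal (2 * ε) := by
        rw [setLIntegral_const, Real.volume_Icc]
        congr 2; ring
    _ = ENNReal.ofReal (ε / √v) := by
        rw [← ENNReal.ofReal_mul (by positivity)]
        congr 1
        field_simp

/-- The upper estimate in the form in which it is used. -/
lemma gaussian_le' {v : ℝ≥0} {τ ε : ℝ} (hε : 0 < ε) (hv : τ ^ 2 ≤ v) (z : ℝ) :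
    gaussianReal 0 v {x | |x + z| ≤ ε} ≤ ENNReal.ofReal (ε / max ε τ) := by
  rcases le_or_gt τ ε with h | h
  · rw [max_eq_left h, div_self hε.ne', ENNReal.ofReal_one]
    exact prob_le_one
  · rw [max_eq_right h.le]
    have hτ0 : 0 < τ := hε.trans h
    have hv0 : v ≠ 0 := by
      intro h0
      rw [h0] at hv
      have : 0 < τ ^ 2 := by positivity
      simp at hv
      linarith
    refine (gaussian_le hv0 z).trans (ENNReal.ofReal_le_ofReal ?_)
    have : τ ≤ √v := Real.le_sqrt_of_sq_le hv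
    gcongr

/-- The constant in the lower estimate. -/
noncomputable def cG (K : ℝ) : ℝ := Real.exp (-((K + 1) ^ 2 / 2)) / √(2 * Real.pi)

lemma cG_pos (K : ℝ) : 0 < cG K := by
  unfold cG
  have := Real.pi_pos
  positivity

lemma cG_le_one (K : ℝ) : cG K ≤ 1 := by
  unfold cG
  have h1 : (1 : ℝ) ≤ √(2 * Real.pi) := by
    rw [Real.one_le_sqrt]
    nlinarith [Real.pi_gt_three]
  rw [div_le_one (by linarith)]
  refine le_trans ?_ h1
  rw [Real.exp_le_one_iff]
  nlinarith [sq_nonneg (K + 1)]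

lemma exists_interval {m ε K σ δ : ℝ} (hε : 0 < ε) (hσ : 0 ≤ σ) (hδε : δ ≤ ε)
    (hδσ : δ ≤ σ) (hK : 0 ≤ K) (hm : |m| ≤ ε + K * σ) :
    ∃ a : ℝ, ∀ x ∈ Icc a (a + δ), |m + x| ≤ ε ∧ |x| ≤ (K + 1) * σ := by
  have hKσ : 0 ≤ K * σ := mul_nonneg hK hσ
  rcases le_total 0 m with h0 | h0
  · rw [abs_of_nonneg h0] at hm
    rcases le_total m ε with h1 | h1
    · refine ⟨-δ, fun x hx => ?_⟩
      rw [mem_Icc] at hx
      constructor
      · rw [abs_le]; constructor <;> linarith
      · rw [abs_le]; constructor <;> nlinarith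
    · refine ⟨ε - m - δ, fun x hx => ?_⟩
      rw [mem_Icc] at hx
      constructor
      · rw [abs_le]; constructor <;> linarith
      · rw [abs_le]; constructor <;> nlinarith
  · rw [abs_of_nonpos h0] at hm
    rcases le_total (-m) ε with h1 | h1
    · refine ⟨0, fun x hx => ?_⟩
      rw [mem_Icc] at hx
      constructor
      · rw [abs_le]; constructor <;> linarith
      · rw [abs_le]; constructor <;> nlinarith
    · refine ⟨-m - ε, fun x hx => ?_⟩
      rw [mem_Icc] at hx
      constructor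
      · rw [abs_le]; constructor <;> linarith
      · rw [abs_le]; constructor <;> nlinarith

lemma gaussian_ge {v : ℝ≥0} {m ε K : ℝ} (hε : 0 < ε) (hK : 0 ≤ K) (hm : |m| ≤ ε + K * √v) :
    ENNReal.ofReal (cG K * (ε / max ε √v)) ≤ gaussianReal 0 v {x | |m + x| ≤ ε} := by
  rcases eq_or_ne v 0 with rfl | hv
  · rw [gaussianReal_zero_var]
    simp only [NNReal.coe_zero, Real.sqrt_zero, mul_zero, add_zero] at hm
    have h1 : Measure.dirac (0 : ℝ) {x | |m + x| ≤ ε} = 1 := by
      rw [Measure.dirac_apply_of_mem]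
      simpa using hm
    rw [h1, ← ENNReal.ofReal_one]
    apply ENNReal.ofReal_le_ofReal
    simp only [NNReal.coe_zero, Real.sqrt_zero]
    rw [max_eq_left hε.le, div_self hε.ne', mul_one]
    exact cG_le_one K
  · have hv' : (0 : ℝ) < v := by positivity
    set σ := √(v : ℝ) with hσd
    have hσ : 0 < σ := Real.sqrt_pos.2 hv'
    have hσ2 : σ ^ 2 = v := Real.sq_sqrt hv'.le
    set δ := min ε σ with hδ
    have hδ0 : 0 < δ := lt_min hε hσ
    obtain ⟨a, ha⟩ := exists_interval hε hσ.le (min_le_left _ _) (min_le_right _ _) hK hm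
    have hsub : Icc a (a + δ) ⊆ {x | |m + x| ≤ ε} := fun x hx => (ha x hx).1
    refine le_trans ?_ (measure_mono hsub)
    rw [gaussianReal_apply _ hv]
    have hpdf : ∀ x ∈ Icc a (a + δ), ENNReal.ofReal (cG K / σ) ≤ gaussianPDF 0 v x := by
      intro x hx
      unfold gaussianPDF
      apply ENNReal.ofReal_le_ofReal
      rw [gaussianPDFReal_def]
      have h1 : √(2 * Real.pi * v) = √(2 * Real.pi) * σ := Real.sqrt_mul (by positivity) _
      have h2 : x ^ 2 ≤ (K + 1) ^ 2 * v := by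
        have := (ha x hx).2
        have h3 : |x| ^ 2 ≤ ((K + 1) * σ) ^ 2 := pow_le_pow_left₀ (abs_nonneg x) this 2
        rw [sq_abs, mul_pow, hσ2] at h3
        exact h3
      have h4 : -((K + 1) ^ 2 / 2) ≤ -(x - 0) ^ 2 / (2 * v) := by
        rw [sub_zero, neg_div, neg_le_neg_iff, div_le_div_iff₀ (by positivity) (by norm_num)]
        linarith
      rw [h1]
      unfold cG
      have h5 : Real.exp (-((K + 1) ^ 2 / 2)) / √(2 * Real.pi) / σ =
          (√(2 * Real.pi) * σ)⁻¹ * Real.exp (-((K + 1) ^ 2 / 2)) := by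
        field_simp
      rw [h5]
      exact mul_le_mul_of_nonneg_left (Real.exp_le_exp.2 h4) (by positivity)
    calc ENNReal.ofReal (cG K * (ε / max ε σ))
        = ENNReal.ofReal (cG K / σ) * ENNReal.ofReal δ := by
          rw [← ENNReal.ofReal_mul (div_nonneg (cG_pos K).le hσ.le)]
          congr 1
          rcases le_total ε σ with h | h
          · rw [max_eq_right h, hδ, min_eq_left h]; ring
          · rw [max_eq_left h, hδ, min_eq_right h, div_self hε.ne']
            field_simp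
      _ = ∫⁻ _ in Icc a (a + δ), ENNReal.ofReal (cG K / σ) := by
          rw [setLIntegral_const, Real.volume_Icc]
          congr 2; ring
      _ ≤ ∫⁻ x in Icc a (a + δ), gaussianPDF 0 v x :=
          setLIntegral_mono (measurable_gaussianPDF 0 v) hpdf

/-! ### Random variables -/

variable {Ω : Type*} [MeasurableSpace Ω] {P : Measure Ω} [IsProbabilityMeasure P]

omit [IsProbabilityMeasure P] in
lemma map_gaussian {X : Ω → ℝ} (hX : HasGaussianLaw X P) (h0 : P[X] = 0) :
    P.map X = gaussianReal 0 (Var[X; P]).toNNReal := by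
  rw [hX.map_eq_gaussianReal, h0]

lemma pair_le {U V : Ω → ℝ} (hUm : Measurable U) (hVm : Measurable V)
    (hUV : HasGaussianLaw (fun ω => (U ω, V ω)) P) (hU0 : P[U] = 0) (hV0 : P[V] = 0)
    {ε a τ : ℝ} (hε : 0 < ε) (ha : 0 < a) (hV : a ^ 2 ≤ Var[V; P])
    (hdet : τ ^ 2 * Var[V; P] ≤ Var[U; P] * Var[V; P] - cov[U, V; P] ^ 2) :
    P {ω | |U ω| ≤ ε ∧ |V ω| ≤ ε} ≤ ENNReal.ofReal (ε / a * (ε / max ε τ)) := by
  have hVpos : 0 < Var[V; P] := lt_of_lt_of_le (by positivity) hV
  set ρ : ℝ := cov[U, V; P] / Var[V; P] with hρ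
  set N : Ω → ℝ := fun ω => U ω - ρ * V ω with hN
  have hNm : Measurable N := hUm.sub (hVm.const_mul ρ)
  have hU2 : MemLp U 2 P := hUV.fst.memLp_two
  have hV2 : MemLp V 2 P := hUV.snd.memLp_two
  have hρV : MemLp (fun ω => ρ * V ω) 2 P := hV2.const_mul ρ
  -- joint law of `N` and `V`
  set L : ℝ × ℝ →L[ℝ] ℝ × ℝ :=
    (ContinuousLinearMap.fst ℝ ℝ ℝ - ρ • ContinuousLinearMap.snd ℝ ℝ ℝ).prod
      (ContinuousLinearMap.snd ℝ ℝ ℝ) with hL
  have hNV : HasGaussianLaw (fun ω => (N ω, V ω)) P := by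
    have := hUV.map_fun L
    simpa [hL, hN] using this
  have hcov : cov[N, V; P] = 0 := by
    have h1 : N = U - fun ω => ρ * V ω := rfl
    rw [h1, covariance_sub_left hU2 hρV hV2, covariance_const_mul_left, covariance_self
      hVm.aemeasurable, hρ]
    field_simp
    ring
  have hind : IndepFun N V P := hNV.indepFun_of_covariance_eq_zero hcov
  have hN0 : P[N] = 0 := by
    simp only [hN]
    rw [integral_sub hUV.fst.integrable (hUV.snd.integrable.const_mul ρ), integral_const_mul,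
      hU0, hV0]
    simp
  have hvarN : τ ^ 2 ≤ Var[N; P] := by
    have h1 : Var[N; P] = Var[U; P] - cov[U, V; P] ^ 2 / Var[V; P] := by
      rw [← covariance_self hNm.aemeasurable]
      have h2 : N = U - fun ω => ρ * V ω := rfl
      conv_lhs => rw [h2]
      rw [covariance_sub_left hU2 hρV (hU2.sub hρV), covariance_const_mul_left, ← h2]
      have h3 : cov[V, N; P] = 0 := by rw [covariance_comm]; exact hcov
      rw [h3, mul_zero, sub_zero, h2, covariance_sub_right hU2 hU2 hρV,
        covariance_const_mul_right, covariance_self hUm.aemeasurable, hρ]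
      ring
    rw [h1, le_sub_iff_add_le, ← le_sub_iff_add_le', div_le_iff₀ hVpos]
    nlinarith
  have hNlaw := map_gaussian hNV.fst hN0
  have hVlaw := map_gaussian hNV.snd hV0
  have hprod : P.map (fun ω => (N ω, V ω)) = (P.map N).prod (P.map V) :=
    (indepFun_iff_map_prod_eq_prod_map_map hNm.aemeasurable hVm.aemeasurable).1 hind
  set S : Set (ℝ × ℝ) := {q | |q.1 + ρ * q.2| ≤ ε ∧ |q.2| ≤ ε} with hS
  have hSm : MeasurableSet S := by
    have e1 : Measurable fun q : ℝ × ℝ => |q.1 + ρ * q.2| := by fun_prop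
    have e2 : Measurable fun q : ℝ × ℝ => |q.2| := by fun_prop
    exact (measurableSet_le e1 measurable_const).inter (measurableSet_le e2 measurable_const)
  have h1 : {ω | |U ω| ≤ ε ∧ |V ω| ≤ ε} = (fun ω => (N ω, V ω)) ⁻¹' S := by
    ext ω
    simp only [hS, mem_preimage, mem_ofPred_eq, hN, sub_add_cancel]
  rw [h1, ← Measure.map_apply (hNm.prodMk hVm) hSm, hprod, Measure.prod_apply_symm hSm]
  have h2 : ∀ v : ℝ, (P.map N) ((fun n => (n, v)) ⁻¹' S) ≤
      {v : ℝ | |v + 0| ≤ ε}.indicator (fun _ => ENNReal.ofReal (ε / max ε τ)) v := by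
    intro v
    by_cases hv : |v + 0| ≤ ε
    · rw [indicator_of_mem (by exact hv)]
      refine (measure_mono (t := {x | |x + ρ * v| ≤ ε}) fun n hn => hn.1).trans ?_
      rw [hNlaw]
      refine gaussian_le' hε ?_ _
      rw [Real.coe_toNNReal _ (variance_nonneg _ _)]
      exact hvarN
    · rw [indicator_of_notMem (by exact hv)]
      have : (fun n => (n, v)) ⁻¹' S = ∅ := by
        ext n
        simp only [hS, mem_preimage, mem_ofPred_eq, mem_empty_iff_false, iff_false, not_and]
        intro _ h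
        exact hv (by simpa using h)
      rw [this, measure_empty]
  have hSV : MeasurableSet {v : ℝ | |v + 0| ≤ ε} := measurableSet_le (by fun_prop) measurable_const
  calc ∫⁻ v, (P.map N) ((fun n => (n, v)) ⁻¹' S) ∂(P.map V)
      ≤ ∫⁻ v, {v : ℝ | |v + 0| ≤ ε}.indicator (fun _ => ENNReal.ofReal (ε / max ε τ)) v
          ∂(P.map V) := lintegral_mono h2
    _ = ENNReal.ofReal (ε / max ε τ) * (P.map V) {v : ℝ | |v + 0| ≤ ε} := by
        rw [lintegral_indicator_const hSV]
    _ ≤ ENNReal.ofReal (ε / max ε τ) * ENNReal.ofReal (ε / a) := by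
        gcongr
        rw [hVlaw]
        refine (gaussian_le ?_ 0).trans (ENNReal.ofReal_le_ofReal ?_)
        · simpa using hVpos
        · rw [Real.coe_toNNReal _ (variance_nonneg _ _)]
          have : a ≤ √(Var[V; P]) := Real.le_sqrt_of_sq_le hV
          gcongr
    _ = ENNReal.ofReal (ε / a * (ε / max ε τ)) := by
        rw [← ENNReal.ofReal_mul (by positivity)]
        congr 1; ring

omit [IsProbabilityMeasure P] in
lemma measure_forall_eq_prod {ι E : Type*} [Fintype ι] [MeasurableSpace E] {X : ι → Ω → E}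
    (h : iIndepFun X P) {S : ι → Set E} (hS : ∀ i, MeasurableSet (S i)) :
    P {ω | ∀ i, X i ω ∈ S i} = ∏ i, P {ω | X i ω ∈ S i} := by
  have h1 := h.measure_inter_preimage_eq_mul Finset.univ (sets := S) (fun i _ => hS i)
  have h2 : {ω | ∀ i, X i ω ∈ S i} = ⋂ i ∈ Finset.univ, X i ⁻¹' S i := by
    ext ω; simp
  rw [h2, h1]
  rfl

end Pool.Agent.Helper97.Sheet
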