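import Pool.Agent.Helper97.Sheet.Core2

open MeasureTheory ProbabilityTheory Set Filter
open scoped ENNReal NNReal Topology

namespace Pool.Agent.Helper97.Sheet

/-! ### The kernel -/

lemma kernelU_half {d : ℕ} (hd : 1 ≤ d) (r : ℝ) :
    kernelU ((d : ℝ) / 2) r = ENNReal.ofReal r ^ (-((d : ℝ) / 2)) := by
  unfold kernelU
  rw [if_pos]
  have : (1 : ℝ) ≤ d := by exact_mod_cast hd
  linarith

lemma kernelU_half_zero {d : ℕ} (hd : 1 ≤ d) : kernelU ((d : ℝ) / 2) 0 = ∞ := by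
  rw [kernelU_half hd, ENNReal.ofReal_zero, ENNReal.zero_rpow_of_neg]
  have : (1 : ℝ) ≤ d := by exact_mod_cast hd
  linarith

lemma kernelU_half_pos {d : ℕ} (hd : 1 ≤ d) {r : ℝ} (hr : 0 < r) :
    kernelU ((d : ℝ) / 2) r = ENNReal.ofReal ((√r)⁻¹ ^ d) := by
  rw [kernelU_half hd, ENNReal.ofReal_rpow_of_pos hr]
  congr 1
  rw [Real.rpow_neg hr.le, inv_pow, Real.sqrt_eq_rpow, ← Real.rpow_natCast, ← Real.rpow_mul hr.le]
  congr 2
  ring

lemma κ₁_le_kernelU {d : ℕ} (hd : 1 ≤ d) {ε r : ℝ} (hε : 0 < ε) (hr : 0 ≤ r) :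
    ENNReal.ofReal (κ₁ ε r ^ d) ≤ kernelU ((d : ℝ) / 2) r := by
  rcases hr.eq_or_lt with rfl | hr
  · rw [kernelU_half_zero hd]; exact le_top
  · rw [kernelU_half_pos hd hr]
    apply ENNReal.ofReal_le_ofReal
    have h1 : 0 < √r := Real.sqrt_pos.2 hr
    have h2 : κ₁ ε r ≤ (√r)⁻¹ := by
      unfold κ₁
      exact inv_anti₀ h1 (le_max_right _ _)
    exact pow_le_pow_left₀ (κ₁_pos hε r).le h2 d

lemma κ₁_anti {ε ε' : ℝ} (hε : 0 < ε) (h : ε ≤ ε') (r : ℝ) : κ₁ ε' r ≤ κ₁ ε r := by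
  unfold κ₁
  exact inv_anti₀ (lt_max_of_lt_left hε) (max_le_max_right _ h)

lemma kernelU_le_liminf {d : ℕ} (hd : 1 ≤ d) {r : ℝ} (hr : 0 ≤ r) :
    kernelU ((d : ℝ) / 2) r ≤
      liminf (fun n : ℕ => ENNReal.ofReal (κ₁ (1 / ((n : ℝ) + 1)) r ^ d)) atTop := by
  rcases hr.eq_or_lt with rfl | hr
  · have h1 : Tendsto (fun n : ℕ => ENNReal.ofReal (κ₁ (1 / ((n : ℝ) + 1)) 0 ^ d)) atTop
        (𝓝 ∞) := by
      refine ENNReal.tendsto_ofReal_atTop.comp ?_
      have h2 : ∀ n : ℕ, κ₁ (1 / ((n : ℝ) + 1)) 0 ^ d = ((n : ℝ) + 1) ^ d := by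
        intro n
        unfold κ₁
        rw [Real.sqrt_zero, max_eq_left (by positivity), one_div, inv_inv]
      simp_rw [h2]
      refine tendsto_atTop_mono (f := fun n : ℕ => (n : ℝ)) (fun n => ?_)
        tendsto_natCast_atTop_atTop
      have h3 : (1 : ℝ) ≤ (n : ℝ) + 1 := by
        have : (0 : ℝ) ≤ n := Nat.cast_nonneg n
        linarith
      calc (n : ℝ) ≤ ((n : ℝ) + 1) ^ 1 := by rw [pow_one]; linarith
        _ ≤ ((n : ℝ) + 1) ^ d := pow_le_pow_right₀ h3 hd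
    rw [h1.liminf_eq]; exact le_top
  · rw [kernelU_half_pos hd hr]
    refine le_liminf_of_le (by isBoundedDefault) ?_
    have h1 : 0 < √r := Real.sqrt_pos.2 hr
    have h2 : Tendsto (fun n : ℕ => 1 / ((n : ℝ) + 1)) atTop (𝓝 0) :=
      tendsto_one_div_add_atTop_nhds_zero_nat
    filter_upwards [h2.eventually (gt_mem_nhds h1)] with n hn
    apply ENNReal.ofReal_le_ofReal
    unfold κ₁
    rw [max_eq_right (le_of_lt hn)]

lemma measurable_kernelU (β : ℝ) : Measurable (kernelU β) := by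
  unfold kernelU
  split_ifs with h1 h2
  · exact ENNReal.measurable_ofReal.pow_const _
  · refine Measurable.ite (measurableSet_singleton 0) measurable_const ?_
    exact (Real.measurable_log.comp (measurable_const.div measurable_id)).ennreal_ofReal
  · exact measurable_const

lemma continuous_κ₁ {ε : ℝ} (hε : 0 < ε) : Continuous (κ₁ ε) := by
  unfold κ₁
  refine Continuous.inv₀ (by fun_prop) fun r => ?_
  exact (lt_max_of_lt_left hε).ne'

/-! ### Measurability of events -/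

variable {Ω : Type*} [MeasurableSpace Ω] {P : Measure Ω} {d : ℕ}

lemma measurableSet_forall_le {S : Type*} [TopologicalSpace S] [TopologicalSpace.SeparableSpace S]
    {f : S → Ω → ℝ} (hf : ∀ x, Measurable (f x)) (hc : ∀ ω, Continuous fun x => f x ω) (c : ℝ) :
    MeasurableSet {ω | ∀ x, f x ω ≤ c} := by
  obtain ⟨D, hDc, hD⟩ := TopologicalSpace.exists_countable_dense S
  have e : {ω | ∀ x, f x ω ≤ c} = ⋂ x ∈ D, {ω | f x ω ≤ c} := by
    ext ω
    simp only [mem_ofPred_eq, mem_iInter]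
    refine ⟨fun h x _ => h x, fun h x => ?_⟩
    have hcl : IsClosed {x | f x ω ≤ c} := isClosed_le (hc ω) continuous_const
    have h1 : D ⊆ {x | f x ω ≤ c} := fun y hy => h y hy
    have h2 : closure D ⊆ {x | f x ω ≤ c} := hcl.closure_subset_iff.2 h1
    exact h2 (hD x)
  rw [e]
  exact MeasurableSet.biInter hDc fun x _ => measurableSet_le (hf x) measurable_const

/-- The total size of the difference field. -/
noncomputable def Ws (X : Fin d → ℝ → ℝ → Ω → ℝ) (x : E3) (ω : Ω) : ℝ := ∑ i, |W X i x ω|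

omit [MeasurableSpace Ω] in
lemma Ws_nonneg (X : Fin d → ℝ → ℝ → Ω → ℝ) (x : E3) (ω : Ω) : 0 ≤ Ws X x ω :=
  Finset.sum_nonneg fun _ _ => abs_nonneg _

omit [MeasurableSpace Ω] in
lemma abs_W_le (X : Fin d → ℝ → ℝ → Ω → ℝ) (i : Fin d) (x : E3) (ω : Ω) :
    |W X i x ω| ≤ Ws X x ω :=
  Finset.single_le_sum (f := fun i => |W X i x ω|) (fun _ _ => abs_nonneg _) (Finset.mem_univ i)

omit [MeasurableSpace Ω] in
lemma Ws_eq_zero {X : Fin d → ℝ → ℝ → Ω → ℝ} {x : E3} {ω : Ω} :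
    Ws X x ω = 0 ↔ ∀ i, W X i x ω = 0 := by
  unfold Ws
  rw [Finset.sum_eq_zero_iff_of_nonneg fun _ _ => abs_nonneg _]
  simp

variable {X : Fin d → ℝ → ℝ → Ω → ℝ}

namespace Nice

lemma continuous_W (hX : Nice X P) (i : Fin d) (ω : Ω) : Continuous fun x => W X i x ω := by
  unfold W
  have h1 : Continuous fun x : E3 => X i (x 0) (x 2) ω :=
    (hX.cont i ω).comp (by fun_prop : Continuous fun x : E3 => (x 0, x 2))
  have h2 : Continuous fun x : E3 => X i (x 0) (x 1) ω :=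
    (hX.cont i ω).comp (by fun_prop : Continuous fun x : E3 => (x 0, x 1))
  exact h1.sub h2

lemma continuous_Ws (hX : Nice X P) (ω : Ω) : Continuous fun x => Ws X x ω :=
  continuous_finsetSum _ fun i _ => (hX.continuous_W i ω).abs

lemma measurable_Ws (hX : Nice X P) (x : E3) : Measurable (Ws X x) :=
  Finset.measurable_sum _ fun i _ => continuous_abs.measurable.comp (hX.measurable_W i x)

end Nice

/-- The event that the difference field has a zero in `K`. -/
def hit (X : Fin d → ℝ → ℝ → Ω → ℝ) (K : Set E3) : Set Ω := {ω | ∃ x ∈ K, ∀ i, W X i x ω = 0}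

/-- The difference field is small somewhere in `K`. -/
def small (X : Fin d → ℝ → ℝ → Ω → ℝ) (K : Set E3) (c : ℝ) : Set Ω :=
  {ω | ∃ x ∈ K, Ws X x ω < c}

namespace Nice

lemma measurableSet_small (hX : Nice X P) (K : Set E3) (c : ℝ) :
    MeasurableSet (small X K c) := by
  have h := measurableSet_forall_le (S := K) (f := fun x ω => -Ws X x.1 ω)
    (fun x => (hX.measurable_Ws x.1).neg)
    (fun ω => ((hX.continuous_Ws ω).comp continuous_subtype_val).neg) (-c)
  have e : small X K c = {ω | ∀ x : K, -Ws X x.1 ω ≤ -c}ᶜ := by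
    ext ω
    simp only [small, mem_ofPred_eq, mem_compl_iff, not_forall, not_le]
    constructor
    · rintro ⟨x, hx, h⟩; exact ⟨⟨x, hx⟩, by linarith⟩
    · rintro ⟨⟨x, hx⟩, h⟩; exact ⟨x, hx, by linarith⟩
  rw [e]
  exact h.compl

lemma hit_eq (hX : Nice X P) {K : Set E3} (hK : IsCompact K) :
    hit X K = ⋂ n : ℕ, small X K (1 / ((n : ℝ) + 1)) := by
  ext ω
  simp only [hit, small, mem_ofPred_eq, mem_iInter]
  constructor
  · rintro ⟨x, hx, h⟩ n
    refine ⟨x, hx, ?_⟩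
    rw [Ws_eq_zero.2 h]
    positivity
  · intro h
    have hne : K.Nonempty := by obtain ⟨x, hx, _⟩ := h 0; exact ⟨x, hx⟩
    obtain ⟨x, hx, hmin⟩ := hK.exists_isMinOn hne (hX.continuous_Ws ω).continuousOn
    refine ⟨x, hx, Ws_eq_zero.1 ?_⟩
    by_contra h0
    have hpos : 0 < Ws X x ω := lt_of_le_of_ne (Ws_nonneg X x ω) (Ne.symm h0)
    obtain ⟨n, hn⟩ := exists_nat_one_div_lt hpos
    obtain ⟨y, hy, hy'⟩ := h n
    have : Ws X x ω ≤ Ws X y ω := hmin hy
    linarith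

lemma measurableSet_hit (hX : Nice X P) {K : Set E3} (hK : IsCompact K) :
    MeasurableSet (hit X K) := by
  rw [hX.hit_eq hK]
  exact MeasurableSet.iInter fun n => hX.measurableSet_small K _

end Nice

end Pool.Agent.Helper97.Sheet
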