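import Pool.Agent.Helper97.Sheet.Upper

open MeasureTheory ProbabilityTheory Set Filter
open scoped ENNReal NNReal Topology

namespace Pool.Agent.Helper97.Sheet

variable {Ω : Type*} [MeasurableSpace Ω] {P : Measure Ω} {d : ℕ}
  {X : Fin d → ℝ → ℝ → Ω → ℝ}

/-- Cauchy-Schwarz inequality for the second moment method. -/
lemma sq_lintegral_le [IsProbabilityMeasure P] {J : Ω → ℝ≥0∞} (hJ : Measurable J) :
    (∫⁻ ω, J ω ∂P) ^ 2 ≤ (∫⁻ ω, J ω ^ 2 ∂P) * P {ω | J ω ≠ 0} := by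
  have hS : MeasurableSet {ω | J ω ≠ 0} := (hJ (measurableSet_singleton 0)).compl
  have h1 := ENNReal.lintegral_mul_le_Lp_mul_Lq P Real.HolderConjugate.two_two hJ.aemeasurable
    (g := {ω | J ω ≠ 0}.indicator 1) (measurable_one.indicator hS).aemeasurable
  have h2 : ∫⁻ ω, (J * {ω | J ω ≠ 0}.indicator (1 : Ω → ℝ≥0∞)) ω ∂P = ∫⁻ ω, J ω ∂P := by
    refine lintegral_congr fun ω => ?_
    by_cases h : J ω = 0
    · rw [Pi.mul_apply, h, zero_mul]
    · rw [Pi.mul_apply, indicator_of_mem (by exact h), Pi.one_apply, mul_one]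
  have h3 : ∫⁻ ω, ({ω | J ω ≠ 0}.indicator (1 : Ω → ℝ≥0∞) ω) ^ (2 : ℝ) ∂P =
      P {ω | J ω ≠ 0} := by
    rw [← lintegral_indicator_one hS]
    refine lintegral_congr fun ω => ?_
    by_cases h : ω ∈ {ω | J ω ≠ 0}
    · rw [indicator_of_mem h]; simp
    · rw [indicator_of_notMem h]; simp
  rw [h2, h3] at h1
  have h4 : ∫⁻ ω, J ω ^ (2 : ℝ) ∂P = ∫⁻ ω, J ω ^ 2 ∂P := by
    refine lintegral_congr fun ω => ?_
    rw [← ENNReal.rpow_natCast]; norm_num
  rw [h4] at h1
  calc (∫⁻ ω, J ω ∂P) ^ 2 ≤ ((∫⁻ ω, J ω ^ 2 ∂P) ^ (1 / (2 : ℝ)) *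
        (P {ω | J ω ≠ 0}) ^ (1 / (2 : ℝ))) ^ 2 := by gcongr
    _ = (∫⁻ ω, J ω ^ 2 ∂P) * P {ω | J ω ≠ 0} := by
        rw [mul_pow, ← ENNReal.rpow_natCast, ← ENNReal.rpow_natCast, ← ENNReal.rpow_mul,
          ← ENNReal.rpow_mul]
        norm_num

namespace Nice

/-- The set of the pairs at which the difference field is small. -/
def smallSet (X : Fin d → ℝ → ℝ → Ω → ℝ) (ε : ℝ) : Set (E3 × Ω) :=
  {q | ∀ i, |W X i q.1 q.2| ≤ ε}

lemma measurableSet_smallSet (hX : Nice X P) (ε : ℝ) : MeasurableSet (smallSet X ε) := by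
  have e : smallSet X ε = ⋂ i, {q | |W X i q.1 q.2| ≤ ε} := by
    ext q; simp [smallSet]
  rw [e]
  refine MeasurableSet.iInter fun i => ?_
  have h1 : Measurable fun q : E3 × Ω => W X i q.1 q.2 :=
    measurable_uncurry_of_continuous_of_measurable (u := fun x ω => W X i x ω)
      (fun ω => hX.continuous_W i ω) (fun x => hX.measurable_W i x)
  exact measurableSet_le (continuous_abs.measurable.comp h1) measurable_const

lemma measurableSet_Wle (hX : Nice X P) (x : E3) (ε : ℝ) :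
    MeasurableSet {ω | ∀ i, |W X i x ω| ≤ ε} :=
  measurable_prodMk_left (hX.measurableSet_smallSet ε)

/-- First moment estimate. -/
lemma first_moment (hX : Nice X P) {R b : ℝ} (hR : 1 ≤ R) {x : E3} (hx : x ∈ Dom R b)
    {ε : ℝ} (hε : 0 < ε) (hε1 : ε ≤ 1) :
    ENNReal.ofReal ((cG 0 / (2 * R) * ε) ^ d) ≤ P {ω | ∀ i, |W X i x ω| ≤ ε} := by
  have := hX.isProb
  have hR0 : 0 < R := by linarith
  have hind := hX.iIndep (S := Unit) fun _ => lW x
  have hset : MeasurableSet {f : Unit → ℝ | |f ()| ≤ ε} := by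
    have e1 : Measurable fun f : Unit → ℝ => |f ()| := by fun_prop
    exact measurableSet_le e1 measurable_const
  have h1 := measure_forall_eq_prod hind (S := fun _ => {f : Unit → ℝ | |f ()| ≤ ε})
    (fun _ => hset)
  have h2 : {ω | ∀ i, |W X i x ω| ≤ ε} =
      {ω | ∀ i, (fun _ : Unit => (lW x).sum fun p a => a * X i p.1 p.2 ω) ∈
        {f : Unit → ℝ | |f ()| ≤ ε}} := by
    ext ω
    simp only [mem_ofPred_eq, ← W_eq]
  have hcG := cG_pos 0
  rw [h2, h1, ENNReal.ofReal_pow (by positivity)]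
  calc ENNReal.ofReal (cG 0 / (2 * R) * ε) ^ d
      = ∏ _i : Fin d, ENNReal.ofReal (cG 0 / (2 * R) * ε) := by
        rw [Finset.prod_const, Finset.card_univ, Fintype.card_fin]
    _ ≤ _ := by
        refine Finset.prod_le_prod' fun i _ => ?_
        have hlaw := map_gaussian (hX.gauss_W i x x).fst (hX.mean_W i x)
        have hvx : Var[W X i x; P] = KW x x := by
          rw [← covariance_self (hX.measurable_W i x).aemeasurable]
          exact hX.cov_W hR i hx hx
        have hlaw' : P.map (W X i x) = gaussianReal 0 (KW x x).toNNReal := by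
          rw [← hvx]; exact hlaw
        have h3 : {ω | (fun _ : Unit => (lW x).sum fun p a => a * X i p.1 p.2 ω) ∈
            {f : Unit → ℝ | |f ()| ≤ ε}} = W X i x ⁻¹' {t | |0 + t| ≤ ε} := by
          ext ω
          simp only [mem_ofPred_eq, mem_preimage, ← W_eq, zero_add]
        have hs : MeasurableSet {t : ℝ | |0 + t| ≤ ε} := measurableSet_le (by fun_prop)
          measurable_const
        rw [h3, ← Measure.map_apply (hX.measurable_W i x) hs, hlaw']
        have hK0 : 0 ≤ KW x x := le_trans (by positivity) (KW_self_ge hR hx)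
        have hsq : √((KW x x).toNNReal : ℝ) = √(KW x x) := by rw [Real.coe_toNNReal _ hK0]
        have h4 := gaussian_ge (v := (KW x x).toNNReal) (m := 0) (ε := ε) (K := 0) hε le_rfl
          (by simp [hε.le])
        rw [hsq] at h4
        refine le_trans (ENNReal.ofReal_le_ofReal ?_) h4
        have h5 : √(KW x x) ≤ 2 * R := by
          rw [Real.sqrt_le_left (by positivity)]
          have := KW_self_le hR hx
          nlinarith
        have h6 : max ε √(KW x x) ≤ 2 * R := max_le (by linarith) h5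
        have h7 : 0 < max ε √(KW x x) := lt_max_of_lt_left hε
        calc cG 0 / (2 * R) * ε = cG 0 * (ε / (2 * R)) := by ring
          _ ≤ cG 0 * (ε / max ε √(KW x x)) := by gcongr

/-- The second moment method. -/
lemma near_hit (hX : Nice X P) (hd : 1 ≤ d) {R b : ℝ} (hR : 1 ≤ R) {K : Set E3}
    (hKD : K ⊆ Dom R b) {μ : Measure E3} [IsProbabilityMeasure μ] (hμ : μ Kᶜ = 0)
    {ε : ℝ} (hε : 0 < ε) (hε1 : ε ≤ 1) :
    ENNReal.ofReal (((cG 0 / (2 * R)) ^ 2 / C2 R) ^ d) ≤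
      energy ((d : ℝ) / 2) μ * P {ω | ∃ x ∈ K, ∀ i, |W X i x ω| ≤ ε} := by
  have := hX.isProb
  have hR0 : 0 < R := by linarith
  have hcG := cG_pos 0
  have hC2 := C2_pos hR
  set A := smallSet X ε with hA
  have hAm : MeasurableSet A := hX.measurableSet_smallSet ε
  set f : E3 → Ω → ℝ≥0∞ := fun x ω => A.indicator 1 (x, ω) with hf
  have hfm : Measurable (Function.uncurry f) := measurable_one.indicator hAm
  have hfx : ∀ x, Measurable (f x) := fun x => hfm.comp measurable_prodMk_left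
  have hfω : ∀ ω, Measurable fun x => f x ω := fun ω => hfm.comp measurable_prodMk_right
  have hKae : ∀ᵐ x ∂μ, x ∈ K := hμ
  set J : Ω → ℝ≥0∞ := fun ω => ∫⁻ x, f x ω ∂μ with hJ
  have hfm' : Measurable fun q : Ω × E3 => f q.2 q.1 := hfm.comp measurable_swap
  have hJm : Measurable J := hfm'.lintegral_prod_right'
  have hint1 : ∀ x, ∫⁻ ω, f x ω ∂P = P {ω | ∀ i, |W X i x ω| ≤ ε} := by
    intro x
    rw [← lintegral_indicator_one (hX.measurableSet_Wle x ε)]
    rfl
  have hint2 : ∀ x y, ∫⁻ ω, f x ω * f y ω ∂P =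
      P {ω | (∀ i, |W X i x ω| ≤ ε) ∧ ∀ i, |W X i y ω| ≤ ε} := by
    intro x y
    have e0 : {ω | (∀ i, |W X i x ω| ≤ ε) ∧ ∀ i, |W X i y ω| ≤ ε} =
      {ω | ∀ i, |W X i x ω| ≤ ε} ∩ {ω | ∀ i, |W X i y ω| ≤ ε} := rfl
    rw [e0, ← lintegral_indicator_one ((hX.measurableSet_Wle x ε).inter
      (hX.measurableSet_Wle y ε))]
    refine lintegral_congr fun ω => ?_
    by_cases h1 : ω ∈ {ω | ∀ i, |W X i x ω| ≤ ε}
    · by_cases h2 : ω ∈ {ω | ∀ i, |W X i y ω| ≤ ε}
      · rw [indicator_of_mem (by exact ⟨h1, h2⟩)]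
        simp only [hf]
        rw [indicator_of_mem (by exact h1), indicator_of_mem (by exact h2)]
        simp
      · rw [indicator_of_notMem (s := {ω | ∀ i, |W X i x ω| ≤ ε} ∩ {ω | ∀ i, |W X i y ω| ≤ ε})
          (fun h => h2 h.2)]
        simp only [hf]
        rw [indicator_of_notMem (a := (y, ω)) (by exact h2), mul_zero]
    · rw [indicator_of_notMem (s := {ω | ∀ i, |W X i x ω| ≤ ε} ∩ {ω | ∀ i, |W X i y ω| ≤ ε})
        (fun h => h1 h.1)]
      simp only [hf]
      rw [indicator_of_notMem (a := (x, ω)) (by exact h1), zero_mul]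
  have hEJ : ENNReal.ofReal ((cG 0 / (2 * R) * ε) ^ d) ≤ ∫⁻ ω, J ω ∂P := by
    simp only [hJ]
    rw [← lintegral_lintegral_swap hfm.aemeasurable]
    calc ENNReal.ofReal ((cG 0 / (2 * R) * ε) ^ d)
        = ∫⁻ _, ENNReal.ofReal ((cG 0 / (2 * R) * ε) ^ d) ∂μ := by simp
      _ ≤ ∫⁻ x, ∫⁻ ω, f x ω ∂P ∂μ := by
          refine lintegral_mono_ae ?_
          filter_upwards [hKae] with x hx
          rw [hint1]
          exact hX.first_moment hR (hKD hx) hε hε1
  have hEJ2 : ∫⁻ ω, J ω ^ 2 ∂P ≤ ENNReal.ofReal ((C2 R * ε ^ 2) ^ d) *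
      energy ((d : ℝ) / 2) μ := by
    have e1 : ∀ ω, J ω ^ 2 = ∫⁻ x, f x ω * J ω ∂μ := by
      intro ω
      rw [lintegral_mul_const _ (hfω ω), sq]
    simp_rw [e1]
    have hm1 : Measurable (Function.uncurry fun ω x => f x ω * J ω) :=
      hfm'.mul (hJm.comp measurable_fst)
    rw [lintegral_lintegral_swap hm1.aemeasurable]
    unfold energy
    have hUm : Measurable fun q : E3 × E3 => kernelU ((d : ℝ) / 2) (dist q.1 q.2) :=
      (measurable_kernelU _).comp measurable_dist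
    rw [← lintegral_const_mul _ hUm.lintegral_prod_right']
    refine lintegral_mono_ae ?_
    filter_upwards [hKae] with x hx
    have hUx : Measurable fun y : E3 => kernelU ((d : ℝ) / 2) (dist x y) :=
      (measurable_kernelU ((d : ℝ) / 2)).comp (measurable_const.dist measurable_id)
    have e2 : ∫⁻ ω, f x ω * J ω ∂P = ∫⁻ y, ∫⁻ ω, f x ω * f y ω ∂P ∂μ := by
      have hm2 : Measurable (Function.uncurry fun ω y => f x ω * f y ω) :=
        ((hfx x).comp measurable_fst).mul hfm'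
      rw [← lintegral_lintegral_swap hm2.aemeasurable]
      refine lintegral_congr fun ω => ?_
      rw [lintegral_const_mul _ (hfω ω)]
    rw [e2, ← lintegral_const_mul _ hUx]
    refine lintegral_mono_ae ?_
    filter_upwards [hKae] with y hy
    rw [hint2]
    refine (hX.second_moment hR (hKD hx) (hKD hy) hε).trans ?_
    rw [mul_pow _ (κ₁ _ _) d, ENNReal.ofReal_mul (by positivity)]
    gcongr
    exact κ₁_le_kernelU hd hε dist_nonneg
  have hsub : {ω | J ω ≠ 0} ⊆ {ω | ∃ x ∈ K, ∀ i, |W X i x ω| ≤ ε} := by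
    intro ω hω
    by_contra hno
    simp only [mem_ofPred_eq, not_exists, not_and] at hno
    apply hω
    simp only [hJ]
    rw [lintegral_eq_zero_iff (hfω ω)]
    filter_upwards [hKae] with x hx
    simp only [hf, Pi.zero_apply]
    exact indicator_of_notMem (s := A) (fun h : (x, ω) ∈ A => hno x hx h) _
  have hCS := sq_lintegral_le (P := P) hJm
  have hmain : ENNReal.ofReal ((cG 0 / (2 * R) * ε) ^ d) ^ 2 ≤
      ENNReal.ofReal ((C2 R * ε ^ 2) ^ d) *
        (energy ((d : ℝ) / 2) μ * P {ω | ∃ x ∈ K, ∀ i, |W X i x ω| ≤ ε}) := by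
    calc ENNReal.ofReal ((cG 0 / (2 * R) * ε) ^ d) ^ 2 ≤ (∫⁻ ω, J ω ∂P) ^ 2 := by gcongr
      _ ≤ (∫⁻ ω, J ω ^ 2 ∂P) * P {ω | J ω ≠ 0} := hCS
      _ ≤ (ENNReal.ofReal ((C2 R * ε ^ 2) ^ d) * energy ((d : ℝ) / 2) μ) *
          P {ω | ∃ x ∈ K, ∀ i, |W X i x ω| ≤ ε} := by gcongr
      _ = _ := by rw [mul_assoc]
  have e : ENNReal.ofReal ((cG 0 / (2 * R) * ε) ^ d) ^ 2 =
      ENNReal.ofReal ((C2 R * ε ^ 2) ^ d) *
        ENNReal.ofReal (((cG 0 / (2 * R)) ^ 2 / C2 R) ^ d) := by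
    rw [← ENNReal.ofReal_pow (by positivity), ← ENNReal.ofReal_mul (by positivity), ← pow_mul,
      mul_comm d 2, pow_mul, ← mul_pow]
    congr 2
    field_simp
  rw [e] at hmain
  have hne : ENNReal.ofReal ((C2 R * ε ^ 2) ^ d) ≠ 0 := (ENNReal.ofReal_pos.2 (by positivity)).ne'
  exact (ENNReal.mul_le_mul_iff_right hne ENNReal.ofReal_ne_top).1 hmain

/-- **The lower bound**: compact sets which carry a probability measure of finite energy are hit
with positive probability. -/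
theorem lower (hX : Nice X P) (hd : 1 ≤ d) {R b : ℝ} (hR : 1 ≤ R) {K : Set E3}
    (hK : IsCompact K) (hKD : K ⊆ Dom R b) {μ : Measure E3} [IsProbabilityMeasure μ]
    (hμ : μ Kᶜ = 0) (hE : energy ((d : ℝ) / 2) μ ≠ ∞) : 0 < P (hit X K) := by
  have := hX.isProb
  have hR0 : 0 < R := by linarith
  have hcG := cG_pos 0
  have hC2 := C2_pos hR
  set p₀ : ℝ≥0∞ := ENNReal.ofReal (((cG 0 / (2 * R)) ^ 2 / C2 R) ^ d) /
    energy ((d : ℝ) / 2) μ with hp₀
  have hnum : 0 < ENNReal.ofReal (((cG 0 / (2 * R)) ^ 2 / C2 R) ^ d) :=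
    ENNReal.ofReal_pos.2 (by positivity)
  have hp₀pos : 0 < p₀ := ENNReal.div_pos hnum.ne' hE
  have hsm : ∀ n : ℕ, p₀ ≤ P (small X K (1 / ((n : ℝ) + 1))) := by
    intro n
    set ε : ℝ := 1 / (((d : ℝ) + 1) * ((n : ℝ) + 1)) with hε
    have hε0 : 0 < ε := by positivity
    have hε1 : ε ≤ 1 := by
      rw [hε, div_le_one (by positivity)]
      have h1 : (1 : ℝ) ≤ (d : ℝ) + 1 := by linarith [(Nat.cast_nonneg d : (0 : ℝ) ≤ d)]
      have h2 : (1 : ℝ) ≤ (n : ℝ) + 1 := by linarith [(Nat.cast_nonneg n : (0 : ℝ) ≤ n)]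
      nlinarith
    have h1 := hX.near_hit hd hR hKD hμ hε0 hε1
    have h2 : {ω | ∃ x ∈ K, ∀ i, |W X i x ω| ≤ ε} ⊆ small X K (1 / ((n : ℝ) + 1)) := by
      rintro ω ⟨x, hx, h⟩
      refine ⟨x, hx, ?_⟩
      calc Ws X x ω ≤ ∑ _i : Fin d, ε := Finset.sum_le_sum fun i _ => h i
        _ = d * ε := by simp
        _ < 1 / ((n : ℝ) + 1) := by
            rw [hε, mul_one_div, div_lt_div_iff₀ (by positivity) (by positivity)]
            nlinarith [(Nat.cast_nonneg n : (0 : ℝ) ≤ n)]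
    rw [hp₀]
    refine ENNReal.div_le_of_le_mul (h1.trans ?_)
    rw [mul_comm]
    gcongr
  rw [hX.hit_eq hK]
  have hlim : Tendsto (fun n : ℕ => P (small X K (1 / ((n : ℝ) + 1)))) atTop
      (𝓝 (P (⋂ n : ℕ, small X K (1 / ((n : ℝ) + 1))))) := by
    refine tendsto_measure_iInter_atTop (fun n => (hX.measurableSet_small K _).nullMeasurableSet)
      ?_ ⟨0, measure_ne_top _ _⟩
    intro n m hnm ω hω
    obtain ⟨x, hx, h⟩ := hω
    refine ⟨x, hx, h.trans_le ?_⟩
    gcongr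
  exact hp₀pos.trans_le (ge_of_tendsto' hlim hsm)

end Nice

end Pool.Agent.Helper97.Sheet
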