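import Pool.Agent.Helper97.Sheet.Gauss
import Pool.Agent.Helper97.Sheet.Defs

open MeasureTheory ProbabilityTheory Set
open scoped ENNReal NNReal

namespace Pool.Agent.Helper97.Sheet

/-- The parameter space. -/
abbrev E3 := EuclideanSpace ℝ (Fin 3)

variable {Ω : Type*} [MeasurableSpace Ω] {P : Measure Ω} {d : ℕ}

/-- A version of the Brownian sheet which is indexed by `ℝ × ℝ` (only the nonnegative parameters
are used), with all paths continuous. -/
structure Nice (X : Fin d → ℝ → ℝ → Ω → ℝ) (P : Measure Ω) : Prop where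
  gauss : IsGaussianProcess (fun q : Fin d × ℝ × ℝ => X q.1 q.2.1 q.2.2) P
  meas : ∀ i s t, Measurable (X i s t)
  mean : ∀ i s t, P[X i s t] = 0
  cov_ne : ∀ i j, i ≠ j → ∀ s t s' t', cov[X i s t, X j s' t'; P] = 0
  cov_eq : ∀ i s t s' t', 0 ≤ s → 0 ≤ t → 0 ≤ s' → 0 ≤ t' →
    cov[X i s t, X i s' t'; P] = min s s' * min t t'
  cont : ∀ i ω, Continuous fun q : ℝ × ℝ => X i q.1 q.2 ω

/-- The difference field. -/
def W (X : Fin d → ℝ → ℝ → Ω → ℝ) (i : Fin d) (x : E3) (ω : Ω) : ℝ :=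
  X i (x 0) (x 2) ω - X i (x 0) (x 1) ω

/-- The domain in which we work. -/
def Dom (R b : ℝ) : Set E3 :=
  {x | 1 / R ≤ x 0 ∧ x 0 ≤ R ∧ 0 ≤ x 1 ∧ 1 / R ≤ b - x 1 ∧ b - x 1 ≤ R ∧
    1 / R ≤ x 2 - b ∧ x 2 - b ≤ R}

/-- The truncated one-dimensional kernel. -/
noncomputable def κ₁ (ε r : ℝ) : ℝ := (max ε √r)⁻¹

lemma κ₁_pos {ε : ℝ} (hε : 0 < ε) (r : ℝ) : 0 < κ₁ ε r := by
  unfold κ₁
  have : 0 < max ε √r := lt_max_of_lt_left hε
  positivity

/-! ### Distances -/

lemma abs_le_dist (x y : E3) (k : Fin 3) : |x k - y k| ≤ dist x y := by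
  rw [EuclideanSpace.dist_eq]
  apply Real.le_sqrt_of_sq_le
  have h := Finset.single_le_sum (f := fun k => dist (x k) (y k) ^ 2)
    (fun k _ => by positivity) (Finset.mem_univ k)
  rw [Real.dist_eq] at h
  exact h

lemma dist_le_sum (x y : E3) : dist x y ≤ |x 0 - y 0| + |x 1 - y 1| + |x 2 - y 2| := by
  rw [EuclideanSpace.dist_eq]
  apply Real.sqrt_le_iff.2
  refine ⟨by positivity, ?_⟩
  rw [Fin.sum_univ_three]
  have h : ∀ k, dist (x k) (y k) ^ 2 = |x k - y k| ^ 2 := fun k => by rw [Real.dist_eq]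
  rw [h, h, h]
  nlinarith [mul_nonneg (abs_nonneg (x 0 - y 0)) (abs_nonneg (x 1 - y 1)),
    mul_nonneg (abs_nonneg (x 0 - y 0)) (abs_nonneg (x 2 - y 2)),
    mul_nonneg (abs_nonneg (x 1 - y 1)) (abs_nonneg (x 2 - y 2))]

/-! ### Covariances -/

/-- The covariance of the difference field. -/
noncomputable def KW (x y : E3) : ℝ := min (x 0) (y 0) * (min (x 2) (y 2) - max (x 1) (y 1))

lemma det_aux {V V' c D r : ℝ} (hc0 : 0 ≤ c) (hc : c ≤ V) (hc' : c ≤ V')
    (hV : r * V' ≤ V) (hr1 : r ≤ 1) (hD0 : 0 ≤ D) (hD : D ≤ V + V' - 2 * c) :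
    D / 2 * r * V' ≤ V * V' - c ^ 2 := by
  have hV0 : 0 ≤ V := hc0.trans hc
  have hV'0 : 0 ≤ V' := hc0.trans hc'
  rcases le_total V V' with h | h
  · have h1 : V * V' - c ^ 2 ≥ V * (V' - c) := by nlinarith
    have h2 : V * (V' - c) ≥ V * (D / 2) := by
      apply mul_le_mul_of_nonneg_left _ hV0
      linarith
    have h3 : D / 2 * (r * V') ≤ D / 2 * V := mul_le_mul_of_nonneg_left hV (by linarith)
    nlinarith
  · have h1 : V * V' - c ^ 2 ≥ V' * (V - c) := by nlinarith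
    have h2 : V' * (V - c) ≥ V' * (D / 2) := by
      apply mul_le_mul_of_nonneg_left _ hV'0
      linarith
    have h3 : D / 2 * r * V' ≤ D / 2 * 1 * V' := by
      apply mul_le_mul_of_nonneg_right _ hV'0
      exact mul_le_mul_of_nonneg_left hr1 (by linarith)
    nlinarith

lemma Dom.bounds {R b : ℝ} (hR : 1 ≤ R) {x : E3} (hx : x ∈ Dom R b) :
    0 < x 0 ∧ 0 ≤ x 1 ∧ x 1 < b ∧ b < x 2 ∧ 0 < 1 / R := by
  obtain ⟨h1, h2, h3, h4, h5, h6, h7⟩ := hx
  have hR0 : 0 < 1 / R := by positivity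
  exact ⟨by linarith, h3, by linarith, by linarith, hR0⟩

lemma KW_self (x : E3) : KW x x = x 0 * (x 2 - x 1) := by simp [KW]

lemma KW_comm (x y : E3) : KW x y = KW y x := by
  unfold KW
  rw [min_comm (x 0), min_comm (x 2), max_comm (x 1)]

lemma KW_self_ge {R b : ℝ} (hR : 1 ≤ R) {x : E3} (hx : x ∈ Dom R b) : 1 / R ^ 2 ≤ KW x x := by
  obtain ⟨h1, h2, h3, h4, h5, h6, h7⟩ := hx
  rw [KW_self]
  have hR0 : 0 < 1 / R := by positivity
  have h8 : 1 / R ≤ x 2 - x 1 := by linarith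
  calc 1 / R ^ 2 = (1 / R) * (1 / R) := by ring
    _ ≤ x 0 * (x 2 - x 1) := mul_le_mul h1 h8 hR0.le (by linarith)

lemma KW_self_le {R b : ℝ} (hR : 1 ≤ R) {x : E3} (hx : x ∈ Dom R b) : KW x x ≤ 2 * R ^ 2 := by
  obtain ⟨h1, h2, h3, h4, h5, h6, h7⟩ := hx
  rw [KW_self]
  have hR0 : 0 < 1 / R := by positivity
  have h8 : x 2 - x 1 ≤ 2 * R := by linarith
  have h9 : 0 ≤ x 2 - x 1 := by linarith
  calc x 0 * (x 2 - x 1) ≤ R * (2 * R) := mul_le_mul h2 h8 h9 (by linarith)
    _ = 2 * R ^ 2 := by ring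

lemma KW_nonneg {R b : ℝ} (hR : 1 ≤ R) {x y : E3} (hx : x ∈ Dom R b) (hy : y ∈ Dom R b) :
    0 ≤ KW x y := by
  obtain ⟨h1, h2, h3, h4, h5⟩ := Dom.bounds hR hx
  obtain ⟨h1', h2', h3', h4', h5'⟩ := Dom.bounds hR hy
  unfold KW
  refine mul_nonneg (le_min h1.le h1'.le) (sub_nonneg.2 ?_)
  exact max_le (le_min (by linarith) (by linarith)) (le_min (by linarith) (by linarith))

lemma KW_le {R b : ℝ} (hR : 1 ≤ R) {x y : E3} (hx : x ∈ Dom R b) (hy : y ∈ Dom R b) :
    KW x y ≤ KW x x := by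
  obtain ⟨h1, h2, h3, h4, h5⟩ := Dom.bounds hR hx
  obtain ⟨h1', h2', h3', h4', h5'⟩ := Dom.bounds hR hy
  rw [KW_self]
  unfold KW
  refine mul_le_mul (min_le_left _ _) ?_ (sub_nonneg.2 ?_) h1.le
  · have := min_le_left (x 2) (y 2)
    have := le_max_left (x 1) (y 1)
    linarith
  · exact max_le (le_min (by linarith) (by linarith)) (le_min (by linarith) (by linarith))

lemma dist_le_KW {R b : ℝ} (hR : 1 ≤ R) {x y : E3} (hx : x ∈ Dom R b) (hy : y ∈ Dom R b) :
    dist x y / R ≤ KW x x + KW y y - 2 * KW x y := by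
  obtain ⟨h1, h2, h3, h4, h5⟩ := Dom.bounds hR hx
  obtain ⟨h1', h2', h3', h4', h5'⟩ := Dom.bounds hR hy
  have hxR : 1 / R ≤ x 0 := hx.1
  have hyR : 1 / R ≤ y 0 := hy.1
  have hx4 : 1 / R ≤ b - x 1 := hx.2.2.2.1
  have hy4 : 1 / R ≤ b - y 1 := hy.2.2.2.1
  have e2 : x 2 + y 2 - 2 * min (x 2) (y 2) = |x 2 - y 2| := by
    rcases le_total (x 2) (y 2) with h | h
    · rw [min_eq_left h, abs_of_nonpos (by linarith)]; ring
    · rw [min_eq_right h, abs_of_nonneg (by linarith)]; ring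
  have e1 : 2 * max (x 1) (y 1) - x 1 - y 1 = |x 1 - y 1| := by
    rcases le_total (x 1) (y 1) with h | h
    · rw [max_eq_right h, abs_of_nonpos (by linarith)]; ring
    · rw [max_eq_left h, abs_of_nonneg (by linarith)]; ring
  have hd := dist_le_sum x y
  have hR0 : (0 : ℝ) < R := by linarith
  have hfin : dist x y / R ≤ 1 / R * (|x 0 - y 0| + |x 1 - y 1| + |x 2 - y 2|) := by
    rw [div_eq_mul_one_div, mul_comm]
    exact mul_le_mul_of_nonneg_left hd h5.le
  refine hfin.trans ?_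
  rw [KW_self, KW_self]
  unfold KW
  rcases le_total (x 0) (y 0) with h | h
  · rw [min_eq_left h, abs_of_nonpos (show x 0 - y 0 ≤ 0 by linarith)]
    have h6 : 1 / R * (-(x 0 - y 0)) ≤ (y 0 - x 0) * (y 2 - y 1) := by
      have : 1 / R ≤ y 2 - y 1 := by linarith
      nlinarith
    have h7 : 1 / R * (|x 1 - y 1| + |x 2 - y 2|) ≤ x 0 * (|x 1 - y 1| + |x 2 - y 2|) :=
      mul_le_mul_of_nonneg_right hxR (by positivity)
    have h8 : x 0 * (x 2 - x 1) + y 0 * (y 2 - y 1) -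
        2 * (x 0 * (min (x 2) (y 2) - max (x 1) (y 1))) =
        (y 0 - x 0) * (y 2 - y 1) + x 0 * ((2 * max (x 1) (y 1) - x 1 - y 1) +
          (x 2 + y 2 - 2 * min (x 2) (y 2))) := by ring
    rw [h8, e1, e2]
    linarith
  · rw [min_eq_right h, abs_of_nonneg (show 0 ≤ x 0 - y 0 by linarith)]
    have h6 : 1 / R * (x 0 - y 0) ≤ (x 0 - y 0) * (x 2 - x 1) := by
      have : 1 / R ≤ x 2 - x 1 := by linarith
      nlinarith
    have h7 : 1 / R * (|x 1 - y 1| + |x 2 - y 2|) ≤ y 0 * (|x 1 - y 1| + |x 2 - y 2|) :=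
      mul_le_mul_of_nonneg_right hyR (by positivity)
    have h8 : x 0 * (x 2 - x 1) + y 0 * (y 2 - y 1) -
        2 * (y 0 * (min (x 2) (y 2) - max (x 1) (y 1))) =
        (x 0 - y 0) * (x 2 - x 1) + y 0 * ((2 * max (x 1) (y 1) - x 1 - y 1) +
          (x 2 + y 2 - 2 * min (x 2) (y 2))) := by ring
    rw [h8, e1, e2]
    linarith

lemma det_bound {R b : ℝ} (hR : 1 ≤ R) {x y : E3} (hx : x ∈ Dom R b) (hy : y ∈ Dom R b) :
    dist x y / (4 * R ^ 5) * KW y y ≤ KW x x * KW y y - KW x y ^ 2 := by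
  have hR0 : (0 : ℝ) < R := by linarith
  have h := det_aux (V := KW x x) (V' := KW y y) (c := KW x y) (D := dist x y / R)
    (r := 1 / (2 * R ^ 4)) (KW_nonneg hR hx hy) (KW_le hR hx hy)
    (by rw [KW_comm]; exact KW_le hR hy hx) ?_ ?_ (by positivity)
    (dist_le_KW hR hx hy)
  · refine le_trans (le_of_eq ?_) h
    field_simp
    ring
  · have h1 := KW_self_ge hR hx
    have h2 := KW_self_le hR hy
    calc 1 / (2 * R ^ 4) * KW y y ≤ 1 / (2 * R ^ 4) * (2 * R ^ 2) :=
          mul_le_mul_of_nonneg_left h2 (by positivity)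
      _ = 1 / R ^ 2 := by field_simp
      _ ≤ KW x x := h1
  · rw [div_le_one (by positivity)]
    have : 1 ≤ R ^ 4 := one_le_pow₀ hR
    linarith

namespace Nice

variable {X : Fin d → ℝ → ℝ → Ω → ℝ}

lemma memLp (hX : Nice X P) (i : Fin d) (s t : ℝ) : MemLp (X i s t) 2 P :=
  (hX.gauss.hasGaussianLaw_eval (i, s, t)).memLp_two

lemma isProb (hX : Nice X P) : IsProbabilityMeasure P := hX.gauss.isProbabilityMeasure

/-- Linear combinations. -/
lemma linear (hX : Nice X P) {S : Type*} (l : S → (ℝ × ℝ) →₀ ℝ) :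
    IsGaussianProcess (fun (q : Fin d × S) ω => (l q.2).sum fun p a => a * X q.1 p.1 p.2 ω) P := by
  have h := IsGaussianProcess.linear hX.gauss (S := Fin d × S)
    (fun q => (l q.2).mapDomain fun p => (q.1, p))
  convert h using 2 with q
  funext ω
  rw [Finsupp.sum_mapDomain_index (by simp) (by intros; ring)]

lemma measurable_linear (hX : Nice X P) (l : (ℝ × ℝ) →₀ ℝ) (i : Fin d) :
    Measurable fun ω => l.sum fun p a => a * X i p.1 p.2 ω := by
  unfold Finsupp.sum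
  exact Finset.measurable_sum _ fun p _ => (hX.meas _ _ _).const_mul _

lemma iIndep (hX : Nice X P) {S : Type*} (l : S → (ℝ × ℝ) →₀ ℝ) :
    iIndepFun (fun i ω (k : S) => (l k).sum fun p a => a * X i p.1 p.2 ω) P := by
  have := hX.isProb
  refine IsGaussianProcess.iIndepFun_of_covariance_eq_zero (T := Fin d) (S := fun _ => S)
    (X := fun i k ω => (l k).sum fun p a => a * X i p.1 p.2 ω) ?_ ?_ ?_
  · have h := (hX.linear l).comp_right (fun q : (_ : Fin d) × S => (q.1, q.2))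
    exact h
  · exact fun i k => (hX.measurable_linear (l k) i).aemeasurable
  · intro i j hij k k'
    unfold Finsupp.sum
    rw [covariance_fun_sum_fun_sum' (fun p _ => (hX.memLp _ _ _).const_mul _)
      (fun p _ => (hX.memLp _ _ _).const_mul _)]
    refine Finset.sum_eq_zero fun p _ => Finset.sum_eq_zero fun p' _ => ?_
    rw [covariance_const_mul_left, covariance_const_mul_right, hX.cov_ne i j hij]
    ring

/-- The linear combination corresponding to the difference field. -/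
noncomputable def lW (x : E3) : (ℝ × ℝ) →₀ ℝ :=
  Finsupp.single (x 0, x 2) 1 + Finsupp.single (x 0, x 1) (-1)

omit [MeasurableSpace Ω] in
lemma W_eq (X : Fin d → ℝ → ℝ → Ω → ℝ) (i : Fin d) (x : E3) (ω : Ω) :
    W X i x ω = (lW x).sum fun p a => a * X i p.1 p.2 ω := by
  unfold lW W
  rw [Finsupp.sum_add_index' (by simp) (by intros; ring), Finsupp.sum_single_index (by simp),
    Finsupp.sum_single_index (by simp)]
  ring

lemma measurable_W (hX : Nice X P) (i : Fin d) (x : E3) : Measurable (W X i x) :=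
  (hX.meas _ _ _).sub (hX.meas _ _ _)

lemma memLp_W (hX : Nice X P) (i : Fin d) (x : E3) : MemLp (W X i x) 2 P :=
  (hX.memLp _ _ _).sub (hX.memLp _ _ _)

lemma mean_W (hX : Nice X P) (i : Fin d) (x : E3) : P[W X i x] = 0 := by
  have := hX.isProb
  unfold W
  rw [integral_sub ((hX.memLp _ _ _).integrable (by norm_num))
    ((hX.memLp _ _ _).integrable (by norm_num)), hX.mean, hX.mean, sub_zero]

lemma cov_W (hX : Nice X P) {R b : ℝ} (hR : 1 ≤ R) (i : Fin d) {x y : E3} (hx : x ∈ Dom R b)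
    (hy : y ∈ Dom R b) : cov[W X i x, W X i y; P] = KW x y := by
  have := hX.isProb
  obtain ⟨h1, h2, h3, h4, h5⟩ := Dom.bounds hR hx
  obtain ⟨h1', h2', h3', h4', h5'⟩ := Dom.bounds hR hy
  unfold W
  rw [covariance_fun_sub_fun_sub (hX.memLp _ _ _) (hX.memLp _ _ _) (hX.memLp _ _ _)
    (hX.memLp _ _ _), hX.cov_eq _ _ _ _ _ h1.le (by linarith) h1'.le (by linarith),
    hX.cov_eq _ _ _ _ _ h1.le (by linarith) h1'.le (by linarith),
    hX.cov_eq _ _ _ _ _ h1.le (by linarith) h1'.le (by linarith),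
    hX.cov_eq _ _ _ _ _ h1.le (by linarith) h1'.le (by linarith)]
  have e1 : min (x 2) (y 1) = y 1 := min_eq_right (by linarith)
  have e2 : min (x 1) (y 2) = x 1 := min_eq_left (by linarith)
  rw [e1, e2]
  unfold KW
  rcases le_total (x 1) (y 1) with h | h
  · rw [min_eq_left h, max_eq_right h]; ring
  · rw [min_eq_right h, max_eq_left h]; ring

lemma gauss_W (hX : Nice X P) (i : Fin d) (x y : E3) :
    HasGaussianLaw (fun ω => (W X i x ω, W X i y ω)) P := by
  have h := (hX.linear (S := Bool) fun k => if k then lW x else lW y).hasGaussianLaw_prodMk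
    (s := (i, true)) (t := (i, false))
  have e : (fun ω => (W X i x ω, W X i y ω)) = fun ω =>
      (((if ((i, true) : Fin d × Bool).2 = true then lW x else lW y).sum
        fun p a => a * X ((i, true) : Fin d × Bool).1 p.1 p.2 ω),
      ((if ((i, false) : Fin d × Bool).2 = true then lW x else lW y).sum
        fun p a => a * X ((i, false) : Fin d × Bool).1 p.1 p.2 ω)) := by
    funext ω
    simp only [if_true, W_eq]
    rfl
  rw [e]
  exact h

/-- The constant in the second moment estimate. -/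
noncomputable def C2 (R : ℝ) : ℝ := R * √(4 * R ^ 5)

lemma C2_pos {R : ℝ} (hR : 1 ≤ R) : 0 < C2 R := by
  unfold C2
  have : 0 < R := by linarith
  positivity

lemma pair_W (hX : Nice X P) {R b : ℝ} (hR : 1 ≤ R) (i : Fin d) {x y : E3} (hx : x ∈ Dom R b)
    (hy : y ∈ Dom R b) {ε : ℝ} (hε : 0 < ε) :
    P {ω | |W X i x ω| ≤ ε ∧ |W X i y ω| ≤ ε} ≤
      ENNReal.ofReal (C2 R * ε ^ 2 * κ₁ ε (dist x y)) := by
  have := hX.isProb
  have hR0 : (0 : ℝ) < R := by linarith
  set Q := √(4 * R ^ 5) with hQ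
  have hQ1 : 1 ≤ Q := by
    rw [hQ, Real.one_le_sqrt]
    have : 1 ≤ R ^ 5 := one_le_pow₀ hR
    linarith
  have hQ2 : Q ^ 2 = 4 * R ^ 5 := Real.sq_sqrt (by positivity)
  have hvy : Var[W X i y; P] = KW y y := by
    rw [← covariance_self (hX.measurable_W i y).aemeasurable]
    exact hX.cov_W hR i hy hy
  have hvx : Var[W X i x; P] = KW x x := by
    rw [← covariance_self (hX.measurable_W i x).aemeasurable]
    exact hX.cov_W hR i hx hx
  have h := pair_le (hX.measurable_W i x) (hX.measurable_W i y) (hX.gauss_W i x y)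
    (hX.mean_W i x) (hX.mean_W i y) (ε := ε) (a := 1 / R) (τ := √(dist x y) / Q) hε
    (by positivity) ?_ ?_
  · refine h.trans (ENNReal.ofReal_le_ofReal ?_)
    have h1 : (max ε √(dist x y)) / Q ≤ max ε (√(dist x y) / Q) := by
      rw [div_le_iff₀ (by linarith)]
      refine max_le ?_ ?_
      · calc ε = ε * 1 := by ring
          _ ≤ max ε (√(dist x y) / Q) * Q :=
            mul_le_mul (le_max_left _ _) hQ1 zero_le_one (le_max_of_le_left hε.le)
      · calc √(dist x y) = √(dist x y) / Q * Q := by field_simp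
          _ ≤ max ε (√(dist x y) / Q) * Q :=
            mul_le_mul_of_nonneg_right (le_max_right _ _) (by linarith)
    have hmax : 0 < max ε √(dist x y) := lt_max_of_lt_left hε
    calc ε / (1 / R) * (ε / max ε (√(dist x y) / Q))
        ≤ ε / (1 / R) * (ε / ((max ε √(dist x y)) / Q)) := by
          gcongr
      _ = C2 R * ε ^ 2 * κ₁ ε (dist x y) := by
          unfold C2 κ₁
          rw [← hQ]
          field_simp
  · rw [hvy]
    have := KW_self_ge hR hy
    calc (1 / R) ^ 2 = 1 / R ^ 2 := by ring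
      _ ≤ KW y y := this
  · rw [hvx, hvy, hX.cov_W hR i hx hy, div_pow, Real.sq_sqrt dist_nonneg, hQ2]
    exact det_bound hR hx hy

/-- The second moment estimate. -/
lemma second_moment (hX : Nice X P) {R b : ℝ} (hR : 1 ≤ R) {x y : E3} (hx : x ∈ Dom R b)
    (hy : y ∈ Dom R b) {ε : ℝ} (hε : 0 < ε) :
    P {ω | (∀ i, |W X i x ω| ≤ ε) ∧ ∀ i, |W X i y ω| ≤ ε} ≤
      ENNReal.ofReal ((C2 R * ε ^ 2 * κ₁ ε (dist x y)) ^ d) := by
  have := hX.isProb
  have hind := hX.iIndep (S := Bool) fun k => if k then lW x else lW y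
  have hset : MeasurableSet {f : Bool → ℝ | |f true| ≤ ε ∧ |f false| ≤ ε} := by
    have e1 : Measurable fun f : Bool → ℝ => |f true| := by fun_prop
    have e2 : Measurable fun f : Bool → ℝ => |f false| := by fun_prop
    exact (measurableSet_le e1 measurable_const).inter (measurableSet_le e2 measurable_const)
  have h1 := measure_forall_eq_prod hind (S := fun _ => {f : Bool → ℝ | |f true| ≤ ε ∧
    |f false| ≤ ε}) (fun _ => hset)
  have h2 : {ω | (∀ i, |W X i x ω| ≤ ε) ∧ ∀ i, |W X i y ω| ≤ ε} =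
      {ω | ∀ i, (fun k : Bool => (if k then lW x else lW y).sum
        fun p a => a * X i p.1 p.2 ω) ∈ {f : Bool → ℝ | |f true| ≤ ε ∧ |f false| ≤ ε}} := by
    ext ω
    simp only [mem_ofPred_eq, if_true, Bool.false_eq_true, if_false, ← W_eq]
    exact ⟨fun h i => ⟨h.1 i, h.2 i⟩, fun h => ⟨fun i => (h i).1, fun i => (h i).2⟩⟩
  rw [h2, h1, ENNReal.ofReal_pow (by
    have := C2_pos hR
    have := κ₁_pos hε (dist x y)
    positivity)]
  calc ∏ i : Fin d, P {ω | (fun k : Bool => (if k then lW x else lW y).sum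
        fun p a => a * X i p.1 p.2 ω) ∈ {f : Bool → ℝ | |f true| ≤ ε ∧ |f false| ≤ ε}}
      ≤ ∏ _i : Fin d, ENNReal.ofReal (C2 R * ε ^ 2 * κ₁ ε (dist x y)) := by
        refine Finset.prod_le_prod' fun i _ => ?_
        refine le_trans (le_of_eq ?_) (hX.pair_W hR i hx hy hε)
        congr 1
        ext ω
        simp only [mem_ofPred_eq, if_true, Bool.false_eq_true, if_false, ← W_eq]
    _ = ENNReal.ofReal (C2 R * ε ^ 2 * κ₁ ε (dist x y)) ^ d := by
        rw [Finset.prod_const, Finset.card_univ, Fintype.card_fin]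

end Nice

end Pool.Agent.Helper97.Sheet
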