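import Pool.Agent.Helper97.Sheet.Assemble

open MeasureTheory ProbabilityTheory Set Filter
open scoped ENNReal NNReal Topology

namespace Pool.Agent.Helper97.Sheet

/-! ### Riesz kernels as mixtures of Gaussian kernels -/

lemma kernelU_of_pos {β : ℝ} (hβ : 0 < β) (r : ℝ) :
    kernelU β r = ENNReal.ofReal r ^ (-β) := by
  unfold kernelU
  rw [if_pos hβ]

lemma kernelU_zero_of_nonneg {β : ℝ} (hβ : 0 ≤ β) : kernelU β 0 = ∞ := by
  unfold kernelU
  rcases hβ.eq_or_lt with rfl | h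
  · simp
  · rw [if_pos h, ENNReal.ofReal_zero, ENNReal.zero_rpow_of_neg (by linarith)]

lemma kernelU_antitone (β : ℝ) : AntitoneOn (kernelU β) (Ici 0) := by
  intro x hx y hy hxy
  rw [mem_Ici] at hx hy
  unfold kernelU
  by_cases h1 : 0 < β
  · rw [if_pos h1, if_pos h1, ENNReal.rpow_neg, ENNReal.rpow_neg]
    exact ENNReal.inv_le_inv.2 (ENNReal.rpow_le_rpow (ENNReal.ofReal_le_ofReal hxy) h1.le)
  rw [if_neg h1, if_neg h1]
  by_cases h2 : β = 0
  · rw [if_pos h2, if_pos h2]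
    rcases hx.eq_or_lt with rfl | hx'
    · simp
    · rw [if_neg (hx'.trans_le hxy).ne', if_neg hx'.ne']
      apply ENNReal.ofReal_le_ofReal
      apply Real.log_le_log (div_pos (Real.exp_pos _) (hx'.trans_le hxy))
      exact div_le_div_of_nonneg_left (Real.exp_pos _).le hx' hxy
  · rw [if_neg h2, if_neg h2]

/-- The mixture of Gaussian kernels. -/
noncomputable def mix (a r : ℝ) : ℝ≥0∞ :=
  ∫⁻ t in Ioi (0 : ℝ), ENNReal.ofReal (t ^ (a - 1)) * ENNReal.ofReal (Real.exp (-(r ^ 2 * t)))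

lemma mix_antitone (a : ℝ) : AntitoneOn (mix a) (Ici 0) := by
  intro x hx y hy hxy
  rw [mem_Ici] at hx hy
  unfold mix
  refine setLIntegral_mono' measurableSet_Ioi fun t ht => ?_
  rw [mem_Ioi] at ht
  gcongr

lemma mix_eq {a r : ℝ} (ha : 0 < a) (hr : 0 < r) :
    mix a r = ENNReal.ofReal (Real.Gamma a) * kernelU (2 * a) r := by
  have hr2 : 0 < r ^ 2 := by positivity
  have h1 := Real.integral_rpow_mul_exp_neg_mul_Ioi ha hr2
  have hint : IntegrableOn (fun t : ℝ => t ^ (a - 1) * Real.exp (-(r ^ 2 * t))) (Ioi 0) := by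
    have := integrableOn_rpow_mul_exp_neg_mul_rpow (s := a - 1) (p := 1) (b := r ^ 2)
      (by linarith) one_pos hr2
    simpa [neg_mul] using this
  unfold mix
  have h2 : ∫⁻ t in Ioi (0 : ℝ), ENNReal.ofReal (t ^ (a - 1)) *
      ENNReal.ofReal (Real.exp (-(r ^ 2 * t))) =
      ∫⁻ t in Ioi (0 : ℝ), ENNReal.ofReal (t ^ (a - 1) * Real.exp (-(r ^ 2 * t))) := by
    refine setLIntegral_congr_fun measurableSet_Ioi fun t ht => ?_
    rw [mem_Ioi] at ht
    rw [← ENNReal.ofReal_mul (by positivity)]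
  rw [h2, ← ofReal_integral_eq_lintegral_ofReal hint, h1, kernelU_of_pos (by linarith),
    ENNReal.ofReal_rpow_of_pos hr, mul_comm, ENNReal.ofReal_mul (Real.Gamma_pos_of_pos ha).le]
  · congr 2
    rw [one_div, Real.inv_rpow hr2.le, ← Real.rpow_natCast, ← Real.rpow_mul hr.le, Real.rpow_neg hr.le]
    congr 2
  · filter_upwards [ae_restrict_mem measurableSet_Ioi] with t ht
    rw [mem_Ioi] at ht
    show 0 ≤ t ^ (a - 1) * Real.exp (-(r ^ 2 * t))
    positivity

lemma mix_zero {a : ℝ} (ha : 0 < a) : mix a 0 = ∞ := by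
  have hΓ : 0 < Real.Gamma a := Real.Gamma_pos_of_pos ha
  refine ENNReal.eq_top_of_forall_nnreal_le fun C => ?_
  -- choose `r` small
  have h1 : Tendsto (fun n : ℕ => Real.Gamma a * ((n : ℝ) + 1) ^ (2 * a)) atTop atTop := by
    refine Tendsto.const_mul_atTop hΓ ?_
    refine (tendsto_rpow_atTop (by linarith : 0 < 2 * a)).comp ?_
    exact tendsto_atTop_add_const_right _ _ tendsto_natCast_atTop_atTop
  obtain ⟨n, hn⟩ := (h1.eventually (eventually_ge_atTop (C : ℝ))).exists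
  have hr : (0 : ℝ) < ((n : ℝ) + 1)⁻¹ := by positivity
  calc (C : ℝ≥0∞) = ENNReal.ofReal C := (ENNReal.ofReal_coe_nnreal).symm
    _ ≤ ENNReal.ofReal (Real.Gamma a * ((n : ℝ) + 1) ^ (2 * a)) := ENNReal.ofReal_le_ofReal hn
    _ = mix a ((n : ℝ) + 1)⁻¹ := by
        rw [mix_eq ha hr, kernelU_of_pos (by linarith), ENNReal.ofReal_rpow_of_pos hr,
          ENNReal.ofReal_mul hΓ.le]
        congr 2
        rw [Real.inv_rpow (by positivity), Real.rpow_neg (by positivity), inv_inv]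
    _ ≤ mix a 0 := mix_antitone a self_mem_Ici hr.le hr.le

lemma mix_eq' {a r : ℝ} (ha : 0 < a) (hr : 0 ≤ r) :
    mix a r = ENNReal.ofReal (Real.Gamma a) * kernelU (2 * a) r := by
  rcases hr.eq_or_lt with rfl | hr
  · rw [mix_zero ha, kernelU_zero_of_nonneg (by linarith), ENNReal.mul_top]
    simpa using Real.Gamma_pos_of_pos ha
  · exact mix_eq ha hr

/-! ### Gaussian kernels: shifts -/

/-- The Gaussian kernel. -/
noncomputable def gk (t : ℝ) (x : E3) : ℝ≥0∞ := ENNReal.ofReal (Real.exp (-(2 * t * ‖x‖ ^ 2)))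

lemma measurable_gk (t : ℝ) : Measurable (gk t) := by
  unfold gk; fun_prop

/-- The normalising constant. -/
noncomputable def gG (t : ℝ) : ℝ≥0∞ := ∫⁻ z : E3, ENNReal.ofReal (Real.exp (-(4 * t * ‖z‖ ^ 2)))

lemma gG_ne_top {t : ℝ} (ht : 0 < t) : gG t ≠ ∞ := by
  have h : Integrable (fun v : E3 => Complex.exp (-((4 * t : ℝ) : ℂ) * ‖v‖ ^ 2 + (0 : ℂ) *
      ((inner ℝ (0 : E3) v : ℝ) : ℂ))) :=
    GaussianFourier.integrable_cexp_neg_mul_sq_norm_add (V := E3) (b := ((4 * t : ℝ) : ℂ))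
      (by rw [Complex.ofReal_re]; linarith) 0 0
  have h2 := h.norm
  have h3 : ∀ v : E3, ‖Complex.exp (-((4 * t : ℝ) : ℂ) * ‖v‖ ^ 2 + (0 : ℂ) *
      ((inner ℝ (0 : E3) v : ℝ) : ℂ))‖ = Real.exp (-(4 * t * ‖v‖ ^ 2)) := by
    intro v
    rw [Complex.norm_exp]
    congr 1
    simp only [zero_mul, add_zero]
    rw [← Complex.ofReal_pow, ← Complex.ofReal_neg, ← Complex.ofReal_mul, Complex.ofReal_re]
    ring
  simp_rw [h3] at h2
  exact h2.lintegral_lt_top.ne

lemma gG_ne_zero (t : ℝ) : gG t ≠ 0 := by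
  unfold gG
  have hm : Measurable fun z : E3 => ENNReal.ofReal (Real.exp (-(4 * t * ‖z‖ ^ 2))) := by
    fun_prop
  have h1 : (0 : ℝ≥0∞) < ∫⁻ z : E3, ENNReal.ofReal (Real.exp (-(4 * t * ‖z‖ ^ 2))) := by
    rw [lintegral_pos_iff_support hm]
    have : Function.support (fun z : E3 => ENNReal.ofReal (Real.exp (-(4 * t * ‖z‖ ^ 2)))) =
        univ := by
      ext z
      simp [Function.mem_support, Real.exp_pos]
    rw [this]
    simp
  exact h1.ne'

lemma gk_mul (t : ℝ) (x y : E3) :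
    ∫⁻ z, gk t (x - z) * gk t (y - z) =
      ENNReal.ofReal (Real.exp (-(‖x - y‖ ^ 2 * t))) * gG t := by
  have h1 : ∀ z : E3, gk t (x - z) * gk t (y - z) =
      ENNReal.ofReal (Real.exp (-(‖x - y‖ ^ 2 * t))) *
        ENNReal.ofReal (Real.exp (-(4 * t * ‖z - (1 / 2 : ℝ) • (x + y)‖ ^ 2))) := by
    intro z
    unfold gk
    rw [← ENNReal.ofReal_mul (by positivity), ← ENNReal.ofReal_mul (by positivity),
      ← Real.exp_add, ← Real.exp_add]
    congr 2
    have hp := parallelogram_law_with_norm ℝ (x - z) (y - z)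
    have e1 : (x - z) - (y - z) = x - y := by abel
    have e2 : (x - z) + (y - z) = (-2 : ℝ) • (z - (1 / 2 : ℝ) • (x + y)) := by
      module
    rw [e1, e2, norm_smul] at hp
    have e3 : ‖(-2 : ℝ)‖ = 2 := by simp
    rw [e3] at hp
    linear_combination t * hp
  simp_rw [h1]
  rw [lintegral_const_mul _ (by fun_prop)]
  congr 1
  unfold gG
  exact lintegral_sub_right_eq_self
    (fun z : E3 => ENNReal.ofReal (Real.exp (-(4 * t * ‖z‖ ^ 2)))) ((1 / 2 : ℝ) • (x + y))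

/-- The double integral of a Gaussian kernel. -/
lemma double_gk (t : ℝ) (μ : Measure E3) [SFinite μ] (v : E3) :
    (∫⁻ x, ∫⁻ y, ENNReal.ofReal (Real.exp (-(‖x - y + v‖ ^ 2 * t))) ∂μ ∂μ) * gG t =
      ∫⁻ z, (∫⁻ x, gk t (x + v - z) ∂μ) * (∫⁻ y, gk t (y - z) ∂μ) := by
  have hmk := measurable_gk t
  have h1 : ∀ x y : E3, ENNReal.ofReal (Real.exp (-(‖x - y + v‖ ^ 2 * t))) * gG t =
      ∫⁻ z, gk t (x + v - z) * gk t (y - z) := by
    intro x y
    rw [gk_mul]
    congr 5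
    abel_nf
  have hm1 : Measurable fun p : E3 × E3 =>
      ENNReal.ofReal (Real.exp (-(‖p.1 - p.2 + v‖ ^ 2 * t))) := by fun_prop
  have hm2 : Measurable fun p : (E3 × E3) × E3 => gk t (p.1.1 + v - p.2) * gk t (p.1.2 - p.2) :=
    (hmk.comp (by fun_prop)).mul (hmk.comp (by fun_prop))
  have hm3 : ∀ z, Measurable fun x : E3 => gk t (x + v - z) := fun z => hmk.comp (by fun_prop)
  have hm4 : ∀ z, Measurable fun x : E3 => gk t (x - z) := fun z => hmk.comp (by fun_prop)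
  rw [← lintegral_mul_const _ hm1.lintegral_prod_right']
  have h2 : ∀ x : E3, (∫⁻ y, ENNReal.ofReal (Real.exp (-(‖x - y + v‖ ^ 2 * t))) ∂μ) * gG t =
      ∫⁻ z, ∫⁻ y, gk t (x + v - z) * gk t (y - z) ∂μ := by
    intro x
    rw [← lintegral_mul_const _ (by fun_prop)]
    simp_rw [h1]
    rw [lintegral_lintegral_swap]
    exact (hm2.comp (by fun_prop : Measurable fun p : E3 × E3 => ((x, p.1), p.2))).aemeasurable
  simp_rw [h2]
  rw [lintegral_lintegral_swap]
  · refine lintegral_congr fun z => ?_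
    have h3 : ∀ x : E3, ∫⁻ y, gk t (x + v - z) * gk t (y - z) ∂μ =
        gk t (x + v - z) * ∫⁻ y, gk t (y - z) ∂μ := fun x => by
      rw [lintegral_const_mul _ (hm4 z)]
    simp_rw [h3]
    rw [lintegral_mul_const _ (hm3 z)]
  · have := (hm2.comp (by fun_prop : Measurable fun p : (E3 × E3) × E3 =>
      ((p.1.1, p.2), p.1.2))).lintegral_prod_right' (ν := μ)
    exact this.aemeasurable

lemma mul_le_sq_add_sq (a b : ℝ≥0∞) : a * b ≤ a * a + b * b := by
  rcases le_total a b with h | h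
  · calc a * b ≤ b * b := by gcongr
      _ ≤ a * a + b * b := le_add_self
  · calc a * b ≤ a * a := by gcongr
      _ ≤ a * a + b * b := le_self_add

/-- Shifts do not increase the Gaussian energy by more than a factor `2`. -/
lemma double_gk_shift {t : ℝ} (ht : 0 < t) (μ : Measure E3) [SFinite μ] (v : E3) :
    ∫⁻ x, ∫⁻ y, ENNReal.ofReal (Real.exp (-(‖x - y + v‖ ^ 2 * t))) ∂μ ∂μ ≤
      2 * ∫⁻ x, ∫⁻ y, ENNReal.ofReal (Real.exp (-(‖x - y‖ ^ 2 * t))) ∂μ ∂μ := by
  have hmk := measurable_gk t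
  have h0 := double_gk t μ 0
  have hv := double_gk t μ v
  simp only [add_zero] at h0
  have hG0 := gG_ne_zero t
  have hG1 := gG_ne_top ht
  refine (ENNReal.mul_le_mul_iff_left hG0 hG1).1 ?_
  rw [hv, mul_assoc, h0]
  set F : E3 → ℝ≥0∞ := fun z => ∫⁻ y, gk t (y - z) ∂μ with hF
  have hFm : Measurable F := by
    have := (hmk.comp (by fun_prop : Measurable fun p : E3 × E3 =>
      p.2 - p.1)).lintegral_prod_right' (ν := μ)
    exact this
  have h1 : ∀ z, ∫⁻ x, gk t (x + v - z) ∂μ = F (z - v) := by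
    intro z
    simp only [hF]
    refine lintegral_congr fun x => ?_
    congr 1
    abel
  simp_rw [h1]
  calc ∫⁻ z, F (z - v) * F z ≤ ∫⁻ z, (F (z - v) * F (z - v) + F z * F z) :=
        lintegral_mono fun z => mul_le_sq_add_sq _ _
    _ = (∫⁻ z, F (z - v) * F (z - v)) + ∫⁻ z, F z * F z := by
        exact lintegral_add_right _ (hFm.mul hFm)
    _ = 2 * ∫⁻ z, F z * F z := by
        rw [lintegral_sub_right_eq_self (fun z => F z * F z) v, two_mul]

/-- Shifts do not increase the Riesz energy by more than a factor `2`. -/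
lemma energy_shift {β : ℝ} (hβ : 0 < β) (μ : Measure E3) [SFinite μ] (v : E3) :
    ∫⁻ x, ∫⁻ y, kernelU β ‖x - y + v‖ ∂μ ∂μ ≤ 2 * energy β μ := by
  have hΓ : 0 < Real.Gamma (β / 2) := Real.Gamma_pos_of_pos (by linarith)
  have hc0 : ENNReal.ofReal (Real.Gamma (β / 2)) ≠ 0 := by simpa using hΓ
  have hc1 : ENNReal.ofReal (Real.Gamma (β / 2)) ≠ ∞ := ENNReal.ofReal_ne_top
  have hk : ∀ r : ℝ, 0 ≤ r →
      ENNReal.ofReal (Real.Gamma (β / 2)) * kernelU β r = mix (β / 2) r := by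
    intro r hr
    rw [mix_eq' (by linarith : 0 < β / 2) hr]
    congr 2
    ring
  -- the integral of the kernel as a mixture
  have key : ∀ v : E3, ENNReal.ofReal (Real.Gamma (β / 2)) *
      ∫⁻ x, ∫⁻ y, kernelU β ‖x - y + v‖ ∂μ ∂μ =
      ∫⁻ t in Ioi (0 : ℝ), ENNReal.ofReal (t ^ (β / 2 - 1)) *
        ∫⁻ x, ∫⁻ y, ENNReal.ofReal (Real.exp (-(‖x - y + v‖ ^ 2 * t))) ∂μ ∂μ := by
    intro v
    have hmK : Measurable fun p : E3 × E3 => kernelU β ‖p.1 - p.2 + v‖ :=
      (measurable_kernelU β).comp (by fun_prop)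
    have hmG : Measurable fun p : (E3 × E3) × ℝ => ENNReal.ofReal (p.2 ^ (β / 2 - 1)) *
        ENNReal.ofReal (Real.exp (-(‖p.1.1 - p.1.2 + v‖ ^ 2 * p.2))) := by fun_prop
    have hmE : Measurable fun p : (E3 × E3) × ℝ =>
        ENNReal.ofReal (Real.exp (-(‖p.1.1 - p.1.2 + v‖ ^ 2 * p.2))) := by fun_prop
    rw [← lintegral_const_mul _ hmK.lintegral_prod_right']
    have h2 : ∀ x : E3, ENNReal.ofReal (Real.Gamma (β / 2)) * ∫⁻ y, kernelU β ‖x - y + v‖ ∂μ =
        ∫⁻ t in Ioi (0 : ℝ), ∫⁻ y, ENNReal.ofReal (t ^ (β / 2 - 1)) *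
          ENNReal.ofReal (Real.exp (-(‖x - y + v‖ ^ 2 * t))) ∂μ := by
      intro x
      have hmx : Measurable fun y : E3 => kernelU β ‖x - y + v‖ :=
        (measurable_kernelU β).comp (by fun_prop)
      rw [← lintegral_const_mul _ hmx]
      simp_rw [hk _ (norm_nonneg _)]
      unfold mix
      rw [lintegral_lintegral_swap]
      exact (hmG.comp (by fun_prop : Measurable fun p : E3 × ℝ => ((x, p.1), p.2))).aemeasurable
    simp_rw [h2]
    rw [lintegral_lintegral_swap]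
    · refine lintegral_congr fun t => ?_
      have h3 : ∀ x : E3, ∫⁻ y, ENNReal.ofReal (t ^ (β / 2 - 1)) *
          ENNReal.ofReal (Real.exp (-(‖x - y + v‖ ^ 2 * t))) ∂μ =
          ENNReal.ofReal (t ^ (β / 2 - 1)) *
          ∫⁻ y, ENNReal.ofReal (Real.exp (-(‖x - y + v‖ ^ 2 * t))) ∂μ := fun x => by
        rw [lintegral_const_mul _ (by fun_prop)]
      simp_rw [h3]
      rw [lintegral_const_mul]
      exact (hmE.comp (by fun_prop : Measurable fun p : E3 × E3 =>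
        ((p.1, p.2), t))).lintegral_prod_right'
    · have := (hmG.comp (by fun_prop : Measurable fun p : (E3 × ℝ) × E3 =>
        ((p.1.1, p.2), p.1.2))).lintegral_prod_right' (ν := μ)
      exact this.aemeasurable
  have h0 := key 0
  have hv := key v
  simp only [add_zero] at h0
  have he : energy β μ = ∫⁻ x, ∫⁻ y, kernelU β ‖x - y‖ ∂μ ∂μ := by
    unfold energy
    simp_rw [dist_eq_norm]
  rw [he]
  refine (ENNReal.mul_le_mul_iff_right hc0 hc1).1 ?_
  rw [hv, ← mul_assoc, mul_comm _ (2 : ℝ≥0∞), mul_assoc, h0, ← lintegral_const_mul' _ _ (by simp)]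
  refine setLIntegral_mono' measurableSet_Ioi fun t ht => ?_
  rw [mem_Ioi] at ht
  calc ENNReal.ofReal (t ^ (β / 2 - 1)) *
        ∫⁻ x, ∫⁻ y, ENNReal.ofReal (Real.exp (-(‖x - y + v‖ ^ 2 * t))) ∂μ ∂μ
      ≤ ENNReal.ofReal (t ^ (β / 2 - 1)) *
        (2 * ∫⁻ x, ∫⁻ y, ENNReal.ofReal (Real.exp (-(‖x - y‖ ^ 2 * t))) ∂μ ∂μ) := by
        gcongr
        exact double_gk_shift ht μ v
    _ = _ := by ring

end Pool.Agent.Helper97.Sheet
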