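import Pool.Agent.Helper97.Sheet.Second

open MeasureTheory ProbabilityTheory Set
open scoped ENNReal NNReal

namespace Pool.Agent.Helper97.Sheet

/-! ### Signs -/

/-- The order preserving (`true`) or order reversing (`false`) change of variables. -/
noncomputable def gs (σ : Bool) (x : ℝ) : ℝ := if σ then x else x⁻¹

/-- The normalisation. -/
noncomputable def ns (σ : Bool) (x : ℝ) : ℝ := if σ then 1 else x

lemma gs_gs (σ : Bool) (x : ℝ) : gs σ (gs σ x) = x := by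
  cases σ <;> simp [gs]

lemma gs_pos (σ : Bool) {x : ℝ} (hx : 0 < x) : 0 < gs σ x := by
  cases σ <;> simp [gs, hx]

lemma ns_pos (σ : Bool) {x : ℝ} (hx : 0 < x) : 0 < ns σ x := by
  cases σ <;> simp [ns, hx]

lemma ns_gs (σ : Bool) (x : ℝ) : ns σ (gs σ x) = (ns σ x)⁻¹ := by
  cases σ <;> simp [ns, gs]

lemma ns_mul_min (σ : Bool) {a a' : ℝ} (ha : 0 < a) (ha' : 0 < a') :
    ns σ a * ns σ a' * min (gs σ a) (gs σ a') = min a a' := by
  cases σ
  · simp only [ns, gs, Bool.false_eq_true, if_false]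
    rcases le_total a a' with h | h
    · rw [min_eq_left h, min_eq_right (inv_anti₀ ha h)]
      field_simp
    · rw [min_eq_right h, min_eq_left (inv_anti₀ ha' h)]
      field_simp
  · simp [ns, gs]

lemma gs_mem (σ : Bool) {R x : ℝ} (hR : 1 ≤ R) (h1 : 1 / R ≤ x) (h2 : x ≤ R) :
    1 / R ≤ gs σ x ∧ gs σ x ≤ R := by
  have hR0 : 0 < R := by linarith
  have hx : 0 < x := lt_of_lt_of_le (by positivity) h1
  cases σ
  · simp only [gs, Bool.false_eq_true, if_false]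
    constructor
    · rw [one_div]; exact inv_anti₀ hx h2
    · rw [inv_le_comm₀ hx hR0, ← one_div]; exact h1
  · simp only [gs, if_true]; exact ⟨h1, h2⟩

lemma ns_mem (σ : Bool) {R x : ℝ} (hR : 1 ≤ R) (h1 : 1 / R ≤ x) (h2 : x ≤ R) :
    1 / R ≤ ns σ x ∧ ns σ x ≤ R := by
  have hR0 : 0 < R := by linarith
  cases σ
  · simp only [ns, Bool.false_eq_true, if_false]; exact ⟨h1, h2⟩
  · simp only [ns, if_true]
    exact ⟨by rw [div_le_one hR0]; exact hR, hR⟩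

lemma gs_sub_ge (σ : Bool) {R x y : ℝ} (hR : 1 ≤ R) (h1 : 1 / R ≤ x) (h2 : x ≤ R)
    (h1' : 1 / R ≤ y) (h2' : y ≤ R) : |x - y| / R ^ 2 ≤ |gs σ x - gs σ y| := by
  have hR0 : 0 < R := by linarith
  have hx : 0 < x := lt_of_lt_of_le (by positivity) h1
  have hy : 0 < y := lt_of_lt_of_le (by positivity) h1'
  cases σ
  · simp only [gs, Bool.false_eq_true, if_false]
    have e : x⁻¹ - y⁻¹ = -(x - y) / (x * y) := by field_simp; ring
    rw [e, abs_div, abs_neg, abs_of_pos (mul_pos hx hy)]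
    have : x * y ≤ R ^ 2 := by rw [sq]; exact mul_le_mul h2 h2' hy.le hR0.le
    have := mul_pos hx hy
    gcongr
  · simp only [gs, if_true]
    have : 1 ≤ R ^ 2 := one_le_pow₀ hR
    exact div_le_self (abs_nonneg _) this

lemma gs_sub_le (σ : Bool) {R x y : ℝ} (hR : 1 ≤ R) (h1 : 1 / R ≤ x) (h1' : 1 / R ≤ y) :
    |gs σ x - gs σ y| ≤ R ^ 2 * |x - y| := by
  have hR0 : 0 < R := by linarith
  have hx : 0 < x := lt_of_lt_of_le (by positivity) h1
  have hy : 0 < y := lt_of_lt_of_le (by positivity) h1'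
  cases σ
  · simp only [gs, Bool.false_eq_true, if_false]
    have e : x⁻¹ - y⁻¹ = -(x - y) / (x * y) := by field_simp; ring
    rw [e, abs_div, abs_neg, abs_of_pos (mul_pos hx hy), div_le_iff₀ (mul_pos hx hy)]
    have h3 : 1 ≤ R ^ 2 * (x * y) := by
      have : (1 / R) * (1 / R) ≤ x * y := mul_le_mul h1 h1' (by positivity) hx.le
      calc 1 = R ^ 2 * ((1 / R) * (1 / R)) := by field_simp
        _ ≤ R ^ 2 * (x * y) := mul_le_mul_of_nonneg_left this (by positivity)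
    calc |x - y| = |x - y| * 1 := by ring
      _ ≤ |x - y| * (R ^ 2 * (x * y)) := mul_le_mul_of_nonneg_left h3 (abs_nonneg _)
      _ = R ^ 2 * |x - y| * (x * y) := by ring
  · simp only [gs, if_true]
    have : 1 ≤ R ^ 2 := one_le_pow₀ hR
    exact le_mul_of_one_le_left (abs_nonneg _) this

lemma ns_sub_le (σ : Bool) (x y : ℝ) : |ns σ x - ns σ y| ≤ |x - y| := by
  cases σ <;> simp [ns]

lemma exists_sign (x y : ℝ) (hx : 0 < x) : ∃ σ : Bool, gs σ y ≤ gs σ x := by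
  rcases le_total y x with h | h
  · exact ⟨true, by simpa [gs] using h⟩
  · exact ⟨false, by simpa [gs] using inv_anti₀ hx h⟩

/-! ### The normalised processes -/

variable {Ω : Type*} [MeasurableSpace Ω] {P : Measure Ω} {d : ℕ}

/-- Positive numbers. -/
abbrev IT := {a : ℝ // 0 < a}

/-- The parameters for the first kind of increments. -/
abbrev JT (σ : Bool) (b : ℝ) := {w : ℝ // 0 < w ∧ gs σ w ≤ b}

/-- The index set. -/
abbrev TT (d : ℕ) (σ₂ : Bool) (b : ℝ) := Fin d × ((IT × JT σ₂ b) ⊕ (IT × IT))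

lemma coe_min {p : ℝ → Prop} (a b : {x // p x}) : ((min a b : {x // p x}) : ℝ) = min a.1 b.1 := by
  rcases le_total a b with h | h
  · rw [min_eq_left h, min_eq_left (by exact h)]
  · rw [min_eq_right h, min_eq_right (by exact h)]

/-- The normalised process. -/
noncomputable def ZZ (X : Fin d → ℝ → ℝ → Ω → ℝ) (σ₁ σ₂ σ₃ : Bool) (b : ℝ) :
    TT d σ₂ b → Ω → ℝ
  | (i, .inl p), ω => ns σ₁ p.1.1 * ns σ₂ p.2.1 *
      (X i (gs σ₁ p.1.1) b ω - X i (gs σ₁ p.1.1) (b - gs σ₂ p.2.1) ω)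
  | (i, .inr p), ω => ns σ₁ p.1.1 * ns σ₃ p.2.1 *
      (X i (gs σ₁ p.1.1) (b + gs σ₃ p.2.1) ω - X i (gs σ₁ p.1.1) b ω)

/-- The covariances of the normalised process. -/
noncomputable def kT {σ₂ : Bool} {b : ℝ} : TT d σ₂ b → TT d σ₂ b → ℝ
  | (i, .inl p), (j, .inl q) => if i = j then min p.1.1 q.1.1 * min p.2.1 q.2.1 else 0
  | (i, .inr p), (j, .inr q) => if i = j then min p.1.1 q.1.1 * min p.2.1 q.2.1 else 0
  | (_, .inl _), (_, .inr _) => 0
  | (_, .inr _), (_, .inl _) => 0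

namespace Nice

variable {X : Fin d → ℝ → ℝ → Ω → ℝ}

lemma cov_inc (hX : Nice X P) (i j : Fin d) {s t t' s' u u' c c' : ℝ} (hs : 0 ≤ s) (ht : 0 ≤ t)
    (ht' : 0 ≤ t') (hs' : 0 ≤ s') (hu : 0 ≤ u) (hu' : 0 ≤ u') :
    cov[fun ω => c * (X i s t ω - X i s t' ω), fun ω => c' * (X j s' u ω - X j s' u' ω); P] =
      if i = j then c * c' * (min s s' * (min t u - min t u' - min t' u + min t' u')) else 0 := by
  have := hX.isProb
  rw [covariance_const_mul_left, covariance_const_mul_right,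
    covariance_fun_sub_fun_sub (hX.memLp _ _ _) (hX.memLp _ _ _) (hX.memLp _ _ _) (hX.memLp _ _ _)]
  split_ifs with h
  · subst h
    rw [hX.cov_eq _ _ _ _ _ hs ht hs' hu, hX.cov_eq _ _ _ _ _ hs ht hs' hu',
      hX.cov_eq _ _ _ _ _ hs ht' hs' hu, hX.cov_eq _ _ _ _ _ hs ht' hs' hu']
    ring
  · rw [hX.cov_ne i j h, hX.cov_ne i j h, hX.cov_ne i j h, hX.cov_ne i j h]
    ring

lemma measurable_ZZ (hX : Nice X P) (σ₁ σ₂ σ₃ : Bool) (b : ℝ) (q : TT d σ₂ b) :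
    Measurable (ZZ X σ₁ σ₂ σ₃ b q) := by
  obtain ⟨i, p | p⟩ := q
  · exact ((hX.meas _ _ _).sub (hX.meas _ _ _)).const_mul _
  · exact ((hX.meas _ _ _).sub (hX.meas _ _ _)).const_mul _

lemma gauss_ZZ (hX : Nice X P) (σ₁ σ₂ σ₃ : Bool) (b : ℝ) :
    IsGaussianProcess (ZZ X σ₁ σ₂ σ₃ b) P := by
  have h := IsGaussianProcess.linear hX.gauss (S := TT d σ₂ b) (fun q => match q with
    | (i, .inl p) => Finsupp.single (i, gs σ₁ p.1.1, b) (ns σ₁ p.1.1 * ns σ₂ p.2.1) +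
        Finsupp.single (i, gs σ₁ p.1.1, b - gs σ₂ p.2.1) (-(ns σ₁ p.1.1 * ns σ₂ p.2.1))
    | (i, .inr p) => Finsupp.single (i, gs σ₁ p.1.1, b + gs σ₃ p.2.1)
          (ns σ₁ p.1.1 * ns σ₃ p.2.1) +
        Finsupp.single (i, gs σ₁ p.1.1, b) (-(ns σ₁ p.1.1 * ns σ₃ p.2.1)))
  convert h using 2 with q
  funext ω
  obtain ⟨i, p | p⟩ := q
  · simp only [ZZ]
    rw [Finsupp.sum_add_index' (by simp) (by intros; ring), Finsupp.sum_single_index (by simp),
      Finsupp.sum_single_index (by simp)]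
    ring
  · simp only [ZZ]
    rw [Finsupp.sum_add_index' (by simp) (by intros; ring), Finsupp.sum_single_index (by simp),
      Finsupp.sum_single_index (by simp)]
    ring

lemma mean_ZZ (hX : Nice X P) (σ₁ σ₂ σ₃ : Bool) (b : ℝ) (q : TT d σ₂ b) :
    P[ZZ X σ₁ σ₂ σ₃ b q] = 0 := by
  have := hX.isProb
  have hint : ∀ i s t, Integrable (X i s t) P := fun i s t =>
    (hX.memLp i s t).integrable (by norm_num)
  obtain ⟨i, p | p⟩ := q
  · simp only [ZZ]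
    rw [integral_const_mul, integral_sub (hint _ _ _) (hint _ _ _), hX.mean, hX.mean]
    simp
  · simp only [ZZ]
    rw [integral_const_mul, integral_sub (hint _ _ _) (hint _ _ _), hX.mean, hX.mean]
    simp

lemma cov_ZZ (hX : Nice X P) (σ₁ σ₂ σ₃ : Bool) {b : ℝ} (hb : 0 ≤ b) (q q' : TT d σ₂ b) :
    cov[ZZ X σ₁ σ₂ σ₃ b q, ZZ X σ₁ σ₂ σ₃ b q'; P] = kT q q' := by
  obtain ⟨i, p | p⟩ := q
  · obtain ⟨j, p' | p'⟩ := q'
    · have h1 := gs_pos σ₂ p.2.2.1
      have h2 := p.2.2.2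
      have h1' := gs_pos σ₂ p'.2.2.1
      have h2' := p'.2.2.2
      have h := hX.cov_inc i j (c := ns σ₁ p.1.1 * ns σ₂ p.2.1)
        (c' := ns σ₁ p'.1.1 * ns σ₂ p'.2.1) (s := gs σ₁ p.1.1) (t := b) (t' := b - gs σ₂ p.2.1)
        (s' := gs σ₁ p'.1.1) (u := b) (u' := b - gs σ₂ p'.2.1) (gs_pos σ₁ p.1.2).le hb
        (by linarith) (gs_pos σ₁ p'.1.2).le hb (by linarith)
      have e : cov[ZZ X σ₁ σ₂ σ₃ b (i, .inl p), ZZ X σ₁ σ₂ σ₃ b (j, .inl p'); P] =
        cov[fun ω => ns σ₁ p.1.1 * ns σ₂ p.2.1 * (X i (gs σ₁ p.1.1) b ω -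
            X i (gs σ₁ p.1.1) (b - gs σ₂ p.2.1) ω),
          fun ω => ns σ₁ p'.1.1 * ns σ₂ p'.2.1 * (X j (gs σ₁ p'.1.1) b ω -
            X j (gs σ₁ p'.1.1) (b - gs σ₂ p'.2.1) ω); P] := rfl
      rw [e, h]
      simp only [kT]
      split_ifs with hij
      · rw [← ns_mul_min σ₁ p.1.2 p'.1.2, ← ns_mul_min σ₂ p.2.2.1 p'.2.2.1]
        have e1 : min b b - min b (b - gs σ₂ p'.2.1) - min (b - gs σ₂ p.2.1) b +
            min (b - gs σ₂ p.2.1) (b - gs σ₂ p'.2.1) = min (gs σ₂ p.2.1) (gs σ₂ p'.2.1) := by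
          rw [min_self, min_eq_right (show b - gs σ₂ p'.2.1 ≤ b by linarith),
            min_eq_left (show b - gs σ₂ p.2.1 ≤ b by linarith)]
          rcases le_total (gs σ₂ p.2.1) (gs σ₂ p'.2.1) with h3 | h3
          · rw [min_eq_left h3, min_eq_right (by linarith)]; ring
          · rw [min_eq_right h3, min_eq_left (by linarith)]; ring
        rw [e1]
        ring
      · rfl
    · have h1 := gs_pos σ₂ p.2.2.1
      have h2 := p.2.2.2
      have h1' := gs_pos σ₃ p'.2.2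
      have h := hX.cov_inc i j (c := ns σ₁ p.1.1 * ns σ₂ p.2.1)
        (c' := ns σ₁ p'.1.1 * ns σ₃ p'.2.1) (s := gs σ₁ p.1.1) (t := b) (t' := b - gs σ₂ p.2.1)
        (s' := gs σ₁ p'.1.1) (u := b + gs σ₃ p'.2.1) (u' := b) (gs_pos σ₁ p.1.2).le hb
        (by linarith) (gs_pos σ₁ p'.1.2).le (by linarith) hb
      have e : cov[ZZ X σ₁ σ₂ σ₃ b (i, .inl p), ZZ X σ₁ σ₂ σ₃ b (j, .inr p'); P] =
        cov[fun ω => ns σ₁ p.1.1 * ns σ₂ p.2.1 * (X i (gs σ₁ p.1.1) b ω -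
            X i (gs σ₁ p.1.1) (b - gs σ₂ p.2.1) ω),
          fun ω => ns σ₁ p'.1.1 * ns σ₃ p'.2.1 * (X j (gs σ₁ p'.1.1) (b + gs σ₃ p'.2.1) ω -
            X j (gs σ₁ p'.1.1) b ω); P] := rfl
      rw [e, h]
      simp only [kT]
      have e1 : min b (b + gs σ₃ p'.2.1) - min b b - min (b - gs σ₂ p.2.1) (b + gs σ₃ p'.2.1) +
            min (b - gs σ₂ p.2.1) b = 0 := by
          rw [min_self, min_eq_left (show b ≤ b + gs σ₃ p'.2.1 by linarith),
            min_eq_left (show b - gs σ₂ p.2.1 ≤ b + gs σ₃ p'.2.1 by linarith),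
            min_eq_left (show b - gs σ₂ p.2.1 ≤ b by linarith)]
          ring
      rw [e1]
      simp
  · obtain ⟨j, p' | p'⟩ := q'
    · have h1 := gs_pos σ₂ p'.2.2.1
      have h2 := p'.2.2.2
      have h1' := gs_pos σ₃ p.2.2
      have h := hX.cov_inc i j (c := ns σ₁ p.1.1 * ns σ₃ p.2.1)
        (c' := ns σ₁ p'.1.1 * ns σ₂ p'.2.1) (s := gs σ₁ p.1.1) (t := b + gs σ₃ p.2.1) (t' := b)
        (s' := gs σ₁ p'.1.1) (u := b) (u' := b - gs σ₂ p'.2.1) (gs_pos σ₁ p.1.2).le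
        (by linarith) hb (gs_pos σ₁ p'.1.2).le hb (by linarith)
      have e : cov[ZZ X σ₁ σ₂ σ₃ b (i, .inr p), ZZ X σ₁ σ₂ σ₃ b (j, .inl p'); P] =
        cov[fun ω => ns σ₁ p.1.1 * ns σ₃ p.2.1 * (X i (gs σ₁ p.1.1) (b + gs σ₃ p.2.1) ω -
            X i (gs σ₁ p.1.1) b ω),
          fun ω => ns σ₁ p'.1.1 * ns σ₂ p'.2.1 * (X j (gs σ₁ p'.1.1) b ω -
            X j (gs σ₁ p'.1.1) (b - gs σ₂ p'.2.1) ω); P] := rfl
      rw [e, h]
      simp only [kT]
      have e1 : min (b + gs σ₃ p.2.1) b - min (b + gs σ₃ p.2.1) (b - gs σ₂ p'.2.1) - min b b +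
            min b (b - gs σ₂ p'.2.1) = 0 := by
          rw [min_self, min_eq_right (show b ≤ b + gs σ₃ p.2.1 by linarith),
            min_eq_right (show b - gs σ₂ p'.2.1 ≤ b + gs σ₃ p.2.1 by linarith),
            min_eq_right (show b - gs σ₂ p'.2.1 ≤ b by linarith)]
          ring
      rw [e1]
      simp
    · have h1 := gs_pos σ₃ p.2.2
      have h1' := gs_pos σ₃ p'.2.2
      have h := hX.cov_inc i j (c := ns σ₁ p.1.1 * ns σ₃ p.2.1)
        (c' := ns σ₁ p'.1.1 * ns σ₃ p'.2.1) (s := gs σ₁ p.1.1) (t := b + gs σ₃ p.2.1) (t' := b)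
        (s' := gs σ₁ p'.1.1) (u := b + gs σ₃ p'.2.1) (u' := b) (gs_pos σ₁ p.1.2).le
        (by linarith) hb (gs_pos σ₁ p'.1.2).le (by linarith) hb
      have e : cov[ZZ X σ₁ σ₂ σ₃ b (i, .inr p), ZZ X σ₁ σ₂ σ₃ b (j, .inr p'); P] =
        cov[fun ω => ns σ₁ p.1.1 * ns σ₃ p.2.1 * (X i (gs σ₁ p.1.1) (b + gs σ₃ p.2.1) ω -
            X i (gs σ₁ p.1.1) b ω),
          fun ω => ns σ₁ p'.1.1 * ns σ₃ p'.2.1 * (X j (gs σ₁ p'.1.1) (b + gs σ₃ p'.2.1) ω -
            X j (gs σ₁ p'.1.1) b ω); P] := rfl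
      rw [e, h]
      simp only [kT]
      split_ifs with hij
      · rw [← ns_mul_min σ₁ p.1.2 p'.1.2, ← ns_mul_min σ₃ p.2.2 p'.2.2]
        have e1 : min (b + gs σ₃ p.2.1) (b + gs σ₃ p'.2.1) - min (b + gs σ₃ p.2.1) b -
            min b (b + gs σ₃ p'.2.1) + min b b = min (gs σ₃ p.2.1) (gs σ₃ p'.2.1) := by
          rw [min_self, min_eq_right (show b ≤ b + gs σ₃ p.2.1 by linarith),
            min_eq_left (show b ≤ b + gs σ₃ p'.2.1 by linarith), min_add_add_left]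
          ring
        rw [e1]
        ring
      · rfl

end Nice

/-! ### The three families of maps -/

variable {σ₂ : Bool} {b : ℝ}

/-- Cutting off the first parameter. -/
noncomputable def cut1 (a : IT) : TT d σ₂ b → TT d σ₂ b
  | (i, .inl p) => (i, .inl (min p.1 a, p.2))
  | (i, .inr p) => (i, .inr (min p.1 a, p.2))

/-- Cutting off the second parameter. -/
noncomputable def cut2 (w : JT σ₂ b) : TT d σ₂ b → TT d σ₂ b
  | (i, .inl p) => (i, .inl (p.1, min p.2 w))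
  | (i, .inr p) => (i, .inr p)

/-- Cutting off the third parameter. -/
noncomputable def cut3 (w : IT) : TT d σ₂ b → TT d σ₂ b
  | (i, .inl p) => (i, .inl p)
  | (i, .inr p) => (i, .inr (p.1, min p.2 w))

lemma cut1_cut1 (a a' : IT) (q : TT d σ₂ b) : cut1 a (cut1 a' q) = cut1 (min a a') q := by
  obtain ⟨i, p | p⟩ := q <;> simp [cut1, min_assoc, min_comm a a']

lemma cut2_cut2 (a a' : JT σ₂ b) (q : TT d σ₂ b) : cut2 a (cut2 a' q) = cut2 (min a a') q := by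
  obtain ⟨i, p | p⟩ := q <;> simp [cut2, min_assoc, min_comm a a']

lemma cut3_cut3 (a a' : IT) (q : TT d σ₂ b) : cut3 a (cut3 a' q) = cut3 (min a a') q := by
  obtain ⟨i, p | p⟩ := q <;> simp [cut3, min_assoc, min_comm a a']

lemma cut1_cut2 (a : IT) (w : JT σ₂ b) (q : TT d σ₂ b) :
    cut1 a (cut2 w q) = cut2 w (cut1 a q) := by
  obtain ⟨i, p | p⟩ := q <;> simp [cut1, cut2]

lemma cut1_cut3 (a : IT) (w : IT) (q : TT d σ₂ b) :
    cut1 a (cut3 w q) = cut3 w (cut1 a q) := by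
  obtain ⟨i, p | p⟩ := q <;> simp [cut1, cut3]

lemma cut2_cut3 (a : JT σ₂ b) (w : IT) (q : TT d σ₂ b) :
    cut2 a (cut3 w q) = cut3 w (cut2 a q) := by
  obtain ⟨i, p | p⟩ := q <;> simp [cut2, cut3]

lemma min_min_self (x y a : ℝ) : min (min x a) y = min (min x a) (min y a) := by
  rw [min_min_min_comm, min_self]
  rw [min_assoc, min_comm a y, ← min_assoc]

lemma kT_cut1 (a : IT) (q q' : TT d σ₂ b) : kT (cut1 a q) q' = kT (cut1 a q) (cut1 a q') := by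
  obtain ⟨i, p | p⟩ := q <;> obtain ⟨j, p' | p'⟩ := q' <;> simp only [cut1, kT, coe_min] <;>
    rw [min_min_self]

lemma kT_cut2 (a : JT σ₂ b) (q q' : TT d σ₂ b) : kT (cut2 a q) q' = kT (cut2 a q) (cut2 a q') := by
  obtain ⟨i, p | p⟩ := q <;> obtain ⟨j, p' | p'⟩ := q' <;> simp only [cut2, kT, coe_min]
  rw [min_min_self]

lemma kT_cut3 (a : IT) (q q' : TT d σ₂ b) : kT (cut3 a q) q' = kT (cut3 a q) (cut3 a q') := by
  obtain ⟨i, p | p⟩ := q <;> obtain ⟨j, p' | p'⟩ := q' <;> simp only [cut3, kT, coe_min]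
  rw [min_min_self]

end Pool.Agent.Helper97.Sheet
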