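import Pool.Agent.Helper97.Sheet.Shift

open MeasureTheory ProbabilityTheory Set Filter
open scoped ENNReal NNReal Topology

namespace Pool.Agent.Helper97.Sheet

/-! ### Integrals of the kernel along a line -/

/-- The kernel integrated along a unit segment. -/
noncomputable def JJ (β ρ : ℝ) : ℝ≥0∞ := ∫⁻ w in Icc (0 : ℝ) 1, kernelU β √(ρ ^ 2 + w ^ 2)

lemma JJ_antitone (β : ℝ) : AntitoneOn (JJ β) (Ici 0) := by
  intro x hx y hy hxy
  rw [mem_Ici] at hx hy
  unfold JJ
  refine lintegral_mono fun w => kernelU_antitone β (Real.sqrt_nonneg _) (Real.sqrt_nonneg _) ?_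
  apply Real.sqrt_le_sqrt
  gcongr

lemma kernelU_pos_eq {β r : ℝ} (hβ : 0 < β) (hr : 0 < r) :
    kernelU β r = ENNReal.ofReal (r ^ (-β)) := by
  rw [kernelU_of_pos hβ, ENNReal.ofReal_rpow_of_pos hr]

lemma kernelU_zero_eq {r : ℝ} (hr : 0 < r) :
    kernelU 0 r = ENNReal.ofReal (1 + Real.log (1 / r)) := by
  unfold kernelU
  rw [if_neg (lt_irrefl _), if_pos rfl, if_neg hr.ne']
  congr 1
  rw [Real.log_div (Real.exp_pos _).ne' hr.ne', Real.log_exp, Real.log_div one_ne_zero hr.ne',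
    Real.log_one]
  ring

lemma kernelU_le_one {γ r : ℝ} (hr : 1 ≤ r) : kernelU γ r ≤ 1 := by
  have h0 : (0 : ℝ) < r := by linarith
  rcases lt_trichotomy γ 0 with h | rfl | h
  · unfold kernelU; rw [if_neg (not_lt.2 h.le), if_neg h.ne]
  · rw [kernelU_zero_eq h0, ENNReal.ofReal_le_one]
    have : Real.log (1 / r) ≤ 0 := by
      apply Real.log_nonpos (by positivity)
      rw [div_le_one h0]; exact hr
    linarith
  · rw [kernelU_pos_eq h h0, ENNReal.ofReal_le_one]
    exact Real.rpow_le_one_of_one_le_of_nonpos hr (by linarith)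

lemma tendsto_kernelU {γ : ℝ} (hγ : 0 ≤ γ) :
    Tendsto (fun n : ℕ => kernelU γ (1 / ((n : ℝ) + 1))) atTop (𝓝 ∞) := by
  have hn : ∀ n : ℕ, (0 : ℝ) < 1 / ((n : ℝ) + 1) := fun n => by positivity
  rcases hγ.eq_or_lt with rfl | h
  · simp_rw [kernelU_zero_eq (hn _)]
    refine ENNReal.tendsto_ofReal_atTop.comp ?_
    refine tendsto_atTop_add_const_left _ _ ?_
    simp_rw [one_div_one_div]
    refine Real.tendsto_log_atTop.comp ?_
    exact tendsto_atTop_add_const_right _ _ tendsto_natCast_atTop_atTop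
  · simp_rw [kernelU_pos_eq h (hn _)]
    refine ENNReal.tendsto_ofReal_atTop.comp ?_
    have : ∀ n : ℕ, (1 / ((n : ℝ) + 1)) ^ (-γ) = ((n : ℝ) + 1) ^ γ := by
      intro n
      rw [one_div, Real.inv_rpow (by positivity), Real.rpow_neg (by positivity), inv_inv]
    simp_rw [this]
    refine (tendsto_rpow_atTop h).comp ?_
    exact tendsto_atTop_add_const_right _ _ tendsto_natCast_atTop_atTop

/-- From positive arguments to the argument `0`. -/
lemma JJ_lower_zero {β : ℝ} (hβ : 0 ≤ β - 1) {C : ℝ≥0∞} (hC : C ≠ ∞)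
    (h : ∀ ρ : ℝ, 0 < ρ → kernelU (β - 1) ρ ≤ C * (JJ β ρ + 1)) : JJ β 0 = ∞ := by
  have h1 := tendsto_kernelU hβ
  have h2 : ∞ ≤ C * (JJ β 0 + 1) := by
    refine le_of_tendsto' h1 fun n => ?_
    have hn : (0 : ℝ) < 1 / ((n : ℝ) + 1) := by positivity
    refine (h _ hn).trans ?_
    gcongr
    exact JJ_antitone β self_mem_Ici hn.le hn.le
  by_contra h3
  exact (ENNReal.mul_ne_top hC (ENNReal.add_ne_top.2 ⟨h3, ENNReal.one_ne_top⟩)) (top_le_iff.1 h2)

lemma sqrt_le_two_mul {a w : ℝ} (h0 : 0 ≤ a) (haw : a ≤ w) : √(a ^ 2 + w ^ 2) ≤ 2 * w := by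
  rw [Real.sqrt_le_iff]
  constructor
  · linarith
  · nlinarith

lemma lintegral_inv_Icc {ρ : ℝ} (hρ : 0 < ρ) (hρ1 : ρ ≤ 1) :
    ∫⁻ w in Icc ρ 1, ENNReal.ofReal (w⁻¹) = ENNReal.ofReal (Real.log (1 / ρ)) := by
  have hint : IntegrableOn (fun w : ℝ => w⁻¹) (Icc ρ 1) := by
    apply ContinuousOn.integrableOn_Icc
    intro w hw
    exact (continuousAt_inv₀ (hρ.trans_le hw.1).ne').continuousWithinAt
  rw [← ofReal_integral_eq_lintegral_ofReal hint]
  · congr 1
    rw [integral_Icc_eq_integral_Ioc, ← intervalIntegral.integral_of_le hρ1,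
      integral_inv_of_pos hρ one_pos]
  · filter_upwards [ae_restrict_mem measurableSet_Icc] with w hw
    show 0 ≤ w⁻¹
    have := hρ.trans_le hw.1
    positivity

lemma lintegral_rpow_Icc {β ρ : ℝ} (hβ : 1 < β) (hρ : 0 < ρ) (hρ1 : ρ ≤ 1) :
    ∫⁻ w in Icc ρ 1, ENNReal.ofReal (w ^ (-β)) ≤
      ENNReal.ofReal ((β - 1)⁻¹ * ρ ^ (-(β - 1))) := by
  have hint : IntegrableOn (fun w : ℝ => w ^ (-β)) (Icc ρ 1) := by
    apply ContinuousOn.integrableOn_Icc
    intro w hw
    exact (Real.continuousAt_rpow_const _ _ (Or.inl (hρ.trans_le hw.1).ne')).continuousWithinAt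
  rw [← ofReal_integral_eq_lintegral_ofReal hint]
  · apply ENNReal.ofReal_le_ofReal
    rw [integral_Icc_eq_integral_Ioc, ← intervalIntegral.integral_of_le hρ1,
      integral_rpow]
    · have h1 : -β + 1 = -(β - 1) := by ring
      rw [h1, Real.one_rpow, div_neg, ← neg_div, neg_sub, div_eq_inv_mul]
      have h2 : 0 < (β - 1)⁻¹ := by
        rw [inv_pos]; linarith
      have h3 : ρ ^ (-(β - 1)) - 1 ≤ ρ ^ (-(β - 1)) := by linarith
      exact mul_le_mul_of_nonneg_left h3 h2.le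
    · right
      constructor
      · linarith
      · rw [uIcc_of_le hρ1]
        intro h
        exact absurd h.1 (not_le.2 hρ)
  · filter_upwards [ae_restrict_mem measurableSet_Icc] with w hw
    show 0 ≤ w ^ (-β)
    have := hρ.trans_le hw.1
    positivity

/-- Lower bound for the integral along a segment. -/
lemma exists_JJ_lower {β : ℝ} (hβ : 0 < β) :
    ∃ C : ℝ≥0∞, C ≠ ∞ ∧ ∀ ρ : ℝ, 0 ≤ ρ → kernelU (β - 1) ρ ≤ C * (JJ β ρ + 1) := by
  rcases lt_or_ge β 1 with h1 | h1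
  · refine ⟨1, ENNReal.one_ne_top, fun ρ _ => ?_⟩
    have : kernelU (β - 1) ρ = 1 := by
      unfold kernelU
      rw [if_neg (by linarith), if_neg (by linarith)]
    rw [this, one_mul]
    exact le_add_self
  -- it is enough to consider positive arguments
  suffices h : ∃ C : ℝ≥0∞, C ≠ 0 ∧ C ≠ ∞ ∧
      ∀ ρ : ℝ, 0 < ρ → kernelU (β - 1) ρ ≤ C * (JJ β ρ + 1) by
    obtain ⟨C, hC0, hC, h⟩ := h
    refine ⟨C, hC, fun ρ hρ => ?_⟩
    rcases hρ.eq_or_lt with rfl | hρ
    · rw [JJ_lower_zero (by linarith) hC h, top_add, ENNReal.mul_top hC0]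
      exact le_top
    · exact h ρ hρ
  rcases h1.eq_or_lt with rfl | h1
  · refine ⟨2, by simp, by simp, fun ρ hρ => ?_⟩
    rcases le_or_gt 1 ρ with h2 | h2
    · calc kernelU (1 - 1) ρ ≤ 1 := kernelU_le_one h2
        _ ≤ 2 * (0 + 1) := by norm_num
        _ ≤ 2 * (JJ 1 ρ + 1) := by gcongr; exact zero_le
    · rw [sub_self, kernelU_zero_eq hρ]
      have h3 : ENNReal.ofReal (1 / 2 * Real.log (1 / ρ)) ≤ JJ 1 ρ := by
        calc ENNReal.ofReal (1 / 2 * Real.log (1 / ρ))
            = ENNReal.ofReal (1 / 2) * ENNReal.ofReal (Real.log (1 / ρ)) :=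
              ENNReal.ofReal_mul (by norm_num)
          _ = ENNReal.ofReal (1 / 2) * ∫⁻ w in Icc ρ 1, ENNReal.ofReal (w⁻¹) := by
              rw [lintegral_inv_Icc hρ h2.le]
          _ = ∫⁻ w in Icc ρ 1, ENNReal.ofReal (1 / 2) * ENNReal.ofReal (w⁻¹) := by
              rw [lintegral_const_mul' _ _ ENNReal.ofReal_ne_top]
          _ ≤ ∫⁻ w in Icc ρ 1, kernelU 1 √(ρ ^ 2 + w ^ 2) := by
              refine setLIntegral_mono' measurableSet_Icc fun w hw => ?_
              have hw0 : 0 < w := hρ.trans_le hw.1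
              calc ENNReal.ofReal (1 / 2) * ENNReal.ofReal (w⁻¹)
                  = kernelU 1 (2 * w) := by
                    rw [kernelU_pos_eq one_pos (by positivity), ← ENNReal.ofReal_mul (by norm_num)]
                    congr 1
                    rw [Real.rpow_neg (by positivity), Real.rpow_one, mul_inv]
                    norm_num
                _ ≤ kernelU 1 √(ρ ^ 2 + w ^ 2) :=
                    kernelU_antitone 1 (Real.sqrt_nonneg _) (mem_Ici.2 (by positivity))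
                      (sqrt_le_two_mul hρ.le hw.1)
          _ ≤ JJ 1 ρ := lintegral_mono_set (Icc_subset_Icc_left hρ.le)
      have h4 : 0 ≤ Real.log (1 / ρ) := Real.log_nonneg (by rw [le_div_iff₀ hρ]; linarith)
      calc ENNReal.ofReal (1 + Real.log (1 / ρ))
          ≤ ENNReal.ofReal (2 * (1 / 2 * Real.log (1 / ρ) + 1)) :=
            ENNReal.ofReal_le_ofReal (by linarith)
        _ = 2 * (ENNReal.ofReal (1 / 2 * Real.log (1 / ρ)) + 1) := by
            rw [ENNReal.ofReal_mul (by norm_num), ENNReal.ofReal_add (by positivity) one_pos.le]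
            simp
        _ ≤ 2 * (JJ 1 ρ + 1) := by gcongr
  · refine ⟨ENNReal.ofReal (2 ^ β), by simp; positivity, ENNReal.ofReal_ne_top,
      fun ρ hρ => ?_⟩
    have h2b : (1 : ℝ) ≤ 2 ^ β := Real.one_le_rpow (by norm_num) (by linarith)
    rcases le_or_gt 1 ρ with h2 | h2
    · calc kernelU (β - 1) ρ ≤ 1 := kernelU_le_one h2
        _ ≤ ENNReal.ofReal (2 ^ β) * (0 + 1) := by
            rw [zero_add, mul_one, ENNReal.one_le_ofReal]; exact h2b
        _ ≤ _ := by gcongr; exact zero_le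
    · have h3 : ENNReal.ofReal ((2 ^ β)⁻¹ * ρ ^ (-(β - 1))) ≤ JJ β ρ := by
        calc ENNReal.ofReal ((2 ^ β)⁻¹ * ρ ^ (-(β - 1)))
            = kernelU β (2 * ρ) * volume (Icc (0 : ℝ) ρ) := by
              rw [kernelU_pos_eq (by linarith) (by positivity), Real.volume_Icc, sub_zero,
                ← ENNReal.ofReal_mul (by positivity)]
              congr 1
              have e1 : -β + 1 = -(β - 1) := by ring
              rw [Real.mul_rpow (by norm_num) hρ.le, mul_assoc, ← Real.rpow_add_one hρ.ne', e1,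
                Real.rpow_neg (by norm_num : (0 : ℝ) ≤ 2) β]
          _ = ∫⁻ _ in Icc 0 ρ, kernelU β (2 * ρ) := by rw [setLIntegral_const]
          _ ≤ ∫⁻ w in Icc 0 ρ, kernelU β √(ρ ^ 2 + w ^ 2) := by
              refine setLIntegral_mono' measurableSet_Icc fun w hw => ?_
              refine kernelU_antitone β (Real.sqrt_nonneg _) (mem_Ici.2 (by positivity)) ?_
              rw [add_comm]
              exact sqrt_le_two_mul hw.1 hw.2
          _ ≤ JJ β ρ := lintegral_mono_set (Icc_subset_Icc_right h2.le)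
      calc kernelU (β - 1) ρ = ENNReal.ofReal (2 ^ β * ((2 ^ β)⁻¹ * ρ ^ (-(β - 1)))) := by
            rw [kernelU_pos_eq (by linarith) hρ]
            congr 1
            field_simp
        _ = ENNReal.ofReal (2 ^ β) * ENNReal.ofReal ((2 ^ β)⁻¹ * ρ ^ (-(β - 1))) :=
            ENNReal.ofReal_mul (by positivity)
        _ ≤ ENNReal.ofReal (2 ^ β) * (JJ β ρ + 1) := by
            gcongr
            exact h3.trans le_self_add

/-- Upper bound for the integral along a segment. -/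
lemma exists_JJ_upper {β : ℝ} (hβ : 0 < β) :
    ∃ C : ℝ≥0∞, C ≠ ∞ ∧ ∀ ρ : ℝ, 0 ≤ ρ → JJ β ρ ≤ C * (kernelU (β - 1) ρ + 1) := by
  rcases lt_or_ge β 1 with h1 | h1
  · have hfin : JJ β 0 ≠ ∞ := by
      have hint : IntegrableOn (fun w : ℝ => w ^ (-β)) (Ioc 0 1) := by
        have := intervalIntegral.intervalIntegrable_rpow' (a := 0) (b := 1) (r := -β) (by linarith)
        rw [intervalIntegrable_iff_integrableOn_Ioc_of_le zero_le_one] at this
        exact this
      have h2 : JJ β 0 = ∫⁻ w in Ioc (0 : ℝ) 1, ENNReal.ofReal (w ^ (-β)) := by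
        unfold JJ
        rw [setLIntegral_congr Ioc_ae_eq_Icc.symm]
        refine setLIntegral_congr_fun measurableSet_Ioc fun w hw => ?_
        rw [← kernelU_pos_eq hβ hw.1]
        congr 1
        rw [zero_pow (by norm_num), zero_add, Real.sqrt_sq hw.1.le]
      rw [h2]
      have h3 := hint.lintegral_lt_top
      exact h3.ne
    refine ⟨JJ β 0, hfin, fun ρ hρ => ?_⟩
    calc JJ β ρ ≤ JJ β 0 := JJ_antitone β self_mem_Ici hρ hρ
      _ = JJ β 0 * (0 + 1) := by rw [zero_add, mul_one]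
      _ ≤ _ := by gcongr; exact zero_le
  suffices h : ∃ C : ℝ≥0∞, C ≠ 0 ∧ C ≠ ∞ ∧ 1 ≤ C ∧
      ∀ ρ : ℝ, 0 < ρ → ρ ≤ 1 → JJ β ρ ≤ C * (kernelU (β - 1) ρ + 1) by
    obtain ⟨C, hC0, hC, hC1, h⟩ := h
    refine ⟨C, hC, fun ρ hρ => ?_⟩
    rcases hρ.eq_or_lt with rfl | hρ
    · rw [kernelU_zero_of_nonneg (by linarith), top_add, ENNReal.mul_top hC0]
      exact le_top
    rcases le_or_gt ρ 1 with h2 | h2
    · exact h ρ hρ h2
    · calc JJ β ρ ≤ ∫⁻ _ in Icc (0 : ℝ) 1, 1 := by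
            refine lintegral_mono fun w => kernelU_le_one ?_
            apply Real.le_sqrt_of_sq_le
            nlinarith [sq_nonneg w]
        _ = 1 := by simp
        _ ≤ C * (0 + 1) := by rw [zero_add, mul_one]; exact hC1
        _ ≤ _ := by gcongr; exact zero_le
  -- splitting
  have hsplit : ∀ ρ : ℝ, 0 < ρ → ρ ≤ 1 → JJ β ρ ≤
      ENNReal.ofReal (ρ ^ (-(β - 1))) + ∫⁻ w in Icc ρ 1, ENNReal.ofReal (w ^ (-β)) := by
    intro ρ hρ hρ1
    have h3 : Icc (0 : ℝ) 1 = Icc 0 ρ ∪ Icc ρ 1 := (Icc_union_Icc_eq_Icc hρ.le hρ1).symm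
    unfold JJ
    rw [h3]
    refine (lintegral_union_le _ _ _).trans (add_le_add ?_ ?_)
    · calc ∫⁻ w in Icc 0 ρ, kernelU β √(ρ ^ 2 + w ^ 2) ≤ ∫⁻ _ in Icc 0 ρ, kernelU β ρ := by
            refine lintegral_mono fun w => kernelU_antitone β hρ.le (Real.sqrt_nonneg _) ?_
            apply Real.le_sqrt_of_sq_le
            nlinarith [sq_nonneg w]
        _ = ENNReal.ofReal (ρ ^ (-(β - 1))) := by
            rw [setLIntegral_const, Real.volume_Icc, sub_zero, kernelU_pos_eq hβ hρ,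
              ← ENNReal.ofReal_mul (by positivity), ← Real.rpow_add_one hρ.ne']
            congr 2
            ring
    · refine setLIntegral_mono' measurableSet_Icc fun w hw => ?_
      have hw0 : 0 < w := hρ.trans_le hw.1
      rw [← kernelU_pos_eq hβ hw0]
      refine kernelU_antitone β hw0.le (Real.sqrt_nonneg _) ?_
      apply Real.le_sqrt_of_sq_le
      nlinarith [sq_nonneg ρ]
  rcases h1.eq_or_lt with rfl | h1
  · refine ⟨1, by simp, by simp, le_rfl, fun ρ hρ hρ1 => (hsplit ρ hρ hρ1).trans ?_⟩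
    have h4 : 0 ≤ Real.log (1 / ρ) := Real.log_nonneg (by rw [le_div_iff₀ hρ]; linarith)
    have h5 : ∫⁻ w in Icc ρ 1, ENNReal.ofReal (w ^ (-(1 : ℝ))) =
        ENNReal.ofReal (Real.log (1 / ρ)) := by
      rw [← lintegral_inv_Icc hρ hρ1]
      refine setLIntegral_congr_fun measurableSet_Icc fun w hw => ?_
      have hw0 : 0 < w := hρ.trans_le hw.1
      rw [Real.rpow_neg hw0.le, Real.rpow_one]
    rw [h5, sub_self, neg_zero, Real.rpow_zero, kernelU_zero_eq hρ, one_mul,
      ← ENNReal.ofReal_add zero_le_one h4]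
    exact le_self_add
  · refine ⟨1 + ENNReal.ofReal ((β - 1)⁻¹), by simp, by simp, le_self_add,
      fun ρ hρ hρ1 => (hsplit ρ hρ hρ1).trans ?_⟩
    have h4 := lintegral_rpow_Icc h1 hρ hρ1
    have h5 : 0 ≤ (β - 1)⁻¹ := inv_nonneg.2 (by linarith)
    calc ENNReal.ofReal (ρ ^ (-(β - 1))) + ∫⁻ w in Icc ρ 1, ENNReal.ofReal (w ^ (-β))
        ≤ ENNReal.ofReal (ρ ^ (-(β - 1))) + ENNReal.ofReal ((β - 1)⁻¹ * ρ ^ (-(β - 1))) := by
          gcongr
      _ = (1 + ENNReal.ofReal ((β - 1)⁻¹)) * kernelU (β - 1) ρ := by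
          rw [ENNReal.ofReal_mul h5, kernelU_pos_eq (by linarith) hρ]
          ring
      _ ≤ _ := by gcongr; exact le_self_add

/-! ### Slices -/

lemma measurable_line (β ρ : ℝ) : Measurable fun w : ℝ => kernelU β √(ρ ^ 2 + w ^ 2) :=
  (measurable_kernelU β).comp (by fun_prop)

lemma slice_upper (β ρ a t : ℝ) (ht : t ∈ Icc a (a + 1)) :
    ∫⁻ s in Icc a (a + 1), kernelU β √(ρ ^ 2 + (t - s) ^ 2) ≤ 2 * JJ β ρ := by
  have h1 : Icc a (a + 1) ⊆ Icc (t - 1) t ∪ Icc t (t + 1) := by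
    intro s hs
    rcases le_total s t with h | h
    · left; exact ⟨by linarith [hs.1, ht.2], h⟩
    · right; exact ⟨h, by linarith [hs.2, ht.1]⟩
  refine (lintegral_mono_set h1).trans ((lintegral_union_le _ _ _).trans ?_)
  rw [two_mul]
  refine add_le_add (le_of_eq ?_) (le_of_eq ?_)
  · have h2 := (Measure.measurePreserving_sub_left (volume : Measure ℝ) t).setLIntegral_comp_preimage
      (s := Icc (0 : ℝ) 1) measurableSet_Icc (measurable_line β ρ)
    have h3 : (fun x => t - x) ⁻¹' Icc (0 : ℝ) 1 = Icc (t - 1) t := by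
      ext s
      simp only [mem_preimage, mem_Icc]
      constructor <;> rintro ⟨h, h'⟩ <;> constructor <;> linarith
    rw [h3] at h2
    exact h2
  · have h2 := (measurePreserving_sub_right (volume : Measure ℝ) t).setLIntegral_comp_preimage
      (s := Icc (0 : ℝ) 1) measurableSet_Icc (measurable_line β ρ)
    have h3 : (fun x => x - t) ⁻¹' Icc (0 : ℝ) 1 = Icc t (t + 1) := by
      ext s
      simp only [mem_preimage, mem_Icc]
      constructor <;> rintro ⟨h, h'⟩ <;> constructor <;> linarith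
    rw [h3] at h2
    rw [← show JJ β ρ = ∫⁻ w in Icc (0 : ℝ) 1, kernelU β √(ρ ^ 2 + w ^ 2) from rfl] at h2
    rw [← h2]
    refine lintegral_congr fun s => ?_
    congr 3
    ring

lemma slice_lower (β ρ s L : ℝ) (hs : |s| ≤ L) :
    JJ β ρ ≤ ∫⁻ v in Icc (-L) (1 + L), kernelU β √(ρ ^ 2 + (s + v) ^ 2) := by
  have h2 := (measurePreserving_add_left (volume : Measure ℝ) s).setLIntegral_comp_preimage
      (s := Icc (0 : ℝ) 1) measurableSet_Icc (measurable_line β ρ)
  have h3 : (fun x => s + x) ⁻¹' Icc (0 : ℝ) 1 ⊆ Icc (-L) (1 + L) := by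
    intro v
    simp only [mem_preimage, mem_Icc]
    obtain ⟨h4, h5⟩ := abs_le.1 hs
    rintro ⟨h, h'⟩
    constructor <;> linarith
  unfold JJ
  rw [← h2]
  exact lintegral_mono_set h3

end Pool.Agent.Helper97.Sheet
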