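import Pool.Agent.Helper97.Sheet.Kernel

open MeasureTheory ProbabilityTheory Set Filter
open scoped ENNReal NNReal Topology

namespace Pool.Agent.Helper97.Sheet

variable {Ω : Type*} [MeasurableSpace Ω] {P : Measure Ω} {d : ℕ}
  {X : Fin d → ℝ → ℝ → Ω → ℝ}

/-- The total size of the two parts. -/
noncomputable def As (X : Fin d → ℝ → ℝ → Ω → ℝ) (b : ℝ) (x : E3) (ω : Ω) : ℝ :=
  ∑ i, (|X i (x 0) b ω - X i (x 0) (x 1) ω| + |X i (x 0) (x 2) ω - X i (x 0) b ω|)

/-- The event that the two parts are bounded by `M` on `K`. -/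
def bddE (X : Fin d → ℝ → ℝ → Ω → ℝ) (b : ℝ) (K : Set E3) (M : ℝ) : Set Ω :=
  {ω | ∀ x : K, As X b x.1 ω ≤ M}

/-- The event that the modulus of continuity is small. -/
def modE (X : Fin d → ℝ → ℝ → Ω → ℝ) (K : Set E3) (h ε : ℝ) : Set Ω :=
  {ω | ∀ q : {q : K × K // dist q.1 q.2 ≤ h}, ∑ i, |W X i q.1.1 ω - W X i q.1.2 ω| ≤ ε}

namespace Nice

lemma continuous_As (hX : Nice X P) (b : ℝ) (ω : Ω) : Continuous fun x => As X b x ω := by
  unfold As
  refine continuous_finsetSum _ fun i _ => ?_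
  have h1 : Continuous fun x : E3 => X i (x 0) (x 2) ω :=
    (hX.cont i ω).comp (by fun_prop : Continuous fun x : E3 => (x 0, x 2))
  have h2 : Continuous fun x : E3 => X i (x 0) (x 1) ω :=
    (hX.cont i ω).comp (by fun_prop : Continuous fun x : E3 => (x 0, x 1))
  have h3 : Continuous fun x : E3 => X i (x 0) b ω :=
    (hX.cont i ω).comp (by fun_prop : Continuous fun x : E3 => (x 0, b))
  exact (h3.sub h2).abs.add (h1.sub h3).abs

lemma measurable_As (hX : Nice X P) (b : ℝ) (x : E3) : Measurable (As X b x) :=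
  Finset.measurable_sum _ fun _ _ =>
    (continuous_abs.measurable.comp ((hX.meas _ _ _).sub (hX.meas _ _ _))).add
      (continuous_abs.measurable.comp ((hX.meas _ _ _).sub (hX.meas _ _ _)))

lemma measurableSet_bddE (hX : Nice X P) (b : ℝ) (K : Set E3) (M : ℝ) :
    MeasurableSet (bddE X b K M) :=
  measurableSet_forall_le (S := K) (f := fun x ω => As X b x.1 ω)
    (fun x => hX.measurable_As b x.1)
    (fun ω => (hX.continuous_As b ω).comp continuous_subtype_val) M

lemma measurableSet_modE (hX : Nice X P) (K : Set E3) (h ε : ℝ) :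
    MeasurableSet (modE X K h ε) := by
  refine measurableSet_forall_le (S := {q : K × K // dist q.1 q.2 ≤ h})
    (f := fun q ω => ∑ i, |W X i q.1.1 ω - W X i q.1.2 ω|) (fun q => ?_) (fun ω => ?_) ε
  · exact Finset.measurable_sum _ fun i _ => continuous_abs.measurable.comp
      ((hX.measurable_W i _).sub (hX.measurable_W i _))
  · refine continuous_finsetSum _ fun i _ => ?_
    have h1 : Continuous fun q : {q : K × K // dist q.1 q.2 ≤ h} => W X i q.1.1 ω :=
      (hX.continuous_W i ω).comp (by fun_prop)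
    have h2 : Continuous fun q : {q : K × K // dist q.1 q.2 ≤ h} => W X i q.1.2 ω :=
      (hX.continuous_W i ω).comp (by fun_prop)
    exact (h1.sub h2).abs

lemma iUnion_bddE (hX : Nice X P) (b : ℝ) {K : Set E3} (hK : IsCompact K) :
    ⋃ n : ℕ, bddE X b K n = univ := by
  rw [eq_univ_iff_forall]
  intro ω
  rw [mem_iUnion]
  obtain ⟨C, hC⟩ := hK.bddAbove_image (hX.continuous_As b ω).continuousOn
  obtain ⟨n, hn⟩ := exists_nat_ge C
  exact ⟨n, fun x => (hC (mem_image_of_mem _ x.2)).trans hn⟩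

lemma iUnion_modE (hX : Nice X P) {K : Set E3} (hK : IsCompact K) {ε : ℝ} (hε : 0 < ε) :
    ⋃ n : ℕ, modE X K (1 / ((n : ℝ) + 1)) ε = univ := by
  rw [eq_univ_iff_forall]
  intro ω
  rw [mem_iUnion]
  have hunif : ∀ i, ∃ δ > 0, ∀ x ∈ K, ∀ y ∈ K, dist x y < δ →
      dist (W X i x ω) (W X i y ω) < ε / (d + 1) := by
    intro i
    have h1 := hK.uniformContinuousOn_of_continuous (hX.continuous_W i ω).continuousOn
    rw [Metric.uniformContinuousOn_iff] at h1
    exact h1 (ε / (d + 1)) (by positivity)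
  choose δ hδ0 hδ using hunif
  obtain ⟨n, hn⟩ : ∃ n : ℕ, ∀ i, 1 / ((n : ℝ) + 1) < δ i := by
    have h2 : ∀ i, ∀ᶠ n : ℕ in atTop, 1 / ((n : ℝ) + 1) < δ i := fun i =>
      (tendsto_one_div_add_atTop_nhds_zero_nat (𝕜 := ℝ)).eventually (gt_mem_nhds (hδ0 i))
    exact (eventually_all.2 h2).exists
  refine ⟨n, fun q => ?_⟩
  calc ∑ i, |W X i q.1.1 ω - W X i q.1.2 ω| ≤ ∑ _i : Fin d, ε / (d + 1) := by
        refine Finset.sum_le_sum fun i _ => ?_
        have h3 := hδ i q.1.1.1 q.1.1.2 q.1.2.1 q.1.2.2 (lt_of_le_of_lt q.2 (hn i))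
        rw [Real.dist_eq] at h3
        exact h3.le
    _ = d * (ε / (d + 1)) := by simp
    _ ≤ ε := by
        rw [mul_div_assoc', div_le_iff₀ (by positivity)]
        nlinarith

lemma exists_good (hX : Nice X P) (b : ℝ) {K : Set E3} (hK : IsCompact K)
    (hpos : 0 < P (hit X K)) : ∃ M : ℝ, 0 ≤ M ∧ ∀ ε > 0, ∃ h > 0,
      P (hit X K) / 2 < P (hit X K ∩ bddE X b K M ∩ modE X K h ε) := by
  have := hX.isProb
  have hhalf : P (hit X K) / 2 < P (hit X K) := ENNReal.half_lt_self hpos.ne' (measure_ne_top _ _)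
  have h1 : Tendsto (fun n : ℕ => P (hit X K ∩ bddE X b K n)) atTop (𝓝 (P (hit X K))) := by
    have h2 := tendsto_measure_iUnion_atTop (μ := P) (s := fun n : ℕ => hit X K ∩ bddE X b K n)
      (fun n m hnm ω hω => ⟨hω.1, fun x => (hω.2 x).trans (by exact_mod_cast hnm)⟩)
    rw [← inter_iUnion, hX.iUnion_bddE b hK, inter_univ] at h2
    exact h2
  obtain ⟨M, hM⟩ := (h1.eventually (lt_mem_nhds hhalf)).exists
  refine ⟨M, Nat.cast_nonneg M, fun ε hε => ?_⟩
  have h3 : Tendsto (fun n : ℕ => P (hit X K ∩ bddE X b K M ∩ modE X K (1 / ((n : ℝ) + 1)) ε))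
      atTop (𝓝 (P (hit X K ∩ bddE X b K M))) := by
    have h2 := tendsto_measure_iUnion_atTop (μ := P)
      (s := fun n : ℕ => hit X K ∩ bddE X b K M ∩ modE X K (1 / ((n : ℝ) + 1)) ε)
      (fun n m hnm ω hω => ⟨hω.1, fun q => hω.2 ⟨q.1, q.2.trans (by gcongr)⟩⟩)
    rw [← inter_iUnion, hX.iUnion_modE hK hε, inter_univ] at h2
    exact h2
  obtain ⟨n, hn⟩ := (h3.eventually (lt_mem_nhds hM)).exists
  exact ⟨1 / ((n : ℝ) + 1), by positivity, hn⟩

/-- The discretised version of the upper bound. -/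
lemma exists_discrete (hX : Nice X P) {R b : ℝ} (hR : 1 ≤ R) (hb : 0 ≤ b) {K : Set E3}
    (hK : IsCompact K) (hKD : K ⊆ Dom R b) (hpos : 0 < P (hit X K)) :
    ∃ C : ℝ≥0∞, C ≠ ∞ ∧ ∀ ε > 0, ∃ ν : ProbabilityMeasure K,
      ∫⁻ x, ∫⁻ y, ENNReal.ofReal (κ₁ ε (dist x y) ^ d) ∂(ν : Measure K) ∂(ν : Measure K) ≤ C := by
  classical
  have := hX.isProb
  obtain ⟨M, hM, hgood⟩ := hX.exists_good b hK hpos
  set η : ℝ := (P (hit X K) / 2).toReal with hη
  have hhalf_top : P (hit X K) / 2 ≠ ∞ := ENNReal.div_ne_top (measure_ne_top _ _) (by norm_num)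
  have hη0 : 0 < η := ENNReal.toReal_pos (ENNReal.div_pos hpos.ne' (by norm_num)).ne' hhalf_top
  set K₀ : ℝ := 4096 * (C2 R / cL R M ^ 2) ^ d with hK₀
  have hK₀0 : 0 ≤ K₀ := by
    have := C2_pos hR
    have := cL_pos hR M
    positivity
  refine ⟨ENNReal.ofReal (K₀ / η), ENNReal.ofReal_ne_top, fun ε hε => ?_⟩
  obtain ⟨h, hh, hP⟩ := hgood ε hε
  obtain ⟨t, htK, htfin, htcov⟩ := hK.finite_cover_balls hh
  set T := htfin.toFinset with hT
  set e := T.equivFin with he
  set y : Fin T.card → E3 := fun k => (e.symm k).1 with hy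
  have hyK : ∀ k, y k ∈ K := fun k => htK (htfin.mem_toFinset.1 (e.symm k).2)
  have hycov : ∀ x ∈ K, ∃ k, x ∈ Metric.closedBall (y k) h := by
    intro x hx
    obtain ⟨z, hz, hxz⟩ := mem_iUnion₂.1 (htcov hx)
    refine ⟨e ⟨z, htfin.mem_toFinset.2 hz⟩, ?_⟩
    simp only [hy, Equiv.symm_apply_apply]
    exact Metric.ball_subset_closedBall hxz
  set Ev : Fin T.card → Set Ω := fun k => hit X (K ∩ Metric.closedBall (y k) h) with hEv
  have hEvm : ∀ k, MeasurableSet (Ev k) := fun k =>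
    hX.measurableSet_hit (hK.inter_right Metric.isClosed_closedBall)
  set F : Fin T.card → Set Ω := fun k => (Ev k \ ⋃ j, ⋃ (_ : j < k), Ev j) ∩
    (bddE X b K M ∩ {ω | ∀ i, |W X i (y k) ω| ≤ ε}) with hF
  have hWm : ∀ k, MeasurableSet {ω | ∀ i, |W X i (y k) ω| ≤ ε} := by
    intro k
    have e : {ω | ∀ i, |W X i (y k) ω| ≤ ε} = ⋂ i, {ω | |W X i (y k) ω| ≤ ε} := by
      ext z; simp
    rw [e]
    refine MeasurableSet.iInter fun i => ?_
    exact measurableSet_le (continuous_abs.measurable.comp (hX.measurable_W i (y k)))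
      measurable_const
  have hFm : ∀ k, MeasurableSet (F k) := fun k =>
    ((hEvm k).diff (MeasurableSet.iUnion fun j => MeasurableSet.iUnion fun _ => hEvm j)).inter
      ((hX.measurableSet_bddE b K M).inter (hWm k))
  have hdisj : Pairwise (Function.onFun Disjoint F) := by
    intro j k hjk
    show Disjoint (F j) (F k)
    rw [Set.disjoint_left]
    intro ω h1 h2
    rcases lt_or_gt_of_ne hjk with h3 | h3
    · exact h2.1.2 (mem_iUnion₂.2 ⟨j, h3, h1.1.1⟩)
    · exact h1.1.2 (mem_iUnion₂.2 ⟨k, h3, h2.1.1⟩)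
  have hAs : ∀ k, ∀ ω ∈ F k, ∀ i, |X i (y k 0) b ω - X i (y k 0) (y k 1) ω| +
      |X i (y k 0) (y k 2) ω - X i (y k 0) b ω| ≤ M := by
    intro k ω hω i
    have h1 := hω.2.1 ⟨y k, hyK k⟩
    refine le_trans ?_ h1
    exact Finset.single_le_sum (f := fun i => |X i (y k 0) b ω - X i (y k 0) (y k 1) ω| +
      |X i (y k 0) (y k 2) ω - X i (y k 0) b ω|) (fun _ _ => by positivity) (Finset.mem_univ i)
  have hcore := hX.core_all hb hR hM (pt := y) (fun k => hKD (hyK k)) hFm hdisj hε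
    (fun k ω hω i => hω.2.2 i)
    (fun k ω hω i => le_trans (le_add_of_nonneg_right (abs_nonneg _)) (hAs k ω hω i))
    (fun k ω hω i => le_trans (le_add_of_nonneg_left (abs_nonneg _)) (hAs k ω hω i))
  set p : Fin T.card → ℝ := fun k => P.real (F k) with hp
  have hp0 : ∀ k, 0 ≤ p k := fun k => measureReal_nonneg
  set w := ∑ k, p k with hw
  -- the total mass
  have hcover : hit X K ∩ bddE X b K M ∩ modE X K h ε ⊆ ⋃ k, F k := by
    rintro ω ⟨⟨⟨x, hx, hx0⟩, hbd⟩, hmod⟩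
    obtain ⟨k₀, hk₀⟩ := hycov x hx
    have hne : {k | ω ∈ Ev k}.Nonempty := ⟨k₀, x, ⟨hx, hk₀⟩, hx0⟩
    obtain ⟨k, hk, hmin⟩ := WellFounded.has_min (wellFounded_lt (α := Fin T.card)) _ hne
    refine mem_iUnion.2 ⟨k, ⟨hk, ?_⟩, hbd, ?_⟩
    · intro h1
      obtain ⟨j, hj, hj'⟩ := mem_iUnion₂.1 h1
      exact hmin j hj' hj
    · intro i
      obtain ⟨x', ⟨hx'K, hx'b⟩, hx'0⟩ := hk
      have h1 := hmod ⟨(⟨y k, hyK k⟩, ⟨x', hx'K⟩), by
        rw [dist_comm]; exact hx'b⟩
      have h2 : |W X i (y k) ω - W X i x' ω| ≤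
          ∑ i, |W X i (y k) ω - W X i x' ω| :=
        Finset.single_le_sum (f := fun i => |W X i (y k) ω - W X i x' ω|)
          (fun _ _ => abs_nonneg _) (Finset.mem_univ i)
      rw [hx'0 i, sub_zero] at h2
      exact h2.trans h1
  have hwη : η ≤ w := by
    have h1 : P (hit X K) / 2 ≤ ∑ k, P (F k) := by
      refine hP.le.trans ((measure_mono hcover).trans ?_)
      exact measure_iUnion_fintype_le _ _
    have h2 : ∑ k, P (F k) = ENNReal.ofReal w := by
      rw [hw, ENNReal.ofReal_sum_of_nonneg fun k _ => hp0 k]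
      refine Finset.sum_congr rfl fun k _ => ?_
      exact (ofReal_measureReal (measure_ne_top _ _)).symm
    rw [h2] at h1
    have h3 := ENNReal.toReal_mono ENNReal.ofReal_ne_top h1
    rwa [ENNReal.toReal_ofReal (Finset.sum_nonneg fun k _ => hp0 k)] at h3
  have hw0 : 0 < w := hη0.trans_le hwη
  set ν : Measure K := ∑ k, ENNReal.ofReal (p k / w) • Measure.dirac (⟨y k, hyK k⟩ : K) with hν
  have hνp : IsProbabilityMeasure ν := by
    constructor
    rw [hν, Measure.finsetSum_apply]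
    simp only [Measure.smul_apply, measure_univ, smul_eq_mul, mul_one]
    rw [← ENNReal.ofReal_sum_of_nonneg fun k _ => div_nonneg (hp0 k) hw0.le, ← Finset.sum_div,
      div_self hw0.ne', ENNReal.ofReal_one]
  refine ⟨⟨ν, hνp⟩, ?_⟩
  have hint : ∀ g : K → ℝ≥0∞, ∫⁻ x, g x ∂ν = ∑ k, ENNReal.ofReal (p k / w) * g ⟨y k, hyK k⟩ := by
    intro g
    rw [hν, lintegral_finsetSum_measure]
    refine Finset.sum_congr rfl fun k _ => ?_
    rw [lintegral_smul_measure, lintegral_dirac, smul_eq_mul]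
  show ∫⁻ x, ∫⁻ y, ENNReal.ofReal (κ₁ ε (dist x y) ^ d) ∂ν ∂ν ≤ _
  rw [hint]
  simp_rw [hint]
  have hκ0 : ∀ k l, 0 ≤ κ₁ ε (dist (y k) (y l)) ^ d := fun k l => (pow_pos (κ₁_pos hε _) d).le
  have e1 : ∑ k, ENNReal.ofReal (p k / w) * ∑ l, ENNReal.ofReal (p l / w) *
      ENNReal.ofReal (κ₁ ε (dist (⟨y k, hyK k⟩ : K) (⟨y l, hyK l⟩ : K)) ^ d) =
      ENNReal.ofReal (∑ k, ∑ l, (p k / w) * (p l / w) * κ₁ ε (dist (y k) (y l)) ^ d) := by
    rw [ENNReal.ofReal_sum_of_nonneg fun k _ => Finset.sum_nonneg fun l _ =>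
      mul_nonneg (mul_nonneg (div_nonneg (hp0 k) hw0.le) (div_nonneg (hp0 l) hw0.le)) (hκ0 k l)]
    refine Finset.sum_congr rfl fun k _ => ?_
    rw [Finset.mul_sum, ENNReal.ofReal_sum_of_nonneg fun l _ =>
      mul_nonneg (mul_nonneg (div_nonneg (hp0 k) hw0.le) (div_nonneg (hp0 l) hw0.le)) (hκ0 k l)]
    refine Finset.sum_congr rfl fun l _ => ?_
    rw [← ENNReal.ofReal_mul (div_nonneg (hp0 l) hw0.le),
      ← ENNReal.ofReal_mul (div_nonneg (hp0 k) hw0.le), ← mul_assoc]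
    rfl
  rw [e1]
  apply ENNReal.ofReal_le_ofReal
  have e2 : ∑ k, ∑ l, (p k / w) * (p l / w) * κ₁ ε (dist (y k) (y l)) ^ d =
      (∑ k, ∑ l, p k * p l * κ₁ ε (dist (y k) (y l)) ^ d) / w ^ 2 := by
    rw [Finset.sum_div]
    refine Finset.sum_congr rfl fun k _ => ?_
    rw [Finset.sum_div]
    refine Finset.sum_congr rfl fun l _ => ?_
    field_simp
  rw [e2]
  calc (∑ k, ∑ l, p k * p l * κ₁ ε (dist (y k) (y l)) ^ d) / w ^ 2 ≤ K₀ * w / w ^ 2 := by
        gcongr
    _ = K₀ / w := by field_simp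
    _ ≤ K₀ / η := by gcongr

/-- **The upper bound**: if `K` is hit with positive probability, then it carries a probability
measure with finite energy. -/
theorem upper (hX : Nice X P) (hd : 1 ≤ d) {R b : ℝ} (hR : 1 ≤ R) (hb : 0 ≤ b) {K : Set E3}
    (hK : IsCompact K) (hKD : K ⊆ Dom R b) (hpos : 0 < P (hit X K)) :
    ∃ μ : Measure E3, IsProbabilityMeasure μ ∧ μ Kᶜ = 0 ∧ energy ((d : ℝ) / 2) μ ≠ ∞ := by
  obtain ⟨C, hC, h⟩ := hX.exists_discrete hR hb hK hKD hpos
  have hKc : CompactSpace K := isCompact_iff_compactSpace.1 hK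
  choose ν' hν' using h
  set ε : ℕ → ℝ := fun n => 1 / ((n : ℝ) + 1) with hε
  have hε0 : ∀ n, 0 < ε n := fun n => by simp only [hε]; positivity
  set ν : ℕ → ProbabilityMeasure K := fun n => ν' (ε n) (hε0 n) with hνd
  have hν : ∀ n, ∫⁻ x, ∫⁻ y, ENNReal.ofReal (κ₁ (ε n) (dist x y) ^ d)
      ∂(ν n : Measure K) ∂(ν n : Measure K) ≤ C := fun n => hν' (ε n) (hε0 n)
  have hεanti : ∀ m n, m ≤ n → ε n ≤ ε m := fun m n hmn => by
    simp only [hε]
    gcongr
  -- a cluster point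
  obtain ⟨μ, -, hμ⟩ := (isCompact_univ (X := ProbabilityMeasure K)).ultrafilter_le_nhds
    ((hyperfilter ℕ).map ν) (by simp)
  have hμt : Tendsto ν (hyperfilter ℕ : Filter ℕ) (𝓝 μ) := hμ
  have hprod : Tendsto (fun n => (ν n).prod (ν n)) (hyperfilter ℕ : Filter ℕ)
      (𝓝 (μ.prod μ)) :=
    (ProbabilityMeasure.continuous_prod.tendsto (μ, μ)).comp (hμt.prodMk_nhds hμt)
  have hfix : ∀ m, ∫⁻ q : K × K, ENNReal.ofReal (κ₁ (ε m) (dist q.1 q.2) ^ d)
      ∂((μ.prod μ : ProbabilityMeasure (K × K)) : Measure (K × K)) ≤ C := by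
    intro m
    have hcont : Continuous fun q : K × K => (κ₁ (ε m) (dist q.1 q.2) ^ d).toNNReal :=
      continuous_real_toNNReal.comp (((continuous_κ₁ (hε0 m)).comp continuous_dist).pow d)
    set g : BoundedContinuousFunction (K × K) ℝ≥0 := BoundedContinuousFunction.mkOfCompact
      ⟨_, hcont⟩ with hg
    have h1 := ProbabilityMeasure.tendsto_iff_forall_lintegral_tendsto.1 hprod g
    have h2 : ∀ q : K × K, ((g q : ℝ≥0) : ℝ≥0∞) =
      ENNReal.ofReal (κ₁ (ε m) (dist q.1 q.2) ^ d) := fun q => rfl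
    simp_rw [h2] at h1
    refine le_of_tendsto h1 ?_
    have h3 : ∀ᶠ n in (hyperfilter ℕ : Filter ℕ), m ≤ n :=
      (Nat.hyperfilter_le_atTop) (eventually_ge_atTop m)
    filter_upwards [h3] with n hn
    have hmeas : Measurable fun q : K × K => ENNReal.ofReal (κ₁ (ε m) (dist q.1 q.2) ^ d) :=
      hcont.measurable.coe_nnreal_ennreal
    rw [ProbabilityMeasure.toMeasure_prod, lintegral_prod _ hmeas.aemeasurable]
    refine le_trans ?_ (hν n)
    refine lintegral_mono fun x => lintegral_mono fun y => ?_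
    apply ENNReal.ofReal_le_ofReal
    exact pow_le_pow_left₀ (κ₁_pos (hε0 m) _).le (κ₁_anti (hε0 n) (hεanti m n hn) _) d
  refine ⟨(μ : Measure K).map Subtype.val, Measure.isProbabilityMeasure_map
    measurable_subtype_coe.aemeasurable, ?_, ?_⟩
  · rw [Measure.map_apply measurable_subtype_coe hK.measurableSet.compl]
    have : (Subtype.val : K → E3) ⁻¹' Kᶜ = ∅ := by
      ext x; simp
    rw [this, measure_empty]
  · refine ne_top_of_le_ne_top hC ?_
    have hUm : Measurable fun q : E3 × E3 => kernelU ((d : ℝ) / 2) (dist q.1 q.2) :=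
      (measurable_kernelU _).comp measurable_dist
    unfold energy
    rw [lintegral_map hUm.lintegral_prod_right' measurable_subtype_coe]
    have e1 : ∀ x : K, ∫⁻ y, kernelU ((d : ℝ) / 2) (dist (x : E3) y)
        ∂((μ : Measure K).map Subtype.val) =
        ∫⁻ y : K, kernelU ((d : ℝ) / 2) (dist x y) ∂(μ : Measure K) := by
      intro x
      have hUx : Measurable fun y : E3 => kernelU ((d : ℝ) / 2) (dist (x : E3) y) :=
        (measurable_kernelU ((d : ℝ) / 2)).comp (measurable_const.dist measurable_id)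
      rw [lintegral_map hUx measurable_subtype_coe]
      simp only [Subtype.dist_eq]
    simp_rw [e1]
    have hUm' : Measurable fun q : K × K => kernelU ((d : ℝ) / 2) (dist q.1 q.2) :=
      (measurable_kernelU _).comp measurable_dist
    rw [← lintegral_prod (μ := (μ : Measure K)) (ν := (μ : Measure K))
      (fun q => kernelU ((d : ℝ) / 2) (dist q.1 q.2)) hUm'.aemeasurable]
    have hkm : ∀ n, Measurable fun q : K × K => ENNReal.ofReal (κ₁ (ε n) (dist q.1 q.2) ^ d) :=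
      fun n => ((((continuous_κ₁ (hε0 n)).comp continuous_dist).pow d).measurable).ennreal_ofReal
    calc ∫⁻ q : K × K, kernelU ((d : ℝ) / 2) (dist q.1 q.2)
          ∂((μ : Measure K).prod (μ : Measure K))
        ≤ ∫⁻ q : K × K, liminf (fun n => ENNReal.ofReal (κ₁ (ε n) (dist q.1 q.2) ^ d)) atTop
            ∂((μ : Measure K).prod (μ : Measure K)) :=
          lintegral_mono fun q => kernelU_le_liminf hd dist_nonneg
      _ ≤ liminf (fun n => ∫⁻ q : K × K, ENNReal.ofReal (κ₁ (ε n) (dist q.1 q.2) ^ d)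
            ∂((μ : Measure K).prod (μ : Measure K))) atTop :=
          lintegral_liminf_le hkm
      _ ≤ C := by
          refine liminf_le_of_frequently_le' ?_
          exact Frequently.of_forall hfix

end Nice

end Pool.Agent.Helper97.Sheet
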